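import Pool.Agent.Helper23.Pres

set_option autoImplicit false

/-!
Closing of paths in partial actions having all the cells.
-/

namespace OneRel

open FreeGroup (invRev)

section Dil

variable {Y : Type*}

/-- dilation of a partial injection -/
def dilFun (f : PI Y) : Y ⊕ Y → Y ⊕ Y
  | Sum.inl x => match f.ap x with
    | some y => Sum.inl y
    | none => Sum.inr x
  | Sum.inr x => match f.sy.ap x with
    | some y => Sum.inr y
    | none => Sum.inl x

theorem dilFun_inl_some {f : PI Y} {x y : Y} (h : f.ap x = some y) :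
    dilFun f (Sum.inl x) = Sum.inl y := by simp [dilFun, h]
theorem dilFun_inl_none {f : PI Y} {x : Y} (h : f.ap x = none) :
    dilFun f (Sum.inl x) = Sum.inr x := by simp [dilFun, h]
theorem dilFun_inr_some {f : PI Y} {x y : Y} (h : f.sy.ap x = some y) :
    dilFun f (Sum.inr x) = Sum.inr y := by simp [dilFun, h]
theorem dilFun_inr_none {f : PI Y} {x : Y} (h : f.sy.ap x = none) :
    dilFun f (Sum.inr x) = Sum.inl x := by simp [dilFun, h]

theorem dilFun_sy (f : PI Y) (z : Y ⊕ Y) : dilFun f.sy (dilFun f z) = z := by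
  rcases z with x | x
  · rcases h : f.ap x with _ | y
    · rw [dilFun_inl_none h, dilFun_inr_none (by rw [PI.sy_sy]; exact h)]
    · rw [dilFun_inl_some h, dilFun_inl_some (PI.ap_sy.2 h)]
  · rcases h : f.sy.ap x with _ | y
    · rw [dilFun_inr_none h, dilFun_inl_none h]
    · rw [dilFun_inr_some h, dilFun_inr_some (by rw [PI.sy_sy]; exact PI.ap_sy.1 h)]

/-- dilation as a permutation -/
def dil (f : PI Y) : Equiv.Perm (Y ⊕ Y) where
  toFun := dilFun f
  invFun := dilFun f.sy
  left_inv := dilFun_sy f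
  right_inv z := by
    have := dilFun_sy f.sy z
    rwa [PI.sy_sy] at this

theorem dil_sy (f : PI Y) : (dil f)⁻¹ = dil f.sy := by
  ext z
  rfl

end Dil

variable {α : Type*} {L : Type*} [Group L]

/-- **Closing lemma.** If all `s^m`-cells (based at the extremal position) are present in the
partial action `pf` then every readable path whose label is trivial in the group is closed. -/
theorem close (e : α → L) (s : List (α × Bool)) (m : ℕ) (hm : m ≠ 0) (hs : ev e s = 1)
    (H1 : (1 : L) ∉ Subsemigroup.closure (posSet e s Set.univ)) (hcr : CR s)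
    {Y : Type*} (pf : α × Bool → PI Y) (hpf : ∀ c, pf (c, false) = (pf (c, true)).sy)
    (hcell : ∀ y, (vl pf (wpow s m)).ap y = some y) (v : List (α × Bool))
    (hv : FreeGroup.mk v ∈ Subgroup.normalClosure {FreeGroup.mk (wpow s m)}) {y y' : Y}
    (h : (vl pf v).ap y = some y') : y' = y := by
  let σ0 : L → α → Equiv.Perm (Y ⊕ Y) := fun _ c => dil (pf (c, true))
  let prot : L → α → Set (Y ⊕ Y) := fun _ c =>
    {z | ∃ y y', z = Sum.inl y ∧ (pf (c, true)).ap y = some y'}
  have hgv : ∀ g a, gv e σ0 g a = dil (pf a) := by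
    rintro g ⟨c, ε⟩
    cases ε
    · rw [gv_false, hpf, ← dil_sy]
    · rfl
  have hgp : ∀ g a (x : Y ⊕ Y), x ∈ gp e prot σ0 g a ↔
      ∃ y y', x = Sum.inl y ∧ (pf a).ap y = some y' := by
    rintro g ⟨c, ε⟩ x
    cases ε
    · have h0 : (x ∈ gp e prot σ0 g (c, false)) ↔
          ∃ y y', dilFun (pf (c, true)).sy x = Sum.inl y ∧ (pf (c, true)).ap y = some y' :=
        Iff.rfl
      rw [h0]
      constructor
      · rintro ⟨y, y', h1, h2⟩
        rcases x with x | x
        · rcases h3 : (pf (c, true)).sy.ap x with _ | z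
          · rw [dilFun_inl_none h3] at h1; exact absurd h1 (by simp)
          · exact ⟨x, z, rfl, by rw [hpf]; exact h3⟩
        · exfalso
          rcases h3 : (pf (c, true)).sy.sy.ap x with _ | z
          · rw [dilFun_inr_none h3] at h1
            rw [PI.sy_sy] at h3
            rw [Sum.inl.inj h1, h2] at h3
            exact absurd h3 (by simp)
          · rw [dilFun_inr_some h3] at h1; exact absurd h1 (by simp)
      · rintro ⟨y, y', rfl, h2⟩
        rw [hpf] at h2
        exact ⟨y', y, dilFun_inl_some h2, PI.ap_sy.1 h2⟩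
    · exact Iff.rfl
  have hPP : ∀ (w : List (α × Bool)) (g : L) (y y' : Y), (vl pf w).ap y = some y' →
      PP e prot σ0 g w (Sum.inl y) ∧ hol e σ0 g w (Sum.inl y) = Sum.inl y' := by
    intro w
    induction w with
    | nil =>
      intro g y y' h
      rw [vl_nil, PI.ap_one, Option.some.injEq] at h
      rw [h]; exact ⟨trivial, rfl⟩
    | cons a w ih =>
      intro g y y' h
      rw [vl_cons, PI.ap_mul] at h
      rcases h1 : (pf a).ap y with _ | y1
      · rw [h1] at h; exact absurd h (by simp)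
      · rw [h1, Option.bind_some] at h
        have h2 : gv e σ0 g a (Sum.inl y) = Sum.inl y1 := by
          rw [hgv]; exact dilFun_inl_some h1
        obtain ⟨h3, h4⟩ := ih (g * lv e a) y1 y' h
        refine ⟨⟨(hgp g a _).2 ⟨y, y1, rfl, h1⟩, ?_⟩, ?_⟩
        · rw [h2]; exact h3
        · rw [hol_cons, Equiv.Perm.mul_apply, h2, h4]
  obtain ⟨O, hO⟩ := exists_finset_of_mem_normalClosure e (Y ⊕ Y) (wpow s m)
    (by rw [ev_wpow, hs, one_pow]) _ hv 1
  have hσ : ∃ σ : L → α → Equiv.Perm (Y ⊕ Y), Agree prot σ0 σ ∧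
      ∀ g ∈ O, hol e σ g (wpow s m) = 1 := by
    rcases s with _ | ⟨x0, w⟩
    · refine ⟨σ0, fun _ _ _ _ => rfl, fun g _ => ?_⟩
      have : wpow ([] : List (α × Bool)) m = [] := by simp [wpow]
      rw [this]; rfl
    · obtain ⟨σ, h1, -, h2⟩ := extension e x0 w Set.univ hs (Set.mem_univ _) H1 hcr.last_ne m hm
        prot σ0 (by
          intro g x hx
          obtain ⟨y, y', rfl, -⟩ := (hgp g x0 x).1 hx
          exact hPP _ g y y (hcell y)) O
      exact ⟨σ, h1, h2⟩
  obtain ⟨σ, hA, hC⟩ := hσ
  have h1 := hO σ hC (Sum.inl y)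
  rw [walk_mk] at h1
  obtain ⟨h2, h3⟩ := hPP v 1 y y' h
  rw [(hA.PP_hol h2).2, h3] at h1
  exact Sum.inl.inj (congrArg Prod.snd h1)

end OneRel
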