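import Mathlib

set_option autoImplicit false

/-!
Extremal families of group elements.

`Ext p` : every nonempty subset `Q` of the index type contains an index `q` such that `1` is not
in the subsemigroup generated by the quotients `(p q)⁻¹ * p q'`, `q' ∈ Q`, `q' ≠ q`.
-/

namespace OneRel

open Set

universe u v w

variable {ι : Type u} {κ : Type v}

/-- Extremal family. -/
def Ext {K : Type w} [Group K] (p : ι → K) : Prop :=
  ∀ Q : Set ι, Q.Nonempty → ∃ q ∈ Q,
    (1 : K) ∉ Subsemigroup.closure ((fun q' => (p q)⁻¹ * p q') '' (Q \ {q}))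

theorem mem_closure_map {K K' : Type*} [Group K] [Group K'] (f : K →* K') (S : Set K) {x : K}
    (hx : x ∈ Subsemigroup.closure S) : f x ∈ Subsemigroup.closure (f '' S) := by
  induction hx using Subsemigroup.closure_induction with
  | mem y hy => exact Subsemigroup.subset_closure ⟨y, hy, rfl⟩
  | mul y z _ _ h1 h2 => rw [map_mul]; exact Subsemigroup.mul_mem _ h1 h2

theorem mem_closure_image {K K' : Type*} [Group K] [Group K'] (f : K →* K') (S : Set K) {x : K'}
    (hx : x ∈ Subsemigroup.closure (f '' S)) : ∃ y ∈ Subsemigroup.closure S, f y = x := by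
  induction hx using Subsemigroup.closure_induction with
  | mem y hy =>
    obtain ⟨z, hz, rfl⟩ := hy
    exact ⟨z, Subsemigroup.subset_closure hz, rfl⟩
  | mul y z _ _ h1 h2 =>
    obtain ⟨a, ha, rfl⟩ := h1
    obtain ⟨b, hb, rfl⟩ := h2
    exact ⟨a * b, Subsemigroup.mul_mem _ ha hb, map_mul f a b⟩

/-- Pull back along an arbitrary homomorphism. -/
theorem Ext.of_comp {K K' : Type*} [Group K] [Group K'] (f : K →* K') {p : ι → K}
    (h : Ext (fun i => f (p i))) : Ext p := by
  intro Q hQ
  obtain ⟨q, hq, hn⟩ := h Q hQ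
  refine ⟨q, hq, fun h1 => hn ?_⟩
  have := mem_closure_map f _ h1
  rw [map_one] at this
  convert this using 2
  rw [Set.image_image]
  simp only [map_mul, map_inv]

/-- Push forward along an injective homomorphism. -/
theorem Ext.comp_injective {K K' : Type*} [Group K] [Group K'] (f : K →* K')
    (hf : Function.Injective f) {p : ι → K} (h : Ext p) : Ext (fun i => f (p i)) := by
  intro Q hQ
  obtain ⟨q, hq, hn⟩ := h Q hQ
  refine ⟨q, hq, fun h1 => hn ?_⟩
  have h2 : (1 : K') ∈ Subsemigroup.closure (f '' ((fun q' => (p q)⁻¹ * p q') '' (Q \ {q}))) := by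
    convert h1 using 2
    rw [Set.image_image]
    simp only [map_mul, map_inv]
  obtain ⟨y, hy, hy1⟩ := mem_closure_image f _ h2
  have : y = 1 := hf (by rw [hy1, map_one])
  rwa [← this]

/-- Left translates. -/
theorem Ext.mul_left {K : Type*} [Group K] {p : ι → K} (h : Ext p) (g : K) :
    Ext (fun i => g * p i) := by
  intro Q hQ
  obtain ⟨q, hq, hn⟩ := h Q hQ
  refine ⟨q, hq, ?_⟩
  convert hn using 4
  group

/-- Right translates. -/
theorem Ext.mul_right {K : Type*} [Group K] {p : ι → K} (h : Ext p) (g : K) :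
    Ext (fun i => p i * g) := by
  have h2 : Ext (fun i => (MulAut.conj g).toMonoidHom (p i * g)) := by
    have h3 := h.mul_left g
    convert h3 using 2
    simp [mul_assoc]
  exact Ext.of_comp _ h2

/-- Reindexing along an injective map. -/
theorem Ext.reindex {K : Type*} [Group K] {p : ι → K} (h : Ext p) (j : κ → ι)
    (hj : Function.Injective j) : Ext (fun i => p (j i)) := by
  intro Q hQ
  obtain ⟨q, hq, hn⟩ := h (j '' Q) (hQ.image j)
  obtain ⟨q0, hq0, rfl⟩ := hq
  refine ⟨q0, hq0, ?_⟩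
  convert hn using 3
  ext x
  constructor
  · rintro ⟨i, ⟨hi, hi2⟩, rfl⟩
    refine ⟨j i, ⟨⟨i, hi, rfl⟩, ?_⟩, rfl⟩
    intro h3
    exact hi2 (hj h3)
  · rintro ⟨_, ⟨⟨i, hi, rfl⟩, hi2⟩, rfl⟩
    refine ⟨i, ⟨hi, ?_⟩, rfl⟩
    intro h3
    apply hi2
    rw [Set.mem_singleton_iff] at h3 ⊢
    rw [h3]

/-- Splitting by levels. -/
theorem Ext.of_levels {K : Type*} [Group K] [Finite ι] (χ : K →* Multiplicative ℤ) {p : ι → K}
    (h : ∀ c : ℤ, Ext (fun i : {i : ι // Multiplicative.toAdd (χ (p i)) = c} => p i.1)) :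
    Ext p := by
  intro Q hQ
  obtain ⟨q0, hq0, hmin⟩ := Set.exists_min_image Q (fun i => Multiplicative.toAdd (χ (p i)))
    (Set.toFinite Q) hQ
  set c := Multiplicative.toAdd (χ (p q0)) with hc
  obtain ⟨q1, hq1, hn⟩ := h c {i | i.1 ∈ Q} ⟨⟨q0, rfl⟩, hq0⟩
  obtain ⟨q, hqc⟩ := q1
  refine ⟨q, hq1, fun h1 => hn ?_⟩
  have key : ∀ x ∈ Subsemigroup.closure ((fun q' => (p q)⁻¹ * p q') '' (Q \ {q})),
      0 < Multiplicative.toAdd (χ x) ∨ (Multiplicative.toAdd (χ x) = 0 ∧
        x ∈ Subsemigroup.closure ((fun q' : {i : ι // Multiplicative.toAdd (χ (p i)) = c} =>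
          (p q)⁻¹ * p q'.1) '' ({i | i.1 ∈ Q} \ {⟨q, hqc⟩}))) := by
    intro x hx
    induction hx using Subsemigroup.closure_induction with
    | mem y hy =>
      obtain ⟨i, ⟨hi, hi2⟩, rfl⟩ := hy
      have h3 := hmin i hi
      have h4 : Multiplicative.toAdd (χ ((p q)⁻¹ * p i)) =
          Multiplicative.toAdd (χ (p i)) - c := by
        rw [map_mul, map_inv, toAdd_mul, toAdd_inv, hqc]; ring
      simp only [h4]
      by_cases h5 : Multiplicative.toAdd (χ (p i)) = c
      · right
        refine ⟨by omega, Subsemigroup.subset_closure ⟨⟨i, h5⟩, ⟨hi, ?_⟩, rfl⟩⟩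
        intro h6
        apply hi2
        rw [Set.mem_singleton_iff] at h6 ⊢
        exact congrArg Subtype.val h6
      · left
        have : Multiplicative.toAdd (χ (p i)) ≥ c := h3
        omega
    | mul y z _ _ h3 h4 =>
      rw [map_mul, toAdd_mul]
      rcases h3 with h3 | ⟨h3, h3'⟩ <;> rcases h4 with h4 | ⟨h4, h4'⟩
      · left; omega
      · left; omega
      · left; omega
      · right; exact ⟨by omega, Subsemigroup.mul_mem _ h3' h4'⟩
  rcases key 1 h1 with h3 | ⟨_, h3⟩
  · rw [map_one, toAdd_one] at h3; omega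
  · exact h3

/-- A family indexed by a subsingleton is extremal. -/
theorem Ext.of_subsingleton {K : Type*} [Group K] [Subsingleton ι] (p : ι → K) : Ext p := by
  intro Q hQ
  obtain ⟨q, hq⟩ := hQ
  refine ⟨q, hq, ?_⟩
  have : Q \ {q} = ∅ := by
    ext x
    simp only [Set.mem_sdiff, Set.mem_singleton_iff, Set.mem_empty_iff_false, iff_false, not_and,
      not_not]
    intro _
    exact Subsingleton.elim _ _
  rw [this, Set.image_empty, Subsemigroup.closure_empty]
  exact fun h => h

end OneRel
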