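import Pool.Agent.Helper23.UnitsGen

set_option autoImplicit false

/-!
The final construction.
-/

namespace OneRel

open FreeGroup (invRev)

section Construction

variable {n : ℕ}

/-- embedding of words -/
def emb (u : List (Fin n × Bool)) : List ((Fin n ⊕ Bool) × Bool) :=
  u.map (fun x => (Sum.inl x.1, x.2))

@[simp] theorem emb_nil : emb ([] : List (Fin n × Bool)) = [] := rfl
@[simp] theorem emb_cons (x : Fin n × Bool) (u : List (Fin n × Bool)) :
    emb (x :: u) = (Sum.inl x.1, x.2) :: emb u := rfl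
@[simp] theorem emb_append (u v : List (Fin n × Bool)) : emb (u ++ v) = emb u ++ emb v := by
  simp [emb]

/-- the letter `z` -/
def Z : (Fin n ⊕ Bool) × Bool := (Sum.inr true, true)
/-- the letter `z⁻¹` -/
def Z' : (Fin n ⊕ Bool) × Bool := (Sum.inr true, false)
/-- the letter `t` -/
def T : (Fin n ⊕ Bool) × Bool := (Sum.inr false, true)
/-- the letter `t⁻¹` -/
def T' : (Fin n ⊕ Bool) × Bool := (Sum.inr false, false)

/-- bracketing -/
def br (x : (Fin n ⊕ Bool) × Bool) (u : List (Fin n × Bool)) (y : (Fin n ⊕ Bool) × Bool) :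
    List ((Fin n ⊕ Bool) × Bool) := x :: (emb u ++ [y])

/-- first family -/
def C1 (s : List (Fin n × Bool)) (m : ℕ) : List (List ((Fin n ⊕ Bool) × Bool)) :=
  (List.range m).flatMap fun i => (List.range (s.length - 1)).map fun j =>
    br Z (wpow s i ++ s.take (j + 1)) Z'
/-- second family -/
def C2 (W : List (List (Fin n × Bool))) : List (List ((Fin n ⊕ Bool) × Bool)) :=
  W.flatMap fun v => (List.range (v.length + 1)).map fun k => br T (v.take k) Z'
/-- third family -/
def C3 (W : List (List (Fin n × Bool))) : List (List ((Fin n ⊕ Bool) × Bool)) :=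
  W.map fun v => br T v T'

/-- the relator -/
def theRel (s : List (Fin n × Bool)) (m : ℕ) (W : List (List (Fin n × Bool))) :
    List ((Fin n ⊕ Bool) × Bool) :=
  relw (C1 s m ++ (C2 W ++ C3 W)) (br Z (wpow s m) Z')

theorem theRel_iff {N : Type*} [Monoid N] (hN : IsInvMon N) {f : (Fin n ⊕ Bool) × Bool → N}
    (hf : MI f) (s : List (Fin n × Bool)) (m : ℕ) (W : List (List (Fin n × Bool))) :
    vl f (theRel s m W) = 1 ↔
      (∀ i < m, ∀ j, j + 1 < s.length → hN.RU (vl f (br Z (wpow s i ++ s.take (j + 1)) Z'))) ∧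
      (∀ v ∈ W, ∀ k ≤ v.length, hN.RU (vl f (br T (v.take k) Z'))) ∧
      (∀ v ∈ W, hN.RU (vl f (br T v T'))) ∧ vl f (br Z (wpow s m) Z') = 1 := by
  rw [theRel, relw_iff hN hf]
  constructor
  · rintro ⟨h1, h2⟩
    refine ⟨fun i hi j hj => h1 _ ?_, fun v hv k hk => h1 _ ?_, fun v hv => h1 _ ?_, h2⟩
    · apply List.mem_append_left
      rw [C1, List.mem_flatMap]
      refine ⟨i, List.mem_range.2 hi, ?_⟩
      rw [List.mem_map]
      exact ⟨j, List.mem_range.2 (by omega), rfl⟩
    · apply List.mem_append_right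
      apply List.mem_append_left
      rw [C2, List.mem_flatMap]
      refine ⟨v, hv, ?_⟩
      rw [List.mem_map]
      exact ⟨k, List.mem_range.2 (by omega), rfl⟩
    · apply List.mem_append_right
      apply List.mem_append_right
      rw [C3, List.mem_map]
      exact ⟨v, hv, rfl⟩
  · rintro ⟨h1, h2, h3, h4⟩
    refine ⟨?_, h4⟩
    intro c hc
    rw [List.mem_append, List.mem_append] at hc
    rcases hc with hc | hc | hc
    · rw [C1, List.mem_flatMap] at hc
      obtain ⟨i, hi, hc⟩ := hc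
      rw [List.mem_map] at hc
      obtain ⟨j, hj, rfl⟩ := hc
      rw [List.mem_range] at hi hj
      exact h1 i hi j (by omega)
    · rw [C2, List.mem_flatMap] at hc
      obtain ⟨v, hv, hc⟩ := hc
      rw [List.mem_map] at hc
      obtain ⟨k, hk, rfl⟩ := hc
      rw [List.mem_range] at hk
      exact h2 v hv k (by omega)
    · rw [C3, List.mem_map] at hc
      obtain ⟨v, hv, rfl⟩ := hc
      exact h3 v hv

theorem vl_br {N : Type*} [Monoid N] (f : (Fin n ⊕ Bool) × Bool → N)
    (x y : (Fin n ⊕ Bool) × Bool) (u : List (Fin n × Bool)) :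
    vl f (br x u y) = f x * vl f (emb u) * f y := by
  rw [br, vl_cons, vl_append, vl_cons, vl_nil, mul_one, mul_assoc]

/-- prefixes of a bracketed word -/
theorem br_prefix {x y : (Fin n ⊕ Bool) × Bool} {u : List (Fin n × Bool)}
    {p q : List ((Fin n ⊕ Bool) × Bool)} (h : br x u y = p ++ q) :
    p = [] ∨ (∃ k, p = x :: emb (u.take k)) ∨ p = br x u y := by
  rcases p with _ | ⟨a, p⟩
  · exact Or.inl rfl
  · right
    rw [br, List.cons_append, List.cons.injEq] at h
    obtain ⟨rfl, h⟩ := h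
    rw [List.append_eq_append_iff] at h
    rcases h with ⟨a', rfl, ha⟩ | ⟨a', ha, ha'⟩
    · rcases a' with _ | ⟨b, a'⟩
      · left; exact ⟨u.length, by simp⟩
      · right
        rw [List.cons_append, List.cons.injEq] at ha
        obtain ⟨rfl, ha⟩ := ha
        have : a' = [] := by
          rcases a' with _ | ⟨c, a'⟩
          · rfl
          · simp at ha
        rw [this]; rfl
    · left
      refine ⟨p.length, ?_⟩
      congr 1
      have h1 : p = (emb u).take p.length := by rw [ha]; simp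
      rw [emb, List.map_take]
      exact h1

end Construction

section Rep

/-- partial injection from a bijection onto a subset -/
noncomputable def ofEq {Ω : Type} (p : Ω → Prop) (e : Ω ≃ {y // p y}) : PI Ω :=
  open Classical in
  { toFun := fun x => some (e x).1
    invFun := fun y => if h : p y then some (e.symm ⟨y, h⟩) else none
    inv := by
      intro x y
      constructor
      · intro h
        by_cases h1 : p y
        · rw [dif_pos h1] at h
          have h2 : e.symm ⟨y, h1⟩ = x := Option.some.inj h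
          rw [← h2]
          simp
        · rw [dif_neg h1] at h
          exact absurd h (by simp)
      · intro h
        have h2 : (e x).1 = y := Option.some.inj h
        have h1 : p y := by rw [← h2]; exact (e x).2
        rw [dif_pos h1]
        have h3 : (⟨y, h1⟩ : {y // p y}) = e x := Subtype.ext h2.symm
        rw [h3]
        simp }

theorem ofEq_ap {Ω : Type} (p : Ω → Prop) (e : Ω ≃ {y // p y}) (x : Ω) :
    (ofEq p e).ap x = some (e x).1 := rfl

/-- total permutation as a partial injection -/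
def ofPerm {Ω : Type} (g : Equiv.Perm Ω) : PI Ω := Equiv.toPEquiv g

theorem ofPerm_ap {Ω : Type} (g : Equiv.Perm Ω) (x : Ω) : (ofPerm g).ap x = some (g x) := rfl

theorem brk_ap {Ω : Type} {p1 p2 : Ω → Prop} (e1 : Ω ≃ {y // p1 y}) (e2 : Ω ≃ {y // p2 y})
    (g : Equiv.Perm Ω) (x y : Ω) :
    (ofEq p1 e1 * ofPerm g * (ofEq p2 e2).sy).ap x = some y ↔ (e2 y).1 = g (e1 x).1 := by
  rw [PI.ap_mul, PI.ap_mul, ofEq_ap, Option.bind_some, ofPerm_ap, Option.bind_some, PI.ap_sy,
    ofEq_ap, Option.some.injEq]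

theorem brk_total {Ω : Type} {p1 p2 : Ω → Prop} (e1 : Ω ≃ {y // p1 y}) (e2 : Ω ≃ {y // p2 y})
    (g : Equiv.Perm Ω) (h : ∀ y, p1 y → p2 (g y)) :
    PI.isInvMon.RU (ofEq p1 e1 * ofPerm g * (ofEq p2 e2).sy) := by
  apply PI.isInvMon.ru_of_mul_eq_one
  apply PI.mul_sy_eq_one
  intro x
  have h1 := h _ (e1 x).2
  refine ⟨e2.symm ⟨_, h1⟩, ?_⟩
  rw [brk_ap]
  simp

theorem brk_unit {Ω : Type} {p1 p2 : Ω → Prop} (e1 : Ω ≃ {y // p1 y}) (e2 : Ω ≃ {y // p2 y})
    (g : Equiv.Perm Ω) (h : IsUnit (ofEq p1 e1 * ofPerm g * (ofEq p2 e2).sy)) (y : Ω)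
    (hy : p2 y) : p1 (g⁻¹ y) := by
  obtain ⟨x, hx⟩ := PI.isUnit_sy_total h (e2.symm ⟨y, hy⟩)
  rw [brk_ap] at hx
  have h1 : g⁻¹ y = (e1 x).1 := by
    rw [Equiv.Perm.inv_eq_iff_eq, ← hx]
    simp
  rw [h1]
  exact (e1 x).2

theorem half_unit {Ω : Type} {p1 : Ω → Prop} (e1 : Ω ≃ {y // p1 y})
    (g : Equiv.Perm Ω) (h : IsUnit (ofEq p1 e1 * ofPerm g)) (y : Ω) : p1 (g⁻¹ y) := by
  obtain ⟨x, hx⟩ := PI.isUnit_sy_total h y
  rw [PI.ap_mul, ofEq_ap, Option.bind_some, ofPerm_ap, Option.some.injEq] at hx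
  have h1 : g⁻¹ y = (e1 x).1 := by
    rw [Equiv.Perm.inv_eq_iff_eq, hx]
  rw [h1]
  exact (e1 x).2

variable {G : Type} [Group G]

/-- right multiplication -/
def rm (g : G) : Equiv.Perm (G × ℕ × Fin 3) where
  toFun x := (x.1 * g, x.2)
  invFun x := (x.1 * g⁻¹, x.2)
  left_inv x := by simp
  right_inv x := by simp

theorem rm_inv (g : G) : (rm g)⁻¹ = rm g⁻¹ := by
  ext x <;> simp [rm, Equiv.Perm.inv_def, Equiv.symm]

theorem ofPerm_mul (g h : G) : ofPerm (rm g) * ofPerm (rm h) = ofPerm (rm (g * h)) := by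
  apply PI.ext'
  intro x
  rw [PI.ap_mul, ofPerm_ap, Option.bind_some, ofPerm_ap, ofPerm_ap]
  simp [rm, mul_assoc]

theorem ofPerm_one : ofPerm (rm (1 : G)) = 1 := by
  apply PI.ext'
  intro x
  rw [ofPerm_ap, PI.ap_one]
  simp [rm]

theorem ofPerm_sy (g : G) : (ofPerm (rm g)).sy = ofPerm (rm g⁻¹) := by
  apply PI.ext'
  intro x
  rw [ofPerm_ap, PI.ap_sy, ofPerm_ap]
  simp [rm]

/-- the predicate for the image of `z` -/
def pz (T0 : Submonoid G) (x : G × ℕ × Fin 3) : Prop := x.2.2 = 1 ∨ (x.2.2 = 0 ∧ x.1 ∈ T0)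
/-- the predicate for the image of `t` -/
def pt (x : G × ℕ × Fin 3) : Prop := x.2.2 = 1

theorem exists_ez [Countable G] (T0 : Submonoid G) :
    Nonempty ((G × ℕ × Fin 3) ≃ {y : G × ℕ × Fin 3 // pz T0 y}) := by
  have : Infinite {y : G × ℕ × Fin 3 // pz T0 y} :=
    Infinite.of_injective (fun k : ℕ => (⟨(1, k, 1), Or.inl rfl⟩ :
      {y : G × ℕ × Fin 3 // pz T0 y})) (by
        intro a b h
        have := congrArg (fun y => y.1.2.1) h
        exact this)
  exact nonempty_equiv_of_countable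

theorem exists_et [Countable G] :
    Nonempty ((G × ℕ × Fin 3) ≃ {y : G × ℕ × Fin 3 // pt y}) := by
  have : Infinite {y : G × ℕ × Fin 3 // pt y} :=
    Infinite.of_injective (fun k : ℕ => (⟨(1, k, 1), rfl⟩ :
      {y : G × ℕ × Fin 3 // pt y})) (by
        intro a b h
        have := congrArg (fun y => y.1.2.1) h
        exact this)
  exact nonempty_equiv_of_countable

end Rep

end OneRel
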