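import Pool.Agent.Helper23.Final

set_option autoImplicit false

/-!
Units of the constructed one-relator inverse monoid: generation.
-/

namespace OneRel

open FreeGroup (invRev)

section UnitsRep

variable {n : ℕ} {G : Type} [Group G] [Countable G]

/-- base of the representation -/
noncomputable def repB (eg : Fin n → G) {T0 : Submonoid G}
    (ez : (G × ℕ × Fin 3) ≃ {y : G × ℕ × Fin 3 // pz T0 y})
    (et : (G × ℕ × Fin 3) ≃ {y : G × ℕ × Fin 3 // pt y}) : Fin n ⊕ Bool → PI (G × ℕ × Fin 3)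
  | Sum.inl a => ofPerm (rm (eg a))
  | Sum.inr true => ofEq _ ez
  | Sum.inr false => ofEq _ et

/-- the representation -/
noncomputable def repF (eg : Fin n → G) {T0 : Submonoid G}
    (ez : (G × ℕ × Fin 3) ≃ {y : G × ℕ × Fin 3 // pz T0 y})
    (et : (G × ℕ × Fin 3) ≃ {y : G × ℕ × Fin 3 // pt y}) (x : (Fin n ⊕ Bool) × Bool) :
    PI (G × ℕ × Fin 3) :=
  cond x.2 (repB eg ez et x.1) (repB eg ez et x.1).sy

omit [Countable G] in
theorem repF_mi (eg : Fin n → G) {T0 : Submonoid G}
    (ez : (G × ℕ × Fin 3) ≃ {y : G × ℕ × Fin 3 // pz T0 y})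
    (et : (G × ℕ × Fin 3) ≃ {y : G × ℕ × Fin 3 // pt y}) : MI (repF eg ez et) :=
  fun _ => ⟨PI.mul_sy_mul _, PI.sy_mul_sy _⟩

omit [Countable G] in
theorem repF_emb (eg : Fin n → G) {T0 : Submonoid G}
    (ez : (G × ℕ × Fin 3) ≃ {y : G × ℕ × Fin 3 // pz T0 y})
    (et : (G × ℕ × Fin 3) ≃ {y : G × ℕ × Fin 3 // pt y}) (u : List (Fin n × Bool)) :
    vl (repF eg ez et) (emb u) = ofPerm (rm (ev eg u)) := by
  induction u with
  | nil => rw [emb_nil, vl_nil, ev_nil, ofPerm_one]
  | cons x u ih =>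
    obtain ⟨a, ε⟩ := x
    rw [emb_cons, vl_cons, ih, ev_cons, ← ofPerm_mul]
    congr 1
    cases ε
    · show (ofPerm (rm (eg a))).sy = _
      rw [ofPerm_sy]; rfl
    · rfl

/-- **Generation of units.** -/
theorem units_generated (eg : Fin n → G) (s : List (Fin n × Bool)) (m : ℕ)
    (W : List (List (Fin n × Bool))) (hrel : ev eg (wpow s m) = 1)
    (hNU : ∀ i < m, ∀ j, j + 1 < s.length →
      (ev eg (wpow s i ++ s.take (j + 1)))⁻¹ ∉ Submonoid.closure
        {g | ∃ i < m, ∃ j, j + 1 < s.length ∧ g = ev eg (wpow s i ++ s.take (j + 1))})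
    {u : PM (theRel s m W)} (hu : IsUnit u) :
    u ∈ Submonoid.closure {x | ∃ v ∈ W, x = vl (gen (theRel s m W)) (br T v T')} := by
  set w := theRel s m W with hw
  set T0 := Submonoid.closure
    {g | ∃ i < m, ∃ j, j + 1 < s.length ∧ g = ev eg (wpow s i ++ s.take (j + 1))} with hT0
  obtain ⟨ez⟩ := exists_ez T0
  obtain ⟨et⟩ := exists_et (G := G)
  set F := repF eg ez et with hF
  have hmi : MI F := repF_mi eg ez et
  have hFZ : F Z = ofEq _ ez := rfl
  have hFZ' : F Z' = (ofEq _ ez).sy := rfl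
  have hFT : F T = ofEq _ et := rfl
  have hFT' : F T' = (ofEq _ et).sy := rfl
  have hadm : Adm w (PI (G × ℕ × Fin 3)) F := by
    refine ⟨PI.isInvMon, hmi, ?_⟩
    rw [hw, theRel_iff PI.isInvMon hmi]
    refine ⟨?_, ?_, ?_, ?_⟩
    · intro i hi j hj
      rw [vl_br, repF_emb, hFZ, hFZ']
      apply brk_total
      rintro y (hy | ⟨hy, hy'⟩)
      · exact Or.inl hy
      · exact Or.inr ⟨hy, T0.mul_mem hy' (Submonoid.subset_closure ⟨i, hi, j, hj, rfl⟩)⟩
    · intro v _ k _
      rw [vl_br, repF_emb, hFT, hFZ']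
      apply brk_total
      intro y hy
      exact Or.inl hy
    · intro v _
      rw [vl_br, repF_emb, hFT, hFT']
      apply brk_total
      intro y hy
      exact hy
    · rw [vl_br, repF_emb, hFZ, hFZ', hrel, ofPerm_one, mul_one]
      apply PI.mul_sy_eq_one
      intro x
      exact ⟨_, ofEq_ap _ _ _⟩
  obtain ⟨φ, hφ⟩ := pm_lift w _ F hadm
  have hφv : ∀ u, φ (vl (gen w) u) = vl F u := by
    intro u
    rw [hom_vl]
    simp only [hφ]
  have hN := pm_isInvMon w
  have hmiw := (pm_adm w).mi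
  have hfacts := (theRel_iff hN hmiw s m W).1 (pm_adm w).rel
  obtain ⟨hA1, hA2, hA3, hA4⟩ := hfacts
  set cs := C1 s m ++ (C2 W ++ C3 W) with hcs
  set ρ := br Z (wpow s m) Z' with hρ
  obtain ⟨hR1, hR2⟩ := (relw_iff hN hmiw cs ρ).1 (pm_adm w).rel
  let P : Set (PM w) := {x | ∃ p q, x = vl (gen w) p ∧ ((∃ c ∈ cs, c = p ++ q) ∨ ρ = p ++ q)}
  have hP : ∀ x ∈ P, hN.RU x := by
    rintro x ⟨p, q, rfl, h | h⟩
    · obtain ⟨c, hc, rfl⟩ := h
      have := hR1 _ hc
      rw [vl_append] at this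
      exact this.left hN
    · rw [h, vl_append] at hR2
      exact hN.ru_of_mul_eq_one hR2
  have hpre : ∀ p q, w = p ++ q → vl (gen w) p ∈ Submonoid.closure P := by
    intro p q hpq
    obtain ⟨p', q', h1, h2⟩ := relw_prefix hN hmiw cs ρ (pm_adm w).rel p q hpq
    rw [h1]
    exact Submonoid.subset_closure ⟨p', q', rfl, h2⟩
  have hmem := isUnit_mem hP hpre hu
  refine (Submonoid.closure_le.2 ?_) hmem
  -- each unit generator is `1` or of the required form
  have hhalf : ∀ (x : (Fin n ⊕ Bool) × Bool) (v : List (Fin n × Bool)), x = Z ∨ x = T →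
      ¬ IsUnit (vl (gen w) (x :: emb v)) := by
    intro x v hx hunit
    have h1 := hunit.map φ
    rw [hφv, vl_cons, repF_emb] at h1
    rcases hx with rfl | rfl
    · rw [hFZ] at h1
      have h2 := half_unit ez _ h1 (1, 0, 2)
      rw [rm_inv] at h2
      rcases h2 with h2 | ⟨h2, _⟩
      · exact absurd (show (2 : Fin 3) = 1 from h2) (by decide)
      · exact absurd (show (2 : Fin 3) = 0 from h2) (by decide)
    · rw [hFT] at h1
      have h2 := half_unit et _ h1 (1, 0, 2)
      rw [rm_inv] at h2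
      exact absurd (show (2 : Fin 3) = 1 from h2) (by decide)
  rintro x ⟨⟨p, q, rfl, h⟩, hunit⟩
  rcases h with ⟨c, hc, hcpq⟩ | hpq
  · rw [hcs, List.mem_append, List.mem_append] at hc
    rcases hc with hc | hc | hc
    · rw [C1, List.mem_flatMap] at hc
      obtain ⟨i, hi, hc⟩ := hc
      rw [List.mem_map] at hc
      obtain ⟨j, hj, rfl⟩ := hc
      rw [List.mem_range] at hi hj
      rcases br_prefix hcpq with rfl | ⟨k, rfl⟩ | rfl
      · exact Submonoid.one_mem _
      · exact absurd hunit (hhalf _ _ (Or.inl rfl))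
      · exfalso
        have h1 := hunit.map φ
        rw [hφv, vl_br, repF_emb, hFZ, hFZ'] at h1
        have h2 := brk_unit ez ez _ h1 (1, 0, 0) (Or.inr ⟨rfl, T0.one_mem⟩)
        rw [rm_inv] at h2
        rcases h2 with h2 | ⟨_, h2⟩
        · exact absurd (show (0 : Fin 3) = 1 from h2) (by decide)
        · rw [show (rm (ev eg (wpow s i ++ List.take (j + 1) s))⁻¹ (1, 0, 0)).1 =
            (ev eg (wpow s i ++ List.take (j + 1) s))⁻¹ from one_mul _] at h2
          exact hNU i hi j (by omega) h2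
    · rw [C2, List.mem_flatMap] at hc
      obtain ⟨v, hv, hc⟩ := hc
      rw [List.mem_map] at hc
      obtain ⟨k, hk, rfl⟩ := hc
      rcases br_prefix hcpq with rfl | ⟨k, rfl⟩ | rfl
      · exact Submonoid.one_mem _
      · exact absurd hunit (hhalf _ _ (Or.inr rfl))
      · exfalso
        have h1 := hunit.map φ
        rw [hφv, vl_br, repF_emb, hFT, hFZ'] at h1
        have h2 := brk_unit et ez _ h1 (1, 0, 0) (Or.inr ⟨rfl, T0.one_mem⟩)
        rw [rm_inv] at h2
        exact absurd (show (0 : Fin 3) = 1 from h2) (by decide)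
    · rw [C3, List.mem_map] at hc
      obtain ⟨v, hv, rfl⟩ := hc
      rcases br_prefix hcpq with rfl | ⟨k, rfl⟩ | rfl
      · exact Submonoid.one_mem _
      · exact absurd hunit (hhalf _ _ (Or.inr rfl))
      · exact Submonoid.subset_closure ⟨v, hv, rfl⟩
  · rcases br_prefix hpq with rfl | ⟨k, rfl⟩ | rfl
    · exact Submonoid.one_mem _
    · exact absurd hunit (hhalf _ _ (Or.inl rfl))
    · rw [hR2]; exact Submonoid.one_mem _

end UnitsRep

end OneRel
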