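import Pool.Agent.Helper23.Final2

set_option autoImplicit false

/-!
Relations hold in the group of units; the isomorphism.
-/

namespace OneRel

open FreeGroup (invRev)

theorem wpow_prefix {β : Type*} (s : List (β × Bool)) (m : ℕ) (p q : List (β × Bool))
    (h : wpow s m = p ++ q) : ∃ k j, p = wpow s k ++ s.take j ∧ (j = 0 ∨ j < s.length) := by
  induction m generalizing p q with
  | zero =>
    rw [wpow_zero] at h
    have h1 : p = [] := (List.append_eq_nil_iff.1 h.symm).1
    exact ⟨0, 0, by simp [h1], Or.inl rfl⟩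
  | succ m ih =>
    rw [wpow_succ, List.append_eq_append_iff] at h
    rcases h with ⟨a, rfl, ha⟩ | ⟨a, ha, _⟩
    · obtain ⟨k, j, rfl, hj⟩ := ih a q ha
      exact ⟨k + 1, j, by rw [wpow_succ, List.append_assoc], hj⟩
    · have h1 : p = s.take p.length := by rw [ha]; simp
      rcases lt_or_ge p.length s.length with h2 | h2
      · exact ⟨0, p.length, by rw [wpow_zero, List.nil_append]; exact h1, Or.inr h2⟩
      · refine ⟨1, 0, ?_, Or.inl rfl⟩
        rw [wpow_succ, wpow_zero, List.take_zero, List.append_nil, List.append_nil, h1,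
          List.take_of_length_le h2]

section Rel

variable {n : ℕ}

/-- **Relations.** -/
theorem relations_hold {L : Type*} [Group L] (e : Fin n → L) (s : List (Fin n × Bool)) (m : ℕ)
    (hm : m ≠ 0) (W : List (List (Fin n × Bool))) (hW : W ≠ []) (hs : ev e s = 1)
    (H1 : (1 : L) ∉ Subsemigroup.closure (posSet e s Set.univ)) (hcr : CR s)
    (Ws : List (List (Fin n × Bool))) (hWs : ∀ v ∈ Ws, v ∈ W)
    (hv : FreeGroup.mk Ws.flatten ∈ Subgroup.normalClosure {FreeGroup.mk (wpow s m)}) :
    gen (theRel s m W) T * vl (gen (theRel s m W)) (emb Ws.flatten) =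
      gen (theRel s m W) T := by
  set w := theRel s m W with hw
  have hN := pm_isInvMon w
  have hmiw := (pm_adm w).mi
  set f := gen w with hf
  obtain ⟨hA1, hA2, hA3, hA4⟩ := (theRel_iff hN hmiw s m W).1 (pm_adm w).rel
  let f' : Fin n × Bool → PM w := fun x => f (Sum.inl x.1, x.2)
  have hmi' : MI f' := fun b => hmiw (Sum.inl b)
  have hvl : ∀ u, vl f (emb u) = vl f' u := by
    intro u
    induction u with
    | nil => rfl
    | cons x u ih => rw [emb_cons, vl_cons, vl_cons, ih]
  have hstZ : hN.st (f Z) = f Z' := hmiw.st hN Z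
  have hstZ' : hN.st (f Z') = f Z := hmiw.st hN Z'
  have hstT' : hN.st (f T') = f T := hmiw.st hN T'
  -- absorption of `z⁻¹ z`
  have habs : ∀ p, hN.RU (p * f Z') → p * f Z' * f Z = p := by
    intro p hp
    have := hp.absorb
    rwa [hstZ'] at this
  have hsm : ∀ p, hN.RU (p * f Z') → p * vl f' (wpow s m) = p := by
    intro p hp
    have h1 : f Z * vl f' (wpow s m) * f Z' = 1 := by
      rw [← hvl, ← vl_br]; exact hA4
    have h2 : p * vl f' (wpow s m) * f Z' = p * f Z' := by
      calc p * vl f' (wpow s m) * f Z' = (p * f Z' * f Z) * vl f' (wpow s m) * f Z' := by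
            rw [habs p hp]
        _ = p * f Z' * (f Z * vl f' (wpow s m) * f Z') := by simp only [mul_assoc]
        _ = p * f Z' := by rw [h1, mul_one]
    have h3 : hN.RU (p * vl f' (wpow s m) * f Z') := by rw [h2]; exact hp
    have h4 := habs _ h3
    rw [h2, habs p hp] at h4
    exact h4.symm
  have hsmi : ∀ p, hN.RU (p * f Z') → ∀ i, p * vl f' (wpow s i) =
      p * vl f' (wpow s (i % m)) := by
    intro p hp i
    induction i using Nat.strong_induction_on with
    | _ i ih =>
    rcases lt_or_ge i m with h | h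
    · rw [Nat.mod_eq_of_lt h]
    · obtain ⟨k, rfl⟩ := Nat.exists_eq_add_of_le h
      rw [Nat.add_mod_left, wpow_add, vl_append, ← mul_assoc, hsm p hp]
      exact ih k (by omega)
  let Y : Set (PM w) := {y | ∃ p i, hN.RU (p * f Z') ∧ y = p * vl f' (wpow s i)}
  have hYru : ∀ y ∈ Y, hN.RU y := by
    rintro y ⟨p, i, hp, rfl⟩
    rw [hsmi p hp i]
    have h1 : i % m < m := Nat.mod_lt _ (Nat.pos_of_ne_zero hm)
    have h2 : p * vl f' (wpow s (i % m)) * vl f' (wpow s (m - i % m)) = p := by
      rw [mul_assoc, ← vl_append, ← wpow_add, show i % m + (m - i % m) = m by omega, hsm p hp]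
    have h3 : hN.RU (p * vl f' (wpow s (i % m)) * vl f' (wpow s (m - i % m))) := by
      rw [h2]; exact hp.left hN
    exact h3.left hN
  -- closure of `Y` under prefixes of the cell
  have hYcell : ∀ p, hN.RU (p * f Z') → ∀ i j, (j = 0 ∨ j < s.length) →
      p * vl f' (wpow s i ++ s.take j) ∈ Y := by
    intro p hp i j hj
    rcases Nat.eq_zero_or_pos j with rfl | hj0
    · exact ⟨p, i, hp, by simp⟩
    · have hj' : j < s.length := by omega
      refine ⟨p * vl f' (wpow s i ++ s.take j), 0, ?_, by simp⟩
      have h1 : i % m < m := Nat.mod_lt _ (Nat.pos_of_ne_zero hm)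
      have h2 := hA1 (i % m) h1 (j - 1) (by omega)
      rw [show j - 1 + 1 = j by omega, vl_br, hvl] at h2
      have h3 : p * vl f' (wpow s i ++ s.take j) * f Z' =
          p * f Z' * (f Z * vl f' (wpow s (i % m) ++ s.take j) * f Z') := by
        calc p * vl f' (wpow s i ++ s.take j) * f Z'
            = p * vl f' (wpow s i) * vl f' (s.take j) * f Z' := by
              rw [vl_append]; simp only [mul_assoc]
          _ = p * vl f' (wpow s (i % m)) * vl f' (s.take j) * f Z' := by rw [hsmi p hp i]
          _ = (p * f Z' * f Z) * vl f' (wpow s (i % m)) * vl f' (s.take j) * f Z' := by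
              rw [habs p hp]
          _ = _ := by rw [vl_append]; simp only [mul_assoc]
      rw [h3]
      exact hp.mul hN h2
  let pf := act hN f' hmi' Y hYru
  have hpf : ∀ c, pf (c, false) = (pf (c, true)).sy := fun c => act_il hN f' hmi' Y hYru c true
  have hcell : ∀ y, (vl pf (wpow s m)).ap y = some y := by
    rintro ⟨y, hy⟩
    obtain ⟨p, i, hp, hyp⟩ := hy
    have h1 : ∀ p' q', wpow s m = p' ++ q' → y * vl f' p' ∈ Y := by
      intro p' q' hpq
      obtain ⟨k, j, rfl, hj⟩ := wpow_prefix s m p' q' hpq
      have h2 := hYcell p hp (i + k) j hj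
      rw [wpow_add, List.append_assoc, vl_append, ← mul_assoc, ← hyp] at h2
      exact h2
    rw [act_vl_of_mem hN f' hmi' Y hYru (wpow s m) ⟨y, _⟩ h1]
    congr 1
    apply Subtype.ext
    show y * vl f' (wpow s m) = y
    rw [hyp, mul_assoc, ← vl_append, ← wpow_add, add_comm, wpow_add, vl_append, ← mul_assoc,
      hsm p hp]
  -- the path
  obtain ⟨v0, hv0⟩ := List.exists_mem_of_ne_nil W hW
  have hTZ : hN.RU (f T * f Z') := by
    have := hA2 v0 hv0 0 (Nat.zero_le _)
    rw [List.take_zero, vl_br, emb_nil, vl_nil, mul_one] at this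
    exact this
  have hpath : ∀ (Ws : List (List (Fin n × Bool))), (∀ v ∈ Ws, v ∈ W) → ∀ x, hN.RU x →
      ∀ p' q', Ws.flatten = p' ++ q' → x * f T * vl f' p' ∈ Y := by
    intro Ws
    induction Ws with
    | nil =>
      intro _ x hx p' q' hpq
      have h1 : p' = [] := by
        have : [] = p' ++ q' := hpq
        exact (List.append_eq_nil_iff.1 this.symm).1
      subst h1
      refine ⟨x * f T, 0, ?_, by simp⟩
      rw [mul_assoc]
      exact hx.mul hN hTZ
    | cons v Ws ih =>
      intro hWs x hx p' q' hpq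
      have hv : v ∈ W := hWs v (by simp)
      rw [List.flatten_cons, List.append_eq_append_iff] at hpq
      rcases hpq with ⟨a, rfl, ha⟩ | ⟨a, ha, _⟩
      · have h1 := hA3 v hv
        rw [vl_br, hvl] at h1
        have h2 := h1.absorb
        rw [hstT'] at h2
        have h3 := ih (fun v hv => hWs v (by simp [hv])) (x * (f T * vl f' v * f T'))
          (hx.mul hN h1) a q' ha
        have h4 : x * (f T * vl f' v * f T') * f T = x * (f T * vl f' v) := by
          rw [mul_assoc x, h2]
        rw [h4] at h3
        rw [vl_append]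
        have h5 : x * f T * (vl f' v * vl f' a) = x * (f T * vl f' v) * vl f' a := by
          simp only [mul_assoc]
        rw [h5]; exact h3
      · have h1 : p' = v.take p'.length := by rw [ha]; simp
        have h2 := hA2 v hv p'.length (by rw [ha]; simp)
        rw [← h1, vl_br, hvl] at h2
        refine ⟨x * f T * vl f' p', 0, ?_, by simp⟩
        have h3 : x * f T * vl f' p' * f Z' = x * (f T * vl f' p' * f Z') := by
          simp only [mul_assoc]
        rw [h3]
        exact hx.mul hN h2
  have hT : f T ∈ Y := by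
    have := hpath [] (by simp) 1 hN.ru_one [] [] rfl
    simpa using this
  have h1 := act_vl_of_mem hN f' hmi' Y hYru Ws.flatten ⟨f T, hT⟩ (by
    intro p' q' hpq
    have := hpath Ws hWs 1 hN.ru_one p' q' hpq
    rwa [one_mul] at this)
  have h2 := close e s m hm hs H1 hcr pf hpf hcell Ws.flatten hv h1
  have h3 := congrArg Subtype.val h2
  rw [hvl]
  exact h3

end Rel

end OneRel
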