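import Pool.Agent.Helper23.Final3

set_option autoImplicit false

/-!
Root extraction and the main theorem.
-/

namespace OneRel

open FreeGroup (invRev)

section Root

variable {β : Type*}

/-- commuting words have a common root -/
theorem common_root (n : ℕ) : ∀ x y : List (β × Bool), x.length + y.length ≤ n →
    x ++ y = y ++ x → ∃ z a b, x = wpow z a ∧ y = wpow z b := by
  induction n with
  | zero =>
    intro x y h _
    have hx : x = [] := List.length_eq_zero_iff.1 (by omega)
    have hy : y = [] := List.length_eq_zero_iff.1 (by omega)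
    exact ⟨[], 0, 0, by simp [hx], by simp [hy]⟩
  | succ n ih =>
    intro x y h hxy
    rcases eq_or_ne x [] with rfl | hx
    · exact ⟨y, 0, 1, rfl, by rw [wpow_succ, wpow_zero, List.append_nil]⟩
    rcases eq_or_ne y [] with rfl | hy
    · exact ⟨x, 1, 0, by rw [wpow_succ, wpow_zero, List.append_nil], rfl⟩
    have hx' := List.length_pos_iff.2 hx
    have hy' := List.length_pos_iff.2 hy
    rw [List.append_eq_append_iff] at hxy
    rcases hxy with ⟨a, rfl, ha⟩ | ⟨a, rfl, ha⟩
    · -- y = x ++ a
      rw [List.length_append] at h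
      obtain ⟨z, i, j, h1, h2⟩ := ih x a (by omega) ha
      exact ⟨z, i, i + j, h1, by rw [wpow_add, ← h1, ← h2]⟩
    · rw [List.length_append] at h
      obtain ⟨z, i, j, h1, h2⟩ := ih a y (by omega) ha.symm
      exact ⟨z, j + i, j, by rw [wpow_add, ← h1, ← h2], h2⟩

theorem wpow_wpow (s : List (β × Bool)) (a m : ℕ) : wpow (wpow s a) m = wpow s (a * m) := by
  induction m with
  | zero => simp
  | succ m ih => rw [wpow_succ, ih, ← wpow_add, Nat.mul_succ, add_comm]

theorem length_wpow (s : List (β × Bool)) (m : ℕ) : (wpow s m).length = m * s.length := by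
  induction m with
  | zero => simp
  | succ m ih => rw [wpow_succ, List.length_append, ih]; ring

/-- primitive root of a cyclically reduced word -/
theorem exists_root (n : ℕ) : ∀ c : List (β × Bool), c.length ≤ n → c ≠ [] → CR c →
    ∃ s m, m ≠ 0 ∧ c = wpow s m ∧ s ≠ [] ∧ CR s ∧ Prim s := by
  induction n with
  | zero => intro c h hc; exact absurd (List.length_eq_zero_iff.1 (by omega)) hc
  | succ n ih =>
    intro c h hc hcr
    by_cases hp : Prim c
    · exact ⟨c, 1, one_ne_zero, by rw [wpow_succ, wpow_zero, List.append_nil], hc, hcr, hp⟩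
    · rw [Prim] at hp
      push Not at hp
      obtain ⟨k, hk, hk', heq⟩ := hp
      rw [List.rotate_eq_drop_append_take hk'.le] at heq
      obtain ⟨x, y, hx, hy, hxy⟩ : ∃ x y, x = c.take k ∧ y = c.drop k ∧ x ++ y = c :=
        ⟨_, _, rfl, rfl, List.take_append_drop _ _⟩
      rw [← hx, ← hy] at heq
      have hxl : x.length = k := by rw [hx, List.length_take]; omega
      have hyl : y.length = c.length - k := by rw [hy, List.length_drop]
      obtain ⟨z, a, b, h1, h2⟩ := common_root _ x y le_rfl (by rw [hxy, heq])
      have hcz : c = wpow z (a + b) := by rw [← hxy, h1, h2, wpow_add]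
      have ha : a ≠ 0 := by
        rintro rfl
        rw [h1, wpow_zero, List.length_nil] at hxl; omega
      have hb : b ≠ 0 := by
        rintro rfl
        rw [h2, wpow_zero, List.length_nil] at hyl; omega
      have hz : z ≠ [] := by
        rintro rfl
        have := length_wpow ([] : List (β × Bool)) a
        rw [← h1, hxl, List.length_nil, mul_zero] at this
        omega
      have hzl := List.length_pos_iff.2 hz
      have hlen : c.length = (a + b) * z.length := by rw [← length_wpow, ← hcz]
      have hlt : z.length ≤ n := by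
        have h3 : z.length + z.length ≤ (a + b) * z.length := by
          have : 2 ≤ a + b := by omega
          nlinarith
        omega
      have hcrz : CR z := by
        have h3 : FreeGroup.IsReduced c := hcr.isReduced
        refine redSub h3 ⟨[], wpow z (a + b - 2), ?_⟩
        rw [List.nil_append, hcz, List.append_assoc, ← wpow_succ, ← wpow_succ]
        congr 1
        omega
      obtain ⟨s, m, hm, h4, h5, h6, h7⟩ := ih z hlt hz hcrz
      refine ⟨s, m * (a + b), ?_, by rw [hcz, h4, wpow_wpow], h5, h6, h7⟩
      exact Nat.mul_ne_zero hm (by omega)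

theorem mk_wpow (s : List (β × Bool)) (m : ℕ) :
    FreeGroup.mk (wpow s m) = FreeGroup.mk s ^ m := by
  induction m with
  | zero => rw [wpow_zero, pow_zero, FreeGroup.one_eq_mk]
  | succ m ih => rw [wpow_succ, ← FreeGroup.mul_mk, ih, pow_succ']

theorem normalClosure_conj {G : Type*} [Group G] (g x : G) :
    Subgroup.normalClosure {g * x * g⁻¹} = Subgroup.normalClosure {x} := by
  have key : ∀ g x : G, Subgroup.normalClosure {g * x * g⁻¹} ≤ Subgroup.normalClosure {x} := by
    intro g x
    apply Subgroup.normalClosure_le_normal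
    rw [Set.singleton_subset_iff]
    exact Subgroup.normalClosure_normal.conj_mem _
      (Subgroup.subset_normalClosure (Set.mem_singleton _)) g
  refine le_antisymm (key g x) ?_
  have := key g⁻¹ (g * x * g⁻¹)
  have h : g⁻¹ * (g * x * g⁻¹) * g⁻¹⁻¹ = x := by group
  rwa [h] at this

/-- the data extracted from a relator -/
theorem exists_data {n : ℕ} (r : FreeGroup (Fin n)) :
    ∃ (s : List (Fin n × Bool)) (m : ℕ) (L : Type) (_ : Group L) (e : Fin n → L), m ≠ 0 ∧
      ev e s = 1 ∧ (1 : L) ∉ Subsemigroup.closure (posSet e s Set.univ) ∧ CR s ∧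
      Subgroup.normalClosure {r} = Subgroup.normalClosure {FreeGroup.mk (wpow s m)} := by
  by_cases hr : r = 1
  · subst hr
    refine ⟨[], 1, PUnit, inferInstance, fun _ => 1, one_ne_zero, rfl, ?_, ?_, ?_⟩
    · have : posSet (fun _ => (1 : PUnit)) ([] : List (Fin n × Bool)) Set.univ = ∅ := by
        ext g
        simp only [posSet, Set.mem_ofPred_eq, Set.mem_empty_iff_false, iff_false]
        rintro ⟨w1, w2, h, h1, _⟩
        exact h1 (List.append_eq_nil_iff.1 h.symm).1
      rw [this, Subsemigroup.closure_empty]
      exact fun h => h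
    · exact FreeGroup.IsReduced.nil
    · rw [wpow_succ, wpow_zero, List.append_nil, ← FreeGroup.one_eq_mk]
  · set c := FreeGroup.reduceCyclically r.toWord with hc
    have h1 := FreeGroup.reduceCyclically.conj_conjugator_reduceCyclically r.toWord
    rw [← hc] at h1
    set g := FreeGroup.reduceCyclically.conjugator r.toWord with hg
    have hr' : r = FreeGroup.mk g * FreeGroup.mk c * (FreeGroup.mk g)⁻¹ := by
      rw [FreeGroup.inv_mk, FreeGroup.mul_mk, FreeGroup.mul_mk, h1, FreeGroup.mk_toWord]
    have hc0 : c ≠ [] := by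
      intro h
      rw [h, ← FreeGroup.one_eq_mk, mul_one, mul_inv_cancel] at hr'
      exact hr hr'
    have hcr : CR c := cr_of_isCyclicallyReduced
      (FreeGroup.reduceCyclically.isCyclicallyReduced FreeGroup.isReduced_toWord)
    obtain ⟨s, m, hm, h2, h3, h4, h5⟩ := exists_root _ c le_rfl hc0 hcr
    obtain ⟨L, hL, e, he, hE⟩ := orderly_of_prim _ (Fin n) s le_rfl h3 h4 h5
    obtain ⟨x, hx⟩ := List.exists_mem_of_ne_nil s h3
    obtain ⟨k, -, hk⟩ := ExtW.exists_rotate he hE Set.univ ⟨x, hx, Set.mem_univ _⟩
    refine ⟨s.rotate k, m, L, hL, e, hm, ev_rotate e he k, hk, h4.rotate k, ?_⟩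
    rw [hr', normalClosure_conj, h2, mk_wpow, mk_wpow]
    rw [List.rotate_eq_drop_append_take_mod]
    conv_lhs => rw [← List.take_append_drop (k % s.length) s]
    generalize s.take (k % s.length) = a
    generalize s.drop (k % s.length) = b
    have h6 : FreeGroup.mk (a ++ b) ^ m = FreeGroup.mk a * FreeGroup.mk (b ++ a) ^ m *
        (FreeGroup.mk a)⁻¹ := by
      rw [← conj_pow]
      congr 1
      rw [← FreeGroup.mul_mk, ← FreeGroup.mul_mk]
      group
    rw [h6, normalClosure_conj]

end Root

theorem toGroup_ev {n : ℕ} (r : FreeGroup (Fin n)) (u : List (Fin n × Bool)) :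
    ev (fun c => (PresentedGroup.of c : PresentedGroup {r})) u = 1 ↔
      FreeGroup.mk u ∈ Subgroup.normalClosure {r} := by
  rw [ev_presented, PresentedGroup.mk_eq_one_iff]

/-- **Main theorem.** -/
theorem main_theorem (n : ℕ) (r : FreeGroup (Fin n))
    (H : Subgroup (PresentedGroup ({r} : Set (FreeGroup (Fin n))))) (hH : H.FG) :
    ∃ (w : List ((Fin n ⊕ Bool) × Bool)), Nonempty (H ≃* (PM w)ˣ) := by
  obtain ⟨s, m, L, _, e, hm, hs, H1, hcr, hncl⟩ := exists_data r
  let G := PresentedGroup ({r} : Set (FreeGroup (Fin n)))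
  let eg : Fin n → G := fun c => PresentedGroup.of c
  have hG : Countable G := by
    have h1 : Countable (FreeGroup (Fin n)) := FreeGroup.toWord_injective.countable
    exact (PresentedGroup.mk_surjective ({r} : Set (FreeGroup (Fin n)))).countable
  have hev1 : ∀ u, ev eg u = 1 ↔ FreeGroup.mk u ∈ Subgroup.normalClosure {r} :=
    fun u => toGroup_ev r u
  -- words for the generators
  obtain ⟨S, hS⟩ := hH
  have hword : ∀ g : G, ∃ v, ev eg v = g := by
    intro g
    obtain ⟨x, rfl⟩ := PresentedGroup.mk_surjective _ g
    obtain ⟨v, rfl⟩ : ∃ v, x = FreeGroup.mk v := ⟨_, FreeGroup.mk_toWord.symm⟩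
    exact ⟨v, ev_presented _ _⟩
  choose wd hwd using hword
  let W : List (List (Fin n × Bool)) :=
    [] :: (S.toList.map wd ++ S.toList.map (fun g => invRev (wd g)))
  have hW0 : W ≠ [] := by simp [W]
  have hWinv : ∀ v ∈ W, invRev v ∈ W := by
    intro v hv
    rcases List.mem_cons.1 hv with rfl | hv
    · exact List.mem_cons.2 (Or.inl rfl)
    · rcases List.mem_append.1 hv with hv | hv
      · obtain ⟨g, hg, rfl⟩ := List.mem_map.1 hv
        exact List.mem_cons_of_mem _ (List.mem_append_right _ (List.mem_map.2 ⟨g, hg, rfl⟩))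
      · obtain ⟨g, hg, rfl⟩ := List.mem_map.1 hv
        rw [FreeGroup.invRev_invRev]
        exact List.mem_cons_of_mem _ (List.mem_append_left _ (List.mem_map.2 ⟨g, hg, rfl⟩))
  have hWH : ∀ v ∈ W, ev eg v ∈ H := by
    intro v hv
    have h1 : ∀ g ∈ S, g ∈ H := fun g hg => by rw [← hS]; exact Subgroup.subset_closure hg
    rcases List.mem_cons.1 hv with rfl | hv
    · exact H.one_mem
    · rcases List.mem_append.1 hv with hv | hv
      · obtain ⟨g, hg, rfl⟩ := List.mem_map.1 hv
        rw [hwd]; exact h1 g (Finset.mem_toList.1 hg)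
      · obtain ⟨g, hg, rfl⟩ := List.mem_map.1 hv
        rw [ev_invRev, hwd]; exact H.inv_mem (h1 g (Finset.mem_toList.1 hg))
  set w := theRel s m W with hw
  have hN := pm_isInvMon w
  have hmiw := (pm_adm w).mi
  obtain ⟨hA1, hA2, hA3, hA4⟩ := (theRel_iff hN hmiw s m W).1 (pm_adm w).rel
  have hrel : ev eg (wpow s m) = 1 := by
    rw [hev1, hncl]
    exact Subgroup.subset_normalClosure (Set.mem_singleton _)
  -- the map to `L`
  have hlift : ∀ r' ∈ ({r} : Set (FreeGroup (Fin n))), FreeGroup.lift e r' = 1 := by
    intro r' hr'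
    rw [Set.mem_singleton_iff] at hr'
    subst hr'
    have h1 : r' ∈ Subgroup.normalClosure {FreeGroup.mk (wpow s m)} := by
      rw [← hncl]; exact Subgroup.subset_normalClosure (Set.mem_singleton _)
    have h2 : Subgroup.normalClosure {FreeGroup.mk (wpow s m)} ≤ (FreeGroup.lift e).ker := by
      apply Subgroup.normalClosure_le_normal
      rw [Set.singleton_subset_iff]
      show FreeGroup.lift e _ = 1
      rw [lift_mk', ev_wpow, hs, one_pow]
    exact h2 h1
  let FL : G →* L := PresentedGroup.toGroup hlift
  have hFL : ∀ u, FL (ev eg u) = ev e u := by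
    intro u
    rw [← ev_comp]
    have : (fun c => FL (eg c)) = e := by
      funext c
      exact PresentedGroup.toGroup.of hlift
    rw [this]
  have hval : ∀ i j, j + 1 < s.length → ev e (wpow s i ++ s.take (j + 1)) ∈
      posSet e s Set.univ := by
    intro i j hj
    rw [ev_append, ev_wpow, hs, one_pow, one_mul]
    refine ⟨s.take (j + 1), s.drop (j + 1), (List.take_append_drop _ _).symm, ?_, ?_, ?_, rfl⟩
    · intro h
      have := congrArg List.length h
      rw [List.length_take, List.length_nil] at this
      omega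
    · intro h
      have := congrArg List.length h
      rw [List.length_drop, List.length_nil] at this
      omega
    · right
      have h1 : s.drop (j + 1) ≠ [] := by
        intro h
        have := congrArg List.length h
        rw [List.length_drop, List.length_nil] at this
        omega
      exact ⟨_, List.head?_eq_some_head h1, Set.mem_univ _⟩
  have hNU : ∀ i < m, ∀ j, j + 1 < s.length →
      (ev eg (wpow s i ++ s.take (j + 1)))⁻¹ ∉ Submonoid.closure
        {g | ∃ i < m, ∃ j, j + 1 < s.length ∧ g = ev eg (wpow s i ++ s.take (j + 1))} := by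
    intro i _ j hj hmem
    have key : ∀ g ∈ Submonoid.closure
        {g | ∃ i < m, ∃ j, j + 1 < s.length ∧ g = ev eg (wpow s i ++ s.take (j + 1))},
        FL g = 1 ∨ FL g ∈ Subsemigroup.closure (posSet e s Set.univ) := by
      intro g hg
      induction hg using Submonoid.closure_induction with
      | mem x hx =>
        obtain ⟨i, _, j, hj, rfl⟩ := hx
        right
        rw [hFL]
        exact Subsemigroup.subset_closure (hval i j hj)
      | one => left; exact map_one FL
      | mul x y _ _ h1 h2 =>
        rw [map_mul]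
        rcases h1 with h1 | h1 <;> rcases h2 with h2 | h2
        · left; rw [h1, h2, one_mul]
        · right; rw [h1, one_mul]; exact h2
        · right; rw [h2, mul_one]; exact h1
        · right; exact Subsemigroup.mul_mem _ h1 h2
    have h1 : FL (ev eg (wpow s i ++ s.take (j + 1))) ∈
        Subsemigroup.closure (posSet e s Set.univ) := by
      rw [hFL]
      exact Subsemigroup.subset_closure (hval i j hj)
    rcases key _ hmem with h2 | h2
    · rw [map_inv, inv_eq_one] at h2
      rw [h2] at h1
      exact H1 h1
    · rw [map_inv] at h2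
      have := Subsemigroup.mul_mem _ h1 h2
      rw [mul_inv_cancel] at this
      exact H1 this
  -- shape of the units
  have hstT' : hN.st (gen w T') = gen w T := hmiw.st hN T'
  have hshape : ∀ u : (PM w)ˣ, ∃ Ws : List (List (Fin n × Bool)), (∀ v ∈ Ws, v ∈ W) ∧
      (u : PM w) = gen w T * vl (gen w) (emb Ws.flatten) * gen w T' := by
    intro u
    have h1 := units_generated eg s m W hrel hNU u.isUnit
    have key : ∀ x ∈ Submonoid.closure {x | ∃ v ∈ W, x = vl (gen w) (br T v T')},
        hN.RU x ∧ ∃ Ws : List (List (Fin n × Bool)), (∀ v ∈ Ws, v ∈ W) ∧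
          x = gen w T * vl (gen w) (emb Ws.flatten) * gen w T' := by
      intro x hx
      induction hx using Submonoid.closure_induction with
      | mem x hx =>
        obtain ⟨v, hv, rfl⟩ := hx
        refine ⟨hA3 v hv, [v], by simpa using hv, ?_⟩
        rw [vl_br, List.flatten_cons, List.flatten_nil, List.append_nil]
      | one =>
        refine ⟨hN.ru_one, [], by simp, ?_⟩
        have h2 := hA3 [] (List.mem_cons.2 (Or.inl rfl))
        rw [vl_br, emb_nil, vl_nil, mul_one] at h2
        rw [List.flatten_nil, emb_nil, vl_nil, mul_one]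
        have h3 := h2.left hN
        have h4 : hN.st (gen w T) = gen w T' := hmiw.st hN T
        rw [← h4]
        exact h3.symm
      | mul x y _ _ h1 h2 =>
        obtain ⟨h3, Ws1, h4, h5⟩ := h1
        obtain ⟨h6, Ws2, h7, h8⟩ := h2
        refine ⟨h3.mul hN h6, Ws1 ++ Ws2, ?_, ?_⟩
        · intro v hv
          rcases List.mem_append.1 hv with hv | hv
          · exact h4 v hv
          · exact h7 v hv
        · rw [h5] at h3
          have h9 := h3.absorb
          rw [hstT'] at h9
          rw [h5, h8, List.flatten_append, emb_append, vl_append]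
          calc gen w T * vl (gen w) (emb Ws1.flatten) * gen w T' *
                (gen w T * vl (gen w) (emb Ws2.flatten) * gen w T')
              = (gen w T * vl (gen w) (emb Ws1.flatten) * gen w T' * gen w T) *
                vl (gen w) (emb Ws2.flatten) * gen w T' := by simp only [mul_assoc]
            _ = _ := by rw [h9]; simp only [mul_assoc]
    exact (key _ h1).2
  -- the homomorphism to `G`
  let fG : (Fin n ⊕ Bool) × Bool → G := fun x => Sum.elim (fun a => lv eg (a, x.2)) (fun _ => 1) x.1
  have hfG : ∀ u, vl fG (emb u) = ev eg u := by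
    intro u
    induction u with
    | nil => rfl
    | cons x u ih => rw [emb_cons, vl_cons, ih, ev_cons]; rfl
  have hmiG : MI fG := by
    rintro (a | b)
    · constructor
      · show eg a * (eg a)⁻¹ * eg a = eg a
        simp
      · show (eg a)⁻¹ * eg a * (eg a)⁻¹ = (eg a)⁻¹
        simp
    · constructor <;> exact mul_one _
  have hadG : Adm w G fG := by
    refine ⟨isInvMon_group G, hmiG, ?_⟩
    have hRU : ∀ x : G, (isInvMon_group G).RU x := fun x =>
      (isInvMon_group G).ru_of_mul_eq_one (mul_inv_cancel x)
    rw [hw, theRel_iff (isInvMon_group G) hmiG]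
    refine ⟨fun _ _ _ _ => hRU _, fun _ _ _ _ => hRU _, fun _ _ => hRU _, ?_⟩
    rw [vl_br, hfG, hrel]
    exact mul_one _
  obtain ⟨Θ, hΘ⟩ := pm_lift w G fG hadG
  have hΘv : ∀ u, Θ (vl (gen w) (emb u)) = ev eg u := by
    intro u
    rw [hom_vl]
    simp only [hΘ]
    exact hfG u
  have hΘT : Θ (gen w T) = 1 := hΘ T
  have hΘT' : Θ (gen w T') = 1 := hΘ T'
  let Ψ : (PM w)ˣ →* G := Θ.comp (Units.coeHom (PM w))
  have hΨ : ∀ (u : (PM w)ˣ) (v : List (Fin n × Bool)),
      (u : PM w) = gen w T * vl (gen w) (emb v) * gen w T' → Ψ u = ev eg v := by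
    intro u v hu
    show Θ (u : PM w) = _
    rw [hu, map_mul, map_mul, hΘT, hΘT', hΘv, one_mul, mul_one]
  have hTT' : gen w T * gen w T' = 1 := by
    have h2 := hA3 [] (List.mem_cons.2 (Or.inl rfl))
    rw [vl_br, emb_nil, vl_nil, mul_one] at h2
    have h3 := h2.left hN
    have h4 : hN.st (gen w T) = gen w T' := hmiw.st hN T
    rw [← h4]
    exact h3
  have hinj : Function.Injective Ψ := by
    rw [injective_iff_map_eq_one]
    intro u hu
    obtain ⟨Ws, h1, h2⟩ := hshape u
    rw [hΨ u _ h2, hev1, hncl] at hu
    have h3 := relations_hold e s m hm W hW0 hs H1 hcr Ws h1 hu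
    apply Units.ext
    rw [h2, h3, hTT', Units.val_one]
  have hrange : Ψ.range = H := by
    apply le_antisymm
    · rintro _ ⟨u, rfl⟩
      obtain ⟨Ws, h1, h2⟩ := hshape u
      rw [hΨ u _ h2]
      clear h2
      induction Ws with
      | nil => exact H.one_mem
      | cons v Ws ih =>
        rw [List.flatten_cons, ev_append]
        exact H.mul_mem (hWH v (h1 v (by simp))) (ih (fun v hv => h1 v (by simp [hv])))
    · rw [← hS, Subgroup.closure_le]
      intro g hg
      have hv : wd g ∈ W := List.mem_cons_of_mem _
        (List.mem_append_left _ (List.mem_map.2 ⟨g, Finset.mem_toList.2 hg, rfl⟩))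
      have hprod : ∀ v ∈ W, vl (gen w) (br T v T') * vl (gen w) (br T (invRev v) T') = 1 := by
        intro v hv
        have h1 := hA3 v hv
        rw [← show hN.st (vl (gen w) (br T v T')) = vl (gen w) (br T (invRev v) T') from ?_]
        · exact h1
        · rw [hmiw.st_vl hN]
          congr 1
          rw [br, br, invRev_cons, FreeGroup.invRev_append]
          show [il T'] ++ invRev (emb v) ++ [il T] = _
          have h5 : invRev (emb v) = emb (invRev v) := by
            simp [invRev, emb, List.map_reverse, Function.comp_def]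
          rw [h5]
          rfl
      refine ⟨⟨vl (gen w) (br T (wd g) T'), vl (gen w) (br T (invRev (wd g)) T'),
        hprod _ hv, ?_⟩, ?_⟩
      · have := hprod _ (hWinv _ hv)
        rwa [FreeGroup.invRev_invRev] at this
      · rw [hΨ _ (wd g) (vl_br _ _ _ _), hwd]
  refine ⟨w, ⟨?_⟩⟩
  have e1 : (PM w)ˣ ≃* Ψ.range := MonoidHom.ofInjective hinj
  rw [hrange] at e1
  exact e1.symm

end OneRel
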