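import Pool.Agent.Helper23.Voltage

set_option autoImplicit false

/-!
The Freiheitssatz, from extremality of the positions of the relator.
-/

namespace OneRel

open Set FreeGroup

section CR

variable {β : Type*}

/-- subwords of reduced words are reduced -/
theorem redSub {u v : List (β × Bool)} (h : FreeGroup.IsReduced v) (h' : u <:+: v) :
    FreeGroup.IsReduced u := by
  obtain ⟨a, b, rfl⟩ := h'
  rw [FreeGroup.IsReduced, List.isChain_append] at h
  have h1 := h.1
  rw [List.isChain_append] at h1
  exact h1.2.1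

/-- cyclically reduced -/
def CR (s : List (β × Bool)) : Prop := FreeGroup.IsReduced (s ++ s)

theorem CR.isReduced {s : List (β × Bool)} (h : CR s) : FreeGroup.IsReduced s :=
  redSub h ⟨[], s, by simp⟩

theorem CR.isCyclicallyReduced {s : List (β × Bool)} (h : CR s) : FreeGroup.IsCyclicallyReduced s := by
  refine ⟨h.isReduced, fun a ha b hb hab => ?_⟩
  rw [CR, FreeGroup.IsReduced, List.isChain_append] at h
  exact h.2.2 a ha b hb hab

theorem cr_of_isCyclicallyReduced {s : List (β × Bool)} (h : FreeGroup.IsCyclicallyReduced s) : CR s := by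
  rw [CR, FreeGroup.IsReduced, List.isChain_append]
  exact ⟨h.1, h.1, h.2⟩

theorem CR.rotate {s : List (β × Bool)} (h : CR s) (n : ℕ) : CR (s.rotate n) := by
  have h3 : FreeGroup.IsReduced (s ++ s ++ s) := by
    have := (h.isCyclicallyReduced.flatten_replicate 3).isReduced
    simpa [List.replicate_succ] using this
  rw [CR]
  refine redSub h3 ?_
  rw [List.rotate_eq_drop_append_take_mod]
  refine ⟨s.take (n % s.length), s.drop (n % s.length), ?_⟩
  obtain ⟨t, d, ht, hd, h⟩ : ∃ t d, t = s.take (n % s.length) ∧ d = s.drop (n % s.length) ∧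
    t ++ d = s := ⟨_, _, rfl, rfl, List.take_append_drop _ _⟩
  rw [← ht, ← hd, ← h]
  simp only [List.append_assoc]

theorem isReduced_invRev {s : List (β × Bool)} (h : FreeGroup.IsReduced s) : FreeGroup.IsReduced (invRev s) := by
  rw [FreeGroup.IsReduced] at *
  rw [invRev, List.isChain_reverse, List.isChain_map]
  refine h.imp ?_
  intro a b hab h1
  have := hab h1.symm
  simp [this]

theorem CR.inv {s : List (β × Bool)} (h : CR s) : CR (invRev s) := by
  rw [CR] at *
  have := isReduced_invRev h
  rwa [invRev_append] at this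

theorem CR.last_ne {x0 : β × Bool} {w : List (β × Bool)} (h : CR (x0 :: w)) :
    ∀ y ∈ (x0 :: w).getLast?, y ≠ il x0 := by
  intro y hy h1
  have := h.isCyclicallyReduced.2 y hy x0 (by simp) (by rw [h1]; rfl)
  rw [h1] at this
  simp [il] at this

end CR

section Rot

variable {β : Type*} {K : Type*} [Group K]

theorem ev_invRev (e : β → K) (w : List (β × Bool)) : ev e (invRev w) = (ev e w)⁻¹ := by
  rw [← lift_mk', ← lift_mk', ← inv_mk, _root_.map_inv]

theorem ev_rotate (e : β → K) {s : List (β × Bool)} (hs : ev e s = 1) (n : ℕ) :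
    ev e (s.rotate n) = 1 := by
  rw [List.rotate_eq_drop_append_take_mod, ev_append]
  rw [← List.take_append_drop (n % s.length) s, ev_append] at hs
  rw [eq_inv_of_mul_eq_one_right hs]
  simp

theorem ev_take_mod (e : β → K) {s : List (β × Bool)} (hs : ev e s = 1) (n : ℕ)
    (hn : n ≤ 2 * s.length) (hs0 : s ≠ []) :
    ev e ((s ++ s).take n) = ev e (s.take (n % s.length)) := by
  have hl : 0 < s.length := List.length_pos_iff.2 hs0
  rcases lt_or_ge n s.length with h | h
  · rw [Nat.mod_eq_of_lt h, List.take_append_of_le_length h.le]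
  · obtain ⟨k, rfl⟩ := Nat.exists_eq_add_of_le h
    rw [List.take_length_add_append, ev_append, hs, one_mul, Nat.add_mod_left]
    rcases lt_or_eq_of_le (show k ≤ s.length by omega) with h1 | h1
    · rw [Nat.mod_eq_of_lt h1]
    · rw [h1, Nat.mod_self, List.take_length, hs]; simp

theorem ev_take_rotate (e : β → K) {s : List (β × Bool)} (hs : ev e s = 1) (q k : ℕ)
    (hq : q < s.length) (hk : k ≤ s.length) :
    ev e ((s.rotate q).take k) =
      (ev e (s.take q))⁻¹ * ev e (s.take ((q + k) % s.length)) := by
  have hs0 : s ≠ [] := by rintro rfl; simp at hq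
  rw [← ev_take_mod e hs (q + k) (by omega) hs0]
  rw [eq_inv_mul_iff_mul_eq, List.rotate_eq_drop_append_take hq.le, ← ev_append]
  congr 1
  obtain ⟨t, d, ht, hd, h⟩ : ∃ t d, t = s.take q ∧ d = s.drop q ∧
    t ++ d = s := ⟨_, _, rfl, rfl, List.take_append_drop _ _⟩
  have h2 : t.length = q := by rw [ht, List.length_take]; omega
  have h3 : t.length + d.length = s.length := by rw [← List.length_append, h]
  rw [← ht, ← hd, ← h]
  have h4 : (t ++ d) ++ (t ++ d) = t ++ ((d ++ t) ++ d) := by simp only [List.append_assoc]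
  rw [h4, ← h2, List.take_length_add_append, List.take_append_of_le_length (l₁ := d ++ t)]
  rw [List.length_append]; omega

/-- The family of positions of a relator. -/
def ExtW (e : β → K) (s : List (β × Bool)) : Prop :=
  Ext (fun i : Fin s.length => ev e (s.take i))

theorem ExtW.rotate {e : β → K} {s : List (β × Bool)} (hs : ev e s = 1) (h : ExtW e s) (n : ℕ) :
    ExtW e (s.rotate n) := by
  rcases eq_or_ne s [] with rfl | hs0
  · simpa using h
  have hl : 0 < s.length := List.length_pos_iff.2 hs0
  set q := n % s.length with hq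
  have hq' : q < s.length := Nat.mod_lt _ hl
  have h1 : s.rotate n = s.rotate q := by rw [hq, List.rotate_mod]
  rw [h1]
  have h2 := (h.reindex (fun i : Fin (s.rotate q).length =>
    (⟨(q + i) % s.length, Nat.mod_lt _ hl⟩ : Fin s.length)) (by
      intro a b hab
      have ha : (a : ℕ) < s.length := by have := a.2; simpa using this
      have hb : (b : ℕ) < s.length := by have := b.2; simpa using this
      have h3 : (q + a) % s.length = (q + b) % s.length := congrArg Fin.val hab
      apply Fin.ext
      have h4 : ((q + a) ≡ (q + b) [MOD s.length]) := h3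
      have h5 := Nat.ModEq.add_left_cancel' q h4
      rw [Nat.ModEq, Nat.mod_eq_of_lt ha, Nat.mod_eq_of_lt hb] at h5
      exact h5)).mul_left (ev e (s.take q))⁻¹
  rw [ExtW]
  convert h2 using 2 with i
  have hi : (i : ℕ) < s.length := by have := i.2; simpa using this
  exact ev_take_rotate e hs q i hq' hi.le

/-- From extremality: at the extremal position the semigroup generated by the position set does
not contain `1`. -/
theorem ExtW.exists_rotate {e : β → K} {s : List (β × Bool)} (hs : ev e s = 1)
    (h : ExtW e s) (E : Set β) (hE : ∃ y ∈ s, y.1 ∈ E) :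
    ∃ n, ((∃ y ∈ (s.rotate n).head?, y.1 ∈ E) ∨ (∃ y ∈ (s.rotate n).getLast?, y.1 ∈ E)) ∧
      (1 : K) ∉ Subsemigroup.closure (posSet e (s.rotate n) E) := by
  obtain ⟨y, hy, hyE⟩ := hE
  obtain ⟨i, hi, rfl⟩ := List.getElem_of_mem hy
  have hl : 0 < s.length := by omega
  let Q : Set (Fin s.length) := {i | (∃ y ∈ (s.rotate i).head?, y.1 ∈ E) ∨
    (∃ y ∈ (s.rotate i).getLast?, y.1 ∈ E)}
  have hQ : Q.Nonempty := by
    refine ⟨⟨i, hi⟩, Or.inl ⟨s[i], ?_, hyE⟩⟩
    rw [Option.mem_def, List.rotate_eq_drop_append_take hi.le, List.head?_append]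
    simp [List.head?_drop, hi]
  obtain ⟨q, hq, hn⟩ := h Q hQ
  refine ⟨q, hq, fun h1 => hn ?_⟩
  refine Subsemigroup.closure_mono ?_ h1
  rintro g ⟨w1, w2, hw, h2, h3, h4, rfl⟩
  set k := w1.length with hk
  have hlen : w1.length + w2.length = s.length := by
    have := congrArg List.length hw
    simp only [List.length_rotate, List.length_append] at this
    omega
  have hk0 : 0 < k := List.length_pos_iff.2 h2
  have hk1 : 0 < w2.length := List.length_pos_iff.2 h3
  have hw1 : w1 = (s.rotate q).take k := by rw [hw]; simp [hk]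
  have hrot : s.rotate ((q + k) % s.length) = w2 ++ w1 := by
    rw [List.rotate_mod, ← List.rotate_rotate, hw, hk, List.rotate_append_length_eq]
  refine ⟨⟨(q + k) % s.length, Nat.mod_lt _ hl⟩, ⟨?_, ?_⟩, ?_⟩
  · show (∃ y ∈ (s.rotate ((q + k) % s.length)).head?, y.1 ∈ E) ∨
      (∃ y ∈ (s.rotate ((q + k) % s.length)).getLast?, y.1 ∈ E)
    rw [hrot]
    rcases h4 with ⟨y, hy1, hy2⟩ | ⟨y, hy1, hy2⟩
    · right
      refine ⟨y, ?_, hy2⟩
      rw [Option.mem_def] at *
      rw [List.getLast?_append, hy1]; rfl
    · left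
      refine ⟨y, ?_, hy2⟩
      rw [Option.mem_def] at *
      rw [List.head?_append, hy1]; rfl
  · intro h5
    have h6 : (q + k) % s.length = q := congrArg Fin.val h5
    have h7 : (q : ℕ) < s.length := q.2
    rcases lt_or_ge (q + k : ℕ) s.length with h8 | h8
    · rw [Nat.mod_eq_of_lt h8] at h6; omega
    · rw [Nat.mod_eq_sub_mod h8, Nat.mod_eq_of_lt (by omega)] at h6; omega
  · show (ev e (s.take q))⁻¹ * ev e (s.take ((q + k) % s.length)) = _
    rw [← ev_take_rotate e hs q k q.2 (by omega), ← hw1]

end Rot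

section Freiheit

variable {β γ : Type*} {K : Type*} [Group K]

open Classical in
/-- Core of the Freiheitssatz -/
theorem freiheit_core (e : β → K) (x0 : β × Bool) (w : List (β × Bool))
    (hs : ev e (x0 :: w) = 1) (hcr : CR (x0 :: w)) (j : γ → β) (hj : Function.Injective j)
    (hx0 : x0.1 ∉ Set.range j)
    (H1 : (1 : K) ∉ Subsemigroup.closure (posSet e (x0 :: w) (Set.range j)ᶜ))
    (v : FreeGroup γ)
    (hv : FreeGroup.map j v ∈ Subgroup.normalClosure {FreeGroup.mk (x0 :: w)}) : v = 1 := by
  let σ0 : K → β → Equiv.Perm (FreeGroup γ) := fun _ c =>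
    if h : c ∈ Set.range j then Equiv.mulRight (FreeGroup.of h.choose) else 1
  have hσ0 : ∀ g c, σ0 g (j c) = Equiv.mulRight (FreeGroup.of c) := by
    intro g c
    have h : j c ∈ Set.range j := ⟨c, rfl⟩
    simp only [σ0, dif_pos h]
    rw [hj h.choose_spec]
  obtain ⟨O, hO⟩ := exists_finset_of_mem_normalClosure e (FreeGroup γ) (x0 :: w) hs _ hv 1
  obtain ⟨σ, -, hB, hC⟩ := extension e x0 w (Set.range j)ᶜ hs hx0 H1 hcr.last_ne 1 one_ne_zero
    (fun _ _ => ∅) σ0 (by
      intro g x hx
      exfalso
      obtain ⟨c, b⟩ := x0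
      cases b <;> exact hx) O
  have hO' := hO σ (fun h hh => by
    have := hC h hh
    rwa [wpow_succ, wpow_zero, List.append_nil] at this) 1
  have key : ∀ (l : List (γ × Bool)) (g : K) (x : FreeGroup γ),
      hol e σ g (l.map fun y => (j y.1, y.2)) x = x * FreeGroup.mk l := by
    intro l
    induction l with
    | nil => intro g x; simp [← FreeGroup.one_eq_mk]
    | cons y l ih =>
      intro g x
      obtain ⟨c, b⟩ := y
      have h1 : ∀ g, σ g (j c) = Equiv.mulRight (FreeGroup.of c) := by
        intro g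
        rw [hB g (j c) (by simp), hσ0 g]
      rw [List.map_cons, hol_cons, Equiv.Perm.mul_apply, ih]
      cases b with
      | true =>
        rw [gv_true, h1]
        show x * FreeGroup.of c * FreeGroup.mk l = _
        rw [mul_assoc]
        congr 1
      | false =>
        rw [gv_false, h1]
        show x * (FreeGroup.of c)⁻¹ * FreeGroup.mk l = _
        rw [mul_assoc]
        congr 1
  obtain ⟨l, rfl⟩ : ∃ l, v = FreeGroup.mk l := ⟨_, FreeGroup.mk_toWord.symm⟩
  rw [FreeGroup.map.mk] at hO'
  rw [walk_mk, key] at hO'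
  have := congrArg Prod.snd hO'
  simpa using this

theorem normalClosure_rotate (s : List (β × Bool)) (n : ℕ) :
    Subgroup.normalClosure {FreeGroup.mk (s.rotate n)} =
      Subgroup.normalClosure {FreeGroup.mk s} := by
  have key : ∀ a b : List (β × Bool), Subgroup.normalClosure {FreeGroup.mk (a ++ b)} ≤
      Subgroup.normalClosure {FreeGroup.mk (b ++ a)} := by
    intro a b
    apply Subgroup.normalClosure_le_normal
    rw [Set.singleton_subset_iff]
    have h1 : FreeGroup.mk (b ++ a) ∈ Subgroup.normalClosure {FreeGroup.mk (b ++ a)} :=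
      Subgroup.subset_normalClosure (Set.mem_singleton _)
    have h2 := (Subgroup.normalClosure_normal (s := {FreeGroup.mk (b ++ a)})).conj_mem _ h1
      (FreeGroup.mk a)
    have h3 : FreeGroup.mk a * FreeGroup.mk (b ++ a) * (FreeGroup.mk a)⁻¹ =
        FreeGroup.mk (a ++ b) := by
      rw [← FreeGroup.mul_mk, ← FreeGroup.mul_mk]
      group
    rw [h3] at h2
    exact h2
  rw [List.rotate_eq_drop_append_take_mod]
  conv_rhs => rw [← List.take_append_drop (n % s.length) s]
  exact le_antisymm (key _ _) (key _ _)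

theorem normalClosure_invRev (s : List (β × Bool)) :
    Subgroup.normalClosure {FreeGroup.mk (invRev s)} =
      Subgroup.normalClosure {FreeGroup.mk s} := by
  have key : ∀ a : List (β × Bool), Subgroup.normalClosure {FreeGroup.mk (invRev a)} ≤
      Subgroup.normalClosure {FreeGroup.mk a} := by
    intro a
    apply Subgroup.normalClosure_le_normal
    rw [Set.singleton_subset_iff, ← inv_mk]
    exact Subgroup.inv_mem _ (Subgroup.subset_normalClosure (Set.mem_singleton _))
  refine le_antisymm (key _) ?_
  have := key (invRev s)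
  rwa [invRev_invRev] at this

theorem posSet_invRev (e : β → K) {s : List (β × Bool)} (hs : ev e s = 1) (E : Set β) :
    posSet e (invRev s) E ⊆ posSet e s E := by
  rintro g ⟨w1, w2, hw, h1, h2, h3, rfl⟩
  have hs' : s = invRev w2 ++ invRev w1 := by
    rw [← invRev_append, ← hw, invRev_invRev]
  refine ⟨invRev w2, invRev w1, hs', ?_, ?_, ?_, ?_⟩
  · intro h; apply h2
    have := congrArg List.length h
    simpa using this
  · intro h; apply h1
    have := congrArg List.length h
    simpa using this
  · rcases h3 with ⟨y, hy, hyE⟩ | ⟨y, hy, hyE⟩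
    · right
      refine ⟨il y, ?_, hyE⟩
      rw [Option.mem_def] at *
      rw [invRev, List.head?_reverse, List.getLast?_map, hy]
      rfl
    · left
      refine ⟨il y, ?_, hyE⟩
      rw [Option.mem_def] at *
      rw [invRev, List.getLast?_reverse, List.head?_map, hy]
      rfl
  · rw [ev_invRev]
    rw [hs', ev_append, ev_invRev, ev_invRev] at hs
    rw [eq_comm, inv_eq_iff_eq_inv]
    exact (inv_injective (by simpa using eq_inv_of_mul_eq_one_left hs))

/-- The Freiheitssatz for a relator whose family of positions is extremal. -/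
theorem freiheit {s : List (β × Bool)} (hcr : CR s) (e : β → K) (hs : ev e s = 1)
    (h : ExtW e s) (j : γ → β) (hj : Function.Injective j) (hout : ∃ y ∈ s, y.1 ∉ Set.range j)
    (v : FreeGroup γ) (hv : FreeGroup.map j v ∈ Subgroup.normalClosure {FreeGroup.mk s}) :
    v = 1 := by
  obtain ⟨n, h1, h2⟩ := h.exists_rotate hs (Set.range j)ᶜ hout
  have hs' := ev_rotate e hs n
  have hcr' := hcr.rotate n
  rw [← normalClosure_rotate s n] at hv
  rcases h1 with ⟨y, hy, hyE⟩ | ⟨y, hy, hyE⟩
  · obtain ⟨w, hw⟩ : ∃ w, s.rotate n = y :: w := by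
      rw [Option.mem_def, List.head?_eq_some_iff] at hy
      exact hy
    rw [hw] at hs' hcr' hv h2
    exact freiheit_core e y w hs' hcr' j hj hyE h2 v hv
  · obtain ⟨w, hw⟩ : ∃ w, invRev (s.rotate n) = il y :: w := by
      rw [Option.mem_def, List.getLast?_eq_some_iff] at hy
      obtain ⟨ys, hy⟩ := hy
      rw [hy]
      exact ⟨invRev ys, by simp [invRev, il]⟩
    rw [← normalClosure_invRev] at hv
    have h3 : (1 : K) ∉ Subsemigroup.closure (posSet e (invRev (s.rotate n)) (Set.range j)ᶜ) :=
      fun h4 => h2 (Subsemigroup.closure_mono (posSet_invRev e hs' _) h4)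
    have hs'' : ev e (invRev (s.rotate n)) = 1 := by rw [ev_invRev, hs', inv_one]
    have hcr'' := hcr'.inv
    rw [hw] at hv h3 hs'' hcr''
    exact freiheit_core e (il y) w hs'' hcr'' j hj hyE h3 v hv

end Freiheit

end OneRel
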