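import Pool.Agent.Helper23.Magnus

set_option autoImplicit false

/-!
The Magnus hierarchy: positions of a primitive cyclically reduced relator are extremal.
-/

namespace OneRel

open Set

universe u

/-- There is a group in which the relator holds and in which its positions are extremal. -/
def Orderly {β : Type u} (s : List (β × Bool)) : Prop :=
  ∃ (K : Type u) (_ : Group K) (e : β → K), ev e s = 1 ∧ ExtW e s

theorem ev_comp {β K K' : Type*} [Group K] [Group K'] (F : K →* K') (e : β → K)
    (w : List (β × Bool)) : ev (fun c => F (e c)) w = F (ev e w) := by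
  induction w with
  | nil => simp
  | cons x w ih =>
    obtain ⟨c, ε⟩ := x
    rw [ev_cons, ev_cons, ih, map_mul]
    cases ε <;> simp

theorem ev_rew {β K : Type*} [DecidableEq β] [Group K] (b : β) (φ : β → ℤ) (g : β × ℤ → K)
    (t : K) (lo hi : ℤ) (f : β → K) (hfb : f b = t ^ (φ b))
    (hfc : ∀ c, c ≠ b → f c = t ^ (-lo) * g (c, lo) * t ^ lo * t ^ (φ c))
    (hg : ∀ c k, lo ≤ k → k ≤ hi → t ^ (k - lo) * g (c, lo) * t ^ (-(k - lo)) = g (c, k))
    (w : List (β × Bool)) (u : ℤ) (hw : ∀ y ∈ rew b φ u w, lo ≤ y.1.2 ∧ y.1.2 ≤ hi) :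
    t ^ u * ev f w = ev g (rew b φ u w) * t ^ (u + wt φ w) := by
  induction w generalizing u with
  | nil => simp
  | cons x w ih =>
    by_cases h1 : x.1 = b
    · rw [rew_cons_of_eq b φ u x w h1] at hw ⊢
      have h2 : t ^ u * lv f x = t ^ (u + lw φ x) := by
        obtain ⟨c, ε⟩ := x
        dsimp at h1
        subst h1
        cases ε
        · rw [lv_false, hfb, lw_false, zpow_add, zpow_neg]
        · rw [lv_true, hfb, lw_true, zpow_add]
      rw [ev_cons, ← mul_assoc, h2, ih _ hw, wt_cons, add_assoc]
    · rw [rew_cons_of_ne b φ u x w h1] at hw ⊢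
      have h3 := hw _ (List.mem_cons_self)
      have h2 : t ^ u * lv f x =
          lv g ((x.1, cond x.2 u (u + lw φ x)), x.2) * t ^ (u + lw φ x) := by
        obtain ⟨c, ε⟩ := x
        dsimp at h1 h3 ⊢
        cases ε
        · rw [lv_false, lv_false, hfc c h1, lw_false]
          simp only [cond_false, lw_false] at h3 ⊢
          rw [← hg c _ h3.1 h3.2]
          simp only [mul_inv_rev, ← zpow_neg, neg_neg, neg_sub]
          have e1 : t ^ u * (t ^ (-φ c) * (t ^ (-lo) * ((g (c, lo))⁻¹ * t ^ lo))) =
            t ^ (u + -φ c - lo) * (g (c, lo))⁻¹ * t ^ lo := by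
            rw [show u + -φ c - lo = u + (-φ c) + (-lo) by ring, zpow_add, zpow_add]
            simp only [mul_assoc]
          have e2 : t ^ lo = t ^ (lo - (u + -φ c)) * t ^ (u + -φ c) := by
            rw [← zpow_add]; congr 1; ring
          rw [e1]
          conv_lhs => rw [e2]
          simp only [mul_assoc]
        · rw [lv_true, lv_true, hfc c h1, lw_true]
          simp only [cond_true] at h3 ⊢
          rw [← hg c _ h3.1 h3.2, zpow_add]
          have e1 : t ^ u * (t ^ (-lo) * g (c, lo) * t ^ lo * t ^ (φ c)) =
            t ^ (u - lo) * g (c, lo) * t ^ lo * t ^ (φ c) := by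
            rw [show u - lo = u + (-lo) by ring, zpow_add]
            simp only [mul_assoc]
          have e2 : t ^ lo = t ^ (-(u - lo)) * t ^ u := by
            rw [← zpow_add]; congr 1; ring
          rw [e1]
          conv_lhs => rw [e2]
          simp only [mul_assoc]
      rw [ev_cons, ← mul_assoc, h2, mul_assoc, ih _ (fun y hy => hw y (List.mem_cons_of_mem _ hy)),
        ← mul_assoc, ev_cons, wt_cons, add_assoc]

/-- evaluation in a presented group -/
theorem ev_presented {β : Type*} (rels : Set (FreeGroup β)) (w : List (β × Bool)) :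
    ev (fun c => (PresentedGroup.of c : PresentedGroup rels)) w =
      PresentedGroup.mk rels (FreeGroup.mk w) := by
  rw [← lift_mk']
  have : FreeGroup.lift (fun c => (PresentedGroup.of c : PresentedGroup rels)) =
      PresentedGroup.mk rels := by
    ext c
    simp [PresentedGroup.of]
  rw [this]

theorem lift_presented {β γ : Type*} (rels : Set (FreeGroup β)) (j : γ → β) (v : FreeGroup γ) :
    FreeGroup.lift (fun c => (PresentedGroup.of (j c) : PresentedGroup rels)) v =
      PresentedGroup.mk rels (FreeGroup.map j v) := by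
  have : FreeGroup.lift (fun c => (PresentedGroup.of (j c) : PresentedGroup rels)) =
      (PresentedGroup.mk rels).comp (FreeGroup.map j) := by
    ext c
    simp [PresentedGroup.of]
  rw [this]; rfl

theorem presented_extW {β : Type u} {s : List (β × Bool)} (h : Orderly s) :
    ExtW (fun c => (PresentedGroup.of c : PresentedGroup {FreeGroup.mk s})) s := by
  obtain ⟨K, _, e, he, hE⟩ := h
  let F : PresentedGroup {FreeGroup.mk s} →* K := PresentedGroup.toGroup (f := e) (by
    intro r hr
    rw [Set.mem_singleton_iff] at hr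
    rw [hr, lift_mk', he])
  have hF : ∀ c, F (PresentedGroup.of c) = e c := fun c => PresentedGroup.toGroup.of _
  refine Ext.of_comp F ?_
  have : (fun i : Fin s.length => F (ev (fun c => (PresentedGroup.of c :
      PresentedGroup {FreeGroup.mk s})) (s.take i))) = fun i : Fin s.length =>
        ev e (s.take i) := by
    funext i
    rw [← ev_comp]
    simp only [hF]
  rw [this]
  exact hE

theorem presented_ev_self {β : Type*} (s : List (β × Bool)) :
    ev (fun c => (PresentedGroup.of c : PresentedGroup {FreeGroup.mk s})) s = 1 := by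
  rw [ev_presented, PresentedGroup.mk_eq_one_iff]
  exact Subgroup.subset_normalClosure (Set.mem_singleton _)

/-- The inductive step. -/
theorem orderly_step {β : Type u} [DecidableEq β] (b : β) (φ : β → ℤ) (hφ : φ b ≠ 0)
    {s : List (β × Bool)} (hcr : CR s) (h0 : wt φ s = 0) (hs : s ≠ [])
    (hlast : ∀ x ∈ s.getLast?, x.1 ≠ b) (ho : Orderly (rew b φ 0 s)) : Orderly s := by
  set s' := rew b φ 0 s with hs'
  have hs'0 : s' ≠ [] := by
    intro h
    obtain ⟨x, hx⟩ : ∃ x, x ∈ s.getLast? := ⟨s.getLast hs, List.getLast?_eq_some_getLast hs⟩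
    exact hlast x hx (all_of_rew_eq_nil b φ 0 s h x (List.mem_of_getLast? hx))
  have hcr' : CR s' := rew_cr b φ hφ hcr h0 0
  have hE' := presented_extW ho
  have hev' := presented_ev_self s'
  set ι' : β × ℤ → PresentedGroup {FreeGroup.mk s'} := fun c => PresentedGroup.of c with hι'
  -- minimal and maximal levels
  obtain ⟨ylo, hylo, hmin⟩ := s'.toFinset.exists_min_image (fun y => y.1.2)
    (List.toFinset_nonempty_iff _ |>.2 hs'0)
  obtain ⟨yhi, hyhi, hmax⟩ := s'.toFinset.exists_max_image (fun y => y.1.2)
    (List.toFinset_nonempty_iff _ |>.2 hs'0)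
  rw [List.mem_toFinset] at hylo hyhi
  set lo := ylo.1.2 with hlo
  set hi := yhi.1.2 with hhi
  have hrange : ∀ y ∈ s', lo ≤ y.1.2 ∧ y.1.2 ≤ hi := fun y hy =>
    ⟨hmin y (List.mem_toFinset.2 hy), hmax y (List.mem_toFinset.2 hy)⟩
  let γ := {p : β × ℤ // lo ≤ p.2 ∧ p.2 < hi}
  let jA : γ → β × ℤ := fun p => p.1
  let jB : γ → β × ℤ := fun p => (p.1.1, p.1.2 + 1)
  have hjA : Function.Injective jA := Subtype.val_injective
  have hjB : Function.Injective jB := by
    intro p q hpq
    apply Subtype.ext
    have h1 := congrArg Prod.fst hpq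
    have h2 := congrArg Prod.snd hpq
    dsimp only [jB] at h1 h2
    exact Prod.ext h1 (by omega)
  let fA : FreeGroup γ →* PresentedGroup {FreeGroup.mk s'} :=
    FreeGroup.lift (fun c => PresentedGroup.of (jA c))
  let fB : FreeGroup γ →* PresentedGroup {FreeGroup.mk s'} :=
    FreeGroup.lift (fun c => PresentedGroup.of (jB c))
  have hfA : Function.Injective fA := by
    rw [injective_iff_map_eq_one]
    intro v hv
    refine freiheit hcr' ι' hev' hE' jA hjA ⟨yhi, hyhi, ?_⟩ v ?_
    · rintro ⟨p, hp⟩
      have := p.2.2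
      rw [show p.1 = yhi.1 from hp] at this
      omega
    · rw [← PresentedGroup.mk_eq_one_iff, ← lift_presented]
      exact hv
  have hfB : Function.Injective fB := by
    rw [injective_iff_map_eq_one]
    intro v hv
    refine freiheit hcr' ι' hev' hE' jB hjB ⟨ylo, hylo, ?_⟩ v ?_
    · rintro ⟨p, hp⟩
      have h1 := p.2.1
      have h2 : p.1.2 + 1 = ylo.1.2 := congrArg Prod.snd hp
      omega
    · rw [← PresentedGroup.mk_eq_one_iff, ← lift_presented]
      exact hv
  let ψ : fA.range ≃* fB.range :=
    (MonoidHom.ofInjective hfA).symm.trans (MonoidHom.ofInjective hfB)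
  have hψ : ∀ x, ψ ⟨fA x, ⟨x, rfl⟩⟩ = ⟨fB x, ⟨x, rfl⟩⟩ := by
    intro x
    have h1 : (⟨fA x, ⟨x, rfl⟩⟩ : fA.range) = MonoidHom.ofInjective hfA x := rfl
    show (MonoidHom.ofInjective hfB) ((MonoidHom.ofInjective hfA).symm _) = _
    rw [h1, MulEquiv.symm_apply_apply]
    rfl
  let K := HNNExtension (PresentedGroup {FreeGroup.mk s'}) fA.range fB.range ψ
  let t : K := HNNExtension.t
  let ofK : PresentedGroup {FreeGroup.mk s'} →* K := HNNExtension.of
  have hof : Function.Injective ofK := HNNExtension.of_injective ψ
  let g : β × ℤ → K := fun c => ofK (ι' c)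
  have hg1 : ∀ c k, lo ≤ k → k < hi → t * g (c, k) * t⁻¹ = g (c, k + 1) := by
    intro c k h1 h2
    have h3 := HNNExtension.equiv_eq_conj (φ := ψ)
      ⟨fA (FreeGroup.of ⟨(c, k), h1, h2⟩), ⟨_, rfl⟩⟩
    rw [hψ] at h3
    have h4 : fA (FreeGroup.of ⟨(c, k), h1, h2⟩) = ι' (c, k) := by simp [fA, jA, hι']
    have h5 : fB (FreeGroup.of ⟨(c, k), h1, h2⟩) = ι' (c, k + 1) := by simp [fB, jB, hι']
    simp only [h4, h5] at h3
    exact h3.symm
  have hg2 : ∀ c, ∀ n : ℕ, lo + n ≤ hi → t ^ (n : ℤ) * g (c, lo) * t ^ (-(n : ℤ)) =
      g (c, lo + n) := by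
    intro c n
    induction n with
    | zero => intro _; simp
    | succ n ih =>
      intro h1
      push_cast at h1 ⊢
      have h2 := ih (by omega)
      have h3 := hg1 c (lo + n) (by omega) (by omega)
      rw [← h2] at h3
      rw [← add_assoc, ← h3, add_comm (n : ℤ) 1, zpow_add, zpow_one, neg_add, add_comm (-1 : ℤ),
        zpow_add, zpow_neg_one]
      simp only [mul_assoc]
  have hg : ∀ c k, lo ≤ k → k ≤ hi → t ^ (k - lo) * g (c, lo) * t ^ (-(k - lo)) = g (c, k) := by
    intro c k h1 h2
    obtain ⟨n, hn⟩ := Int.eq_ofNat_of_zero_le (sub_nonneg.2 h1)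
    have h3 := hg2 c n (by omega)
    rw [hn, h3]
    congr 2
    omega
  let f : β → K := fun c => if c = b then t ^ (φ b) else
    t ^ (-lo) * g (c, lo) * t ^ lo * t ^ (φ c)
  have hfb : f b = t ^ (φ b) := by simp [f]
  have hfc : ∀ c, c ≠ b → f c = t ^ (-lo) * g (c, lo) * t ^ lo * t ^ (φ c) := by
    intro c hc; simp [f, hc]
  have hevg : ∀ w, ev g w = ofK (ev ι' w) := fun w => ev_comp ofK ι' w
  have hmain : ∀ w w2, s = w ++ w2 →
      ev f w = ofK (ev ι' (rew b φ 0 w)) * t ^ (wt φ w) := by
    intro w w2 hw
    have h1 := ev_rew b φ g t lo hi f hfb hfc hg w 0 (by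
      intro y hy
      apply hrange
      rw [hs', hw, rew_append]
      exact List.mem_append_left _ hy)
    rw [zpow_zero, one_mul, zero_add, hevg] at h1
    exact h1
  refine ⟨K, inferInstance, f, ?_, ?_⟩
  · rw [hmain s [] (by simp), ← hs', hev', map_one, h0, zpow_zero, one_mul]
  · let χ : K →* Multiplicative ℤ := HNNExtension.lift 1 (Multiplicative.ofAdd 1) (by simp)
    have hχt : χ t = Multiplicative.ofAdd 1 := HNNExtension.lift_t _ _ _
    have hχof : ∀ x, χ (ofK x) = 1 := fun x => HNNExtension.lift_of _ _ _ x
    have hχ : ∀ i : ℕ, Multiplicative.toAdd (χ (ev f (s.take i))) = wt φ (s.take i) := by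
      intro i
      rw [hmain (s.take i) (s.drop i) (List.take_append_drop _ _).symm, map_mul, hχof, one_mul,
        map_zpow, hχt, toAdd_zpow, toAdd_ofAdd]
      simp
    apply Ext.of_levels χ
    intro c
    let J : {i : Fin s.length // Multiplicative.toAdd (χ (ev f (s.take i))) = c} →
        Fin s'.length := fun i => ⟨(rew b φ 0 (s.take i.1)).length, by
      obtain ⟨⟨i, hi⟩, hic⟩ := i
      dsimp
      conv_rhs => rw [hs', ← List.take_append_drop i s, rew_append, List.length_append]
      have h1 : rew b φ (0 + wt φ (s.take i)) (s.drop i) ≠ [] := by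
        intro h
        have h2 := all_of_rew_eq_nil b φ _ _ h
        have h3 : s.drop i ≠ [] := by
          intro h4
          have := congrArg List.length h4
          rw [List.length_drop, List.length_nil] at this
          omega
        have h4 : (s.drop i).getLast h3 ∈ s.getLast? := by
          rw [Option.mem_def, List.getLast?_eq_some_getLast hs, List.getLast_drop]
        exact hlast _ h4 (h2 _ (List.getLast_mem h3))
      have := List.length_pos_iff.2 h1
      omega⟩
    have hJ : Function.Injective J := by
      rintro ⟨⟨i, hi⟩, hic⟩ ⟨⟨j, hj⟩, hjc⟩ h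
      have key : ∀ i j : ℕ, i < j → j < s.length → wt φ (s.take i) = c → wt φ (s.take j) = c →
          (rew b φ 0 (s.take i)).length = (rew b φ 0 (s.take j)).length → False := by
        intro i j hij hj h1 h2 h3
        have h4 : s.take j = s.take i ++ (s.drop i).take (j - i) := by
          rw [← List.take_add]; congr 1; omega
        rw [h4, rew_append, List.length_append] at h3
        have h5 : rew b φ (0 + wt φ (s.take i)) ((s.drop i).take (j - i)) = [] :=
          List.length_eq_zero_iff.1 (by omega)
        have h6 := all_of_rew_eq_nil b φ _ _ h5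
        rw [h4, wt_append, h1] at h2
        refine wt_ne_zero_of_all b φ (w := (s.drop i).take (j - i)) ?_ h6 hφ ?_ (by omega)
        · refine redSub hcr.isReduced ?_
          exact (List.take_prefix _ _).isInfix.trans (List.drop_suffix _ _).isInfix
        · intro h7
          have := congrArg List.length h7
          rw [List.length_take, List.length_drop, List.length_nil] at this
          omega
      have h1 : (rew b φ 0 (s.take i)).length = (rew b φ 0 (s.take j)).length :=
        congrArg Fin.val h
      have hic' : wt φ (s.take i) = c := by rw [← hχ]; exact hic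
      have hjc' : wt φ (s.take j) = c := by rw [← hχ]; exact hjc
      rcases lt_trichotomy i j with h2 | h2 | h2
      · exact (key i j h2 hj hic' hjc' h1).elim
      · subst h2; rfl
      · exact (key j i h2 hi hjc' hic' h1.symm).elim
    have h1 := ((hE'.comp_injective ofK hof).reindex J hJ).mul_right (t ^ c)
    convert h1 using 2 with i
    obtain ⟨⟨i, hi⟩, hic⟩ := i
    have hic' : wt φ (s.take i) = c := by rw [← hχ]; exact hic
    show ev f (s.take i) = ofK (ev ι' (s'.take (rew b φ 0 (s.take i)).length)) * t ^ c
    rw [hmain (s.take i) (s.drop i) (List.take_append_drop _ _).symm, hic']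
    congr 3
    have h5 : s' = rew b φ 0 (s.take i) ++ rew b φ (0 + wt φ (s.take i)) (s.drop i) := by
      rw [← rew_append, List.take_append_drop]
    rw [h5, List.take_left]


section Main

/-- indicator weight -/
def ind {β : Type u} [DecidableEq β] (a : β) : β → ℤ := fun c => if c = a then 1 else 0

theorem Orderly.of_rotate {β : Type u} {s : List (β × Bool)} (n : ℕ)
    (h : Orderly (s.rotate n)) : Orderly s := by
  obtain ⟨K, hK, e, he, hE⟩ := h
  rcases Nat.eq_zero_or_pos s.length with h0 | h0
  · have : s = [] := List.length_eq_zero_iff.1 h0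
    subst this
    refine ⟨K, hK, e, ev_nil e, ?_⟩
    intro Q hQ
    obtain ⟨q, _⟩ := hQ
    exact q.elim0
  have h1 : (s.rotate n).rotate (s.length - n % s.length) = s := by
    rw [List.rotate_rotate, ← List.rotate_mod]
    have h2 : n % s.length < s.length := Nat.mod_lt _ h0
    have h3 : (n + (s.length - n % s.length)) % s.length = 0 := by
      have h4 := Nat.div_add_mod n s.length
      have h5 : n + (s.length - n % s.length) = s.length * (n / s.length) + s.length := by
        generalize s.length * (n / s.length) = q at *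
        omega
      rw [h5]
      simp
    rw [h3, List.rotate_zero]
  refine ⟨K, hK, e, ?_, ?_⟩
  · have := ev_rotate e he (s.length - n % s.length)
    rwa [h1] at this
  · have := ExtW.rotate he hE (s.length - n % s.length)
    rwa [h1] at this

theorem wt_comb {β : Type u} [DecidableEq β] (a b : β) (m n : ℤ) (s : List (β × Bool)) :
    wt (fun c => m * ind a c + n * ind b c) s = m * wt (ind a) s + n * wt (ind b) s := by
  induction s with
  | nil => simp
  | cons x s ih =>
    rw [wt_cons, wt_cons, wt_cons, ih]
    obtain ⟨c, ε⟩ := x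
    cases ε
    · simp only [lw_false]; ring
    · simp only [lw_true]; ring

/-- rotate so that the last letter is a given one -/
theorem exists_rotate_last {β : Type u} {s : List (β × Bool)} {x : β × Bool} (hx : x ∈ s) :
    ∃ n, (s.rotate n).getLast? = some x := by
  obtain ⟨w1, w2, rfl⟩ := List.append_of_mem hx
  refine ⟨(w1 ++ [x]).length, ?_⟩
  rw [show w1 ++ x :: w2 = (w1 ++ [x]) ++ w2 by simp, List.rotate_append_length_eq,
    ← List.append_assoc]
  simp

/-- **Main theorem on positions** of a primitive cyclically reduced relator. -/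
theorem orderly_of_prim (n : ℕ) : ∀ (β : Type u) (s : List (β × Bool)), s.length ≤ n → s ≠ [] →
    CR s → Prim s → Orderly s := by
  induction n with
  | zero =>
    intro β s h1 h2
    exact absurd (List.length_eq_zero_iff.1 (by omega)) h2
  | succ n ih =>
    intro β s hn hne hcr hp
    classical
    by_cases hone : ∃ a, ∀ x ∈ s, x.1 = a
    · -- a single letter
      obtain ⟨a, ha⟩ := hone
      obtain ⟨ε, h⟩ := eq_replicate_of_isReduced a hcr.isReduced ha
      have hlen : s.length = 1 := by
        by_contra h1
        have h2 : 0 < s.length := List.length_pos_iff.2 hne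
        apply hp 1 one_pos (by omega)
        rw [h, List.rotate_replicate]
      refine ⟨PUnit, inferInstance, fun _ => 1, Subsingleton.elim _ _, ?_⟩
      have : Subsingleton (Fin s.length) := by rw [hlen]; infer_instance
      exact Ext.of_subsingleton _
    · push Not at hone
      -- choose `b` and `φ`
      have key : ∃ (b : β) (φ : β → ℤ), φ b ≠ 0 ∧ wt φ s = 0 ∧ (∃ x ∈ s, x.1 = b) := by
        by_cases hz : ∃ x ∈ s, wt (ind x.1) s = 0
        · obtain ⟨x, hx, h0⟩ := hz
          exact ⟨x.1, ind x.1, by simp [ind], h0, x, hx, rfl⟩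
        · push Not at hz
          obtain ⟨x, hx⟩ := List.exists_mem_of_ne_nil s hne
          obtain ⟨y, hy, hyx⟩ := hone x.1
          refine ⟨x.1, fun c => wt (ind x.1) s * ind y.1 c + (-wt (ind y.1) s) * ind x.1 c,
            ?_, ?_, x, hx, rfl⟩
          · have h1 := hz y hy
            simp only [ind, if_neg hyx.symm]
            simpa using h1
          · rw [wt_comb]; ring
      obtain ⟨b, φ, hφ, h0, x, hx, hxb⟩ := key
      obtain ⟨y, hy, hyb⟩ := hone b
      obtain ⟨k, hk⟩ := exists_rotate_last hy
      apply Orderly.of_rotate k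
      have hcr' := hcr.rotate k
      have h0' : wt φ (s.rotate k) = 0 := by rw [wt_rotate, h0]
      have hne' : s.rotate k ≠ [] := by
        intro h; rw [h] at hk; simp at hk
      have hlast' : ∀ z ∈ (s.rotate k).getLast?, z.1 ≠ b := by
        intro z hz
        rw [hk, Option.mem_def, Option.some.injEq] at hz
        rw [← hz]; exact hyb
      apply orderly_step b φ hφ hcr' h0' hne' hlast'
      refine ih (β × ℤ) _ ?_ ?_ (rew_cr b φ hφ hcr' h0' 0)
        (rew_prim b φ hφ hcr' h0' (hp.rotate k) hlast')
      · have h1 := length_rew_lt b φ 0 (s.rotate k) ⟨x, by rw [List.mem_rotate]; exact hx, hxb⟩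
        rw [List.length_rotate] at h1
        omega
      · intro h
        have h1 := all_of_rew_eq_nil b φ 0 _ h
        exact hyb (h1 y (by rw [List.mem_rotate]; exact hy))

end Main

end OneRel
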