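import Pool.Agent.Helper23.Hier

set_option autoImplicit false

/-!
Basic facts on inverse monoids and monoids of partial injections.
-/

namespace OneRel

/-- inverse monoids -/
def IsInvMon (N : Type*) [Monoid N] : Prop :=
  ∀ x : N, ∃! y : N, x * y * x = x ∧ y * x * y = y

namespace IsInvMon

variable {N : Type*} [Monoid N] (hN : IsInvMon N)

/-- the inverse -/
noncomputable def st (x : N) : N := (hN x).choose

include hN

theorem st1 (x : N) : x * hN.st x * x = x := (hN x).choose_spec.1.1
theorem st2 (x : N) : hN.st x * x * hN.st x = hN.st x := (hN x).choose_spec.1.2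
theorem st_unique {x y : N} (h1 : x * y * x = x) (h2 : y * x * y = y) : y = hN.st x :=
  (hN x).choose_spec.2 y ⟨h1, h2⟩

theorem st_st (x : N) : hN.st (hN.st x) = x :=
  (hN.st_unique (hN.st2 x) (hN.st1 x)).symm

theorem st_idem {e : N} (he : e * e = e) : hN.st e = e :=
  (hN.st_unique (by rw [he, he]) (by rw [he, he])).symm

theorem idem1 (x : N) : (x * hN.st x) * (x * hN.st x) = x * hN.st x := by
  rw [← mul_assoc, hN.st1]
theorem idem2 (x : N) : (hN.st x * x) * (hN.st x * x) = hN.st x * x := by
  rw [← mul_assoc, hN.st2]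

/-- products of idempotents are idempotent -/
theorem idem_mul {e f : N} (he : e * e = e) (hf : f * f = f) : (e * f) * (e * f) = e * f := by
  set x := hN.st (e * f) with hx
  have h1 : (e * f) * x * (e * f) = e * f := hN.st1 _
  have h2 : x * (e * f) * x = x := hN.st2 _
  have h3 : f * x * e = x := by
    apply hN.st_unique
    · calc (e * f) * (f * x * e) * (e * f) = e * (f * f) * x * (e * e) * f := by
            simp only [mul_assoc]
        _ = (e * f) * x * (e * f) := by rw [he, hf]; simp only [mul_assoc]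
        _ = e * f := h1
    · calc (f * x * e) * (e * f) * (f * x * e) = f * (x * ((e * e) * (f * f)) * x) * e := by
            simp only [mul_assoc]
        _ = f * (x * (e * f) * x) * e := by rw [he, hf]
        _ = f * x * e := by rw [h2]
  have h4 : x * x = x := by
    calc x * x = (f * x * e) * (f * x * e) := by rw [h3]
      _ = f * (x * (e * f) * x) * e := by simp only [mul_assoc]
      _ = x := by rw [h2, h3]
  have h5 : e * f = x := by
    have : hN.st x = e * f := hN.st_st _
    rw [← this, hN.st_idem h4]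
  rw [h5, h4]

theorem idem_comm {e f : N} (he : e * e = e) (hf : f * f = f) : e * f = f * e := by
  have h1 := hN.idem_mul he hf
  have h2 := hN.idem_mul hf he
  have h3 : f * e = hN.st (e * f) := by
    apply hN.st_unique
    · calc (e * f) * (f * e) * (e * f) = e * (f * f) * (e * e) * f := by simp only [mul_assoc]
        _ = (e * f) * (e * f) := by rw [he, hf]; simp only [mul_assoc]
        _ = e * f := h1
    · calc (f * e) * (e * f) * (f * e) = f * (e * e) * (f * f) * e := by simp only [mul_assoc]
        _ = (f * e) * (f * e) := by rw [he, hf]; simp only [mul_assoc]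
        _ = f * e := h2
  rw [h3, hN.st_idem h1]

theorem st_mul (x y : N) : hN.st (x * y) = hN.st y * hN.st x := by
  symm
  have hc := hN.idem_comm (hN.idem1 y) (hN.idem2 x)
  apply hN.st_unique
  · calc x * y * (hN.st y * hN.st x) * (x * y) = x * ((y * hN.st y) * (hN.st x * x)) * y := by
          simp only [mul_assoc]
      _ = x * ((hN.st x * x) * (y * hN.st y)) * y := by rw [hc]
      _ = (x * hN.st x * x) * (y * hN.st y * y) := by simp only [mul_assoc]
      _ = x * y := by rw [hN.st1, hN.st1]
  · calc hN.st y * hN.st x * (x * y) * (hN.st y * hN.st x)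
        = hN.st y * ((hN.st x * x) * (y * hN.st y)) * hN.st x := by simp only [mul_assoc]
      _ = hN.st y * ((y * hN.st y) * (hN.st x * x)) * hN.st x := by rw [hc]
      _ = (hN.st y * y * hN.st y) * (hN.st x * x * hN.st x) := by simp only [mul_assoc]
      _ = hN.st y * hN.st x := by rw [hN.st2, hN.st2]

/-- right units -/
def RU (x : N) : Prop := x * hN.st x = 1

theorem ru_of_mul_eq_one {x z : N} (h : x * z = 1) : hN.RU x := by
  show x * hN.st x = 1
  calc x * hN.st x = x * hN.st x * (x * z) := by rw [h, mul_one]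
    _ = (x * hN.st x * x) * z := by simp only [mul_assoc]
    _ = 1 := by rw [hN.st1, h]

theorem ru_one : hN.RU 1 := hN.ru_of_mul_eq_one (mul_one 1)

theorem RU.mul {x y : N} (hx : hN.RU x) (hy : hN.RU y) : hN.RU (x * y) := by
  apply hN.ru_of_mul_eq_one (z := hN.st y * hN.st x)
  calc x * y * (hN.st y * hN.st x) = x * (y * hN.st y) * hN.st x := by simp only [mul_assoc]
    _ = 1 := by rw [hy, mul_one, hx]

theorem RU.left {x y : N} (h : hN.RU (x * y)) : hN.RU x :=
  hN.ru_of_mul_eq_one (z := y * hN.st (x * y)) (by rw [← mul_assoc]; exact h)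

/-- key absorption -/
theorem RU.absorb {x y : N} (h : hN.RU (x * y)) : x * y * hN.st y = x := by
  have h1 : x * y * (hN.st y * hN.st x) = 1 := by rw [← hN.st_mul]; exact h
  have hc := hN.idem_comm (hN.idem1 y) (hN.idem2 x)
  calc x * y * hN.st y = (x * hN.st x * x) * (y * hN.st y) := by
        rw [hN.st1, mul_assoc]
    _ = x * ((hN.st x * x) * (y * hN.st y)) := by simp only [mul_assoc]
    _ = x * ((y * hN.st y) * (hN.st x * x)) := by rw [hc]
    _ = (x * y * (hN.st y * hN.st x)) * x := by simp only [mul_assoc]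
    _ = x := by rw [h1, one_mul]

theorem isUnit_of_mul {x y : N} (hy : hN.RU y) (h : IsUnit (x * y)) : IsUnit x ∧ IsUnit y := by
  obtain ⟨u, hu⟩ := h
  have h1 : (↑u⁻¹ * x) * y = 1 := by rw [mul_assoc, ← hu]; exact u.inv_mul
  have h2 : IsUnit y := by
    have h3 : ↑u⁻¹ * x = hN.st y := by
      calc ↑u⁻¹ * x = ↑u⁻¹ * x * (y * hN.st y) := by rw [hy, mul_one]
        _ = (↑u⁻¹ * x * y) * hN.st y := by simp only [mul_assoc]
        _ = hN.st y := by rw [h1, one_mul]
    exact ⟨⟨y, hN.st y, hy, by rw [← h3]; exact h1⟩, rfl⟩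
  refine ⟨?_, h2⟩
  obtain ⟨v, hv⟩ := h2
  rw [← hv] at hu
  have : x = ↑(u * v⁻¹) := by
    rw [Units.val_mul, hu, mul_assoc, Units.mul_inv, mul_one]
  rw [this]
  exact Units.isUnit _

theorem st_of_isUnit (u : Nˣ) : hN.st (u : N) = ↑u⁻¹ :=
  (hN.st_unique (by simp) (by simp)).symm

end IsInvMon

/-- groups are inverse monoids -/
theorem isInvMon_group (G : Type*) [Group G] : IsInvMon G := by
  intro x
  refine ⟨x⁻¹, by simp, ?_⟩
  rintro y ⟨h, -⟩
  have : x * y = 1 := by
    apply mul_right_cancel (b := x)
    rw [h, one_mul]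
  exact eq_inv_of_mul_eq_one_right this

/-- partial injections of `X`; the product is composition from left to right -/
def PI (X : Type*) := X ≃. X

namespace PI

variable {X : Type*}

instance : Monoid (PI X) where
  mul f g := PEquiv.trans f g
  one := PEquiv.refl X
  mul_assoc f g h := PEquiv.trans_assoc f g h
  one_mul f := PEquiv.refl_trans f
  mul_one f := PEquiv.trans_refl f

/-- application -/
def ap (f : PI X) : X → Option X := PEquiv.toFun f

theorem ext' {f g : PI X} (h : ∀ x, f.ap x = g.ap x) : f = g := by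
  apply PEquiv.ext
  exact h

theorem ap_mul (f g : PI X) (x : X) : (f * g).ap x = (f.ap x).bind g.ap := rfl
theorem ap_one (x : X) : (1 : PI X).ap x = some x := rfl

/-- inverse partial injection -/
def sy (f : PI X) : PI X := PEquiv.symm f

theorem ap_sy {f : PI X} {x y : X} : f.sy.ap y = some x ↔ f.ap x = some y :=
  PEquiv.eq_some_iff (f : X ≃. X)

theorem sy_sy (f : PI X) : f.sy.sy = f := PEquiv.symm_symm f

theorem mul_sy_mul (f : PI X) : f * f.sy * f = f := by
  apply ext'
  intro x
  rw [ap_mul, ap_mul]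
  rcases h : f.ap x with _ | y
  · rfl
  · simp only [Option.bind_some]
    rw [ap_sy.2 h]
    simp [h]

theorem sy_mul_sy (f : PI X) : f.sy * f * f.sy = f.sy := by
  have := mul_sy_mul f.sy
  rwa [sy_sy] at this

theorem isInvMon : IsInvMon (PI X) := by
  intro f
  refine ⟨f.sy, ⟨mul_sy_mul f, sy_mul_sy f⟩, ?_⟩
  rintro g ⟨h1, h2⟩
  have key : ∀ f g : PI X, f * g * f = f → ∀ x y, f.ap x = some y → g.ap y = some x := by
    intro f g h x y hxy
    have h3 : (f * g * f).ap x = some y := by rw [h, hxy]
    rw [ap_mul, ap_mul, hxy, Option.bind_some] at h3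
    rcases h4 : g.ap y with _ | x'
    · rw [h4] at h3; simp at h3
    · rw [h4, Option.bind_some] at h3
      have h5 := ap_sy.2 h3
      rw [ap_sy.2 hxy] at h5
      rw [Option.some.inj h5]
  apply ext'
  intro y
  rcases h3 : g.ap y with _ | x
  · rcases h4 : f.sy.ap y with _ | x
    · rfl
    · have := key f g h1 x y (ap_sy.1 h4)
      rw [h3] at this
      exact absurd this (by simp)
  · have := key g f h2 y x h3
    exact (ap_sy.2 this).symm

theorem isUnit_sy_total {f : PI X} (hf : IsUnit f) (y : X) : ∃ x, f.ap x = some y := by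
  obtain ⟨u, rfl⟩ := hf
  have h : ((↑u⁻¹ : PI X) * (u : PI X)).ap y = some y := by rw [Units.inv_mul]; rfl
  rw [ap_mul] at h
  rcases h1 : (↑u⁻¹ : PI X).ap y with _ | x
  · rw [h1] at h; simp at h
  · rw [h1] at h; exact ⟨x, h⟩

theorem mul_sy_eq_one {f : PI X} (h : ∀ x, ∃ y, f.ap x = some y) : f * f.sy = 1 := by
  apply ext'
  intro x
  obtain ⟨y, hy⟩ := h x
  rw [ap_mul, hy, Option.bind_some, ap_sy.2 hy, ap_one]

end PI

end OneRel
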