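import Pool.Agent.Helper23.Freiheit

set_option autoImplicit false

/-!
Magnus rewriting.
-/

namespace OneRel

open Set FreeGroup

section Words

variable {β : Type*}

/-- weight of a letter -/
def lw (φ : β → ℤ) (x : β × Bool) : ℤ := cond x.2 (φ x.1) (-φ x.1)

/-- weight of a word -/
def wt (φ : β → ℤ) (w : List (β × Bool)) : ℤ := (w.map (lw φ)).sum

@[simp] theorem wt_nil (φ : β → ℤ) : wt φ [] = 0 := rfl
@[simp] theorem wt_cons (φ : β → ℤ) (x : β × Bool) (w : List (β × Bool)) :
    wt φ (x :: w) = lw φ x + wt φ w := by simp [wt]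
@[simp] theorem wt_append (φ : β → ℤ) (w w' : List (β × Bool)) :
    wt φ (w ++ w') = wt φ w + wt φ w' := by simp [wt]
@[simp] theorem lw_true (φ : β → ℤ) (c : β) : lw φ (c, true) = φ c := rfl
@[simp] theorem lw_false (φ : β → ℤ) (c : β) : lw φ (c, false) = -φ c := rfl

theorem wt_rotate (φ : β → ℤ) (s : List (β × Bool)) (n : ℕ) : wt φ (s.rotate n) = wt φ s := by
  rw [List.rotate_eq_drop_append_take_mod, wt_append, add_comm, ← wt_append,
    List.take_append_drop]

variable [DecidableEq β]

/-- Magnus rewriting: delete the letters `b`, record the level of the others -/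
def rew (b : β) (φ : β → ℤ) : ℤ → List (β × Bool) → List ((β × ℤ) × Bool)
  | _, [] => []
  | u, x :: w => if x.1 = b then rew b φ (u + lw φ x) w else
      ((x.1, cond x.2 u (u + lw φ x)), x.2) :: rew b φ (u + lw φ x) w

variable (b : β) (φ : β → ℤ)

@[simp] theorem rew_nil (u : ℤ) : rew b φ u [] = [] := rfl

theorem rew_cons_of_eq (u : ℤ) (x : β × Bool) (w : List (β × Bool)) (h : x.1 = b) :
    rew b φ u (x :: w) = rew b φ (u + lw φ x) w := by
  rw [rew, if_pos h]

theorem rew_cons_of_ne (u : ℤ) (x : β × Bool) (w : List (β × Bool)) (h : x.1 ≠ b) :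
    rew b φ u (x :: w) = ((x.1, cond x.2 u (u + lw φ x)), x.2) :: rew b φ (u + lw φ x) w := by
  rw [rew, if_neg h]

theorem rew_append (u : ℤ) (w w' : List (β × Bool)) :
    rew b φ u (w ++ w') = rew b φ u w ++ rew b φ (u + wt φ w) w' := by
  induction w generalizing u with
  | nil => simp
  | cons x w ih =>
    by_cases h : x.1 = b
    · rw [List.cons_append, rew_cons_of_eq b φ u x _ h, rew_cons_of_eq b φ u x _ h, ih, wt_cons,
        add_assoc]
    · rw [List.cons_append, rew_cons_of_ne b φ u x _ h, rew_cons_of_ne b φ u x _ h, ih, wt_cons,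
        add_assoc, List.cons_append]

theorem rew_of_all (u : ℤ) (w : List (β × Bool)) (h : ∀ x ∈ w, x.1 = b) :
    rew b φ u w = [] := by
  induction w generalizing u with
  | nil => rfl
  | cons x w ih =>
    rw [rew_cons_of_eq b φ u x _ (h x (by simp))]
    exact ih _ (fun y hy => h y (by simp [hy]))

theorem all_of_rew_eq_nil (u : ℤ) (w : List (β × Bool)) (h : rew b φ u w = []) :
    ∀ x ∈ w, x.1 = b := by
  induction w generalizing u with
  | nil => simp
  | cons x w ih =>
    by_cases h1 : x.1 = b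
    · rw [rew_cons_of_eq b φ u x _ h1] at h
      intro y hy
      rcases List.mem_cons.1 hy with rfl | hy
      · exact h1
      · exact ih _ h y hy
    · rw [rew_cons_of_ne b φ u x _ h1] at h
      exact absurd h (by simp)

theorem length_rew_le (u : ℤ) (w : List (β × Bool)) : (rew b φ u w).length ≤ w.length := by
  induction w generalizing u with
  | nil => simp
  | cons x w ih =>
    by_cases h1 : x.1 = b
    · rw [rew_cons_of_eq b φ u x _ h1, List.length_cons]
      exact (ih _).trans (by omega)
    · rw [rew_cons_of_ne b φ u x _ h1, List.length_cons, List.length_cons]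
      exact Nat.succ_le_succ (ih _)

theorem length_rew_lt (u : ℤ) (w : List (β × Bool)) (h : ∃ x ∈ w, x.1 = b) :
    (rew b φ u w).length < w.length := by
  obtain ⟨x, hx, hxb⟩ := h
  obtain ⟨w1, w2, rfl⟩ := List.append_of_mem hx
  rw [rew_append, List.length_append, rew_cons_of_eq b φ _ x _ hxb, List.length_append,
    List.length_cons]
  have h1 := length_rew_le b φ u w1
  have h2 := length_rew_le b φ (u + wt φ w1 + lw φ x) w2
  omega

omit [DecidableEq β] in
/-- a reduced word in one letter is a power -/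
theorem eq_replicate_of_isReduced {w : List (β × Bool)} (hw : FreeGroup.IsReduced w)
    (h : ∀ x ∈ w, x.1 = b) : ∃ ε, w = List.replicate w.length (b, ε) := by
  induction w with
  | nil => exact ⟨true, rfl⟩
  | cons x w ih =>
    obtain ⟨c, ε⟩ := x
    have hc : c = b := h (c, ε) (by simp)
    subst hc
    refine ⟨ε, ?_⟩
    rw [List.length_cons, List.replicate_succ]
    congr 1
    rcases w with _ | ⟨y, w⟩
    · rfl
    · rw [FreeGroup.IsReduced, List.isChain_cons_cons] at hw
      obtain ⟨ε', h'⟩ := ih hw.2 (fun z hz => h z (by simp [hz]))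
      have h1 : y = (c, ε') := by
        rw [List.length_cons, List.replicate_succ] at h'
        exact (List.cons.inj h').1
      have h2 : ε = ε' := by
        have := hw.1 (by rw [h1])
        rw [h1] at this
        exact this
      rw [h2]
      exact h'

omit [DecidableEq β] in
theorem wt_replicate (n : ℕ) (x : β × Bool) : wt φ (List.replicate n x) = n * lw φ x := by
  induction n with
  | zero => simp
  | succ n ih => rw [List.replicate_succ, wt_cons, ih]; push_cast; ring

omit [DecidableEq β] in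
theorem lw_ne_zero {x : β × Bool} (h : φ x.1 ≠ 0) : lw φ x ≠ 0 := by
  obtain ⟨c, ε⟩ := x
  cases ε
  · simpa using h
  · simpa using h

omit [DecidableEq β] in
theorem wt_ne_zero_of_all {w : List (β × Bool)} (hw : FreeGroup.IsReduced w)
    (h : ∀ x ∈ w, x.1 = b) (hφ : φ b ≠ 0) (hne : w ≠ []) : wt φ w ≠ 0 := by
  obtain ⟨ε, h'⟩ := eq_replicate_of_isReduced b hw h
  rw [h', wt_replicate]
  refine mul_ne_zero ?_ (lw_ne_zero φ hφ)
  have := List.length_pos_iff.2 hne
  exact_mod_cast this.ne'

/-- the first letter of the rewritten word -/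
theorem rew_head (u : ℤ) (w : List (β × Bool)) {y' : (β × ℤ) × Bool}
    (h : y' ∈ (rew b φ u w).head?) : ∃ w2 y w3, w = w2 ++ y :: w3 ∧ (∀ z ∈ w2, z.1 = b) ∧
      y.1 ≠ b ∧ y' = ((y.1, cond y.2 (u + wt φ w2) (u + wt φ w2 + lw φ y)), y.2) := by
  induction w generalizing u with
  | nil => simp at h
  | cons x w ih =>
    by_cases h1 : x.1 = b
    · rw [rew_cons_of_eq b φ u x _ h1] at h
      obtain ⟨w2, y, w3, rfl, h2, h3, h4⟩ := ih _ h
      refine ⟨x :: w2, y, w3, rfl, ?_, h3, ?_⟩
      · intro z hz
        rcases List.mem_cons.1 hz with rfl | hz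
        · exact h1
        · exact h2 z hz
      · rw [h4, wt_cons]; simp only [add_assoc]
    · rw [rew_cons_of_ne b φ u x _ h1] at h
      refine ⟨[], x, w, rfl, by simp, h1, ?_⟩
      simp only [List.head?_cons, Option.mem_def, Option.some.injEq] at h
      rw [← h]; simp

theorem rew_isReduced (hφ : φ b ≠ 0) (u : ℤ) {w : List (β × Bool)}
    (hw : FreeGroup.IsReduced w) : FreeGroup.IsReduced (rew b φ u w) := by
  induction w generalizing u with
  | nil => exact FreeGroup.IsReduced.nil
  | cons x w ih =>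
    have hw' : FreeGroup.IsReduced w := redSub hw ⟨[x], [], by simp⟩
    by_cases h1 : x.1 = b
    · rw [rew_cons_of_eq b φ u x _ h1]
      exact ih _ hw'
    · rw [rew_cons_of_ne b φ u x _ h1, FreeGroup.IsReduced, List.isChain_cons]
      refine ⟨?_, ih _ hw'⟩
      intro y' hy' heq
      obtain ⟨w2, y, w3, rfl, h2, h3, rfl⟩ := rew_head b φ _ _ hy'
      dsimp at heq ⊢
      rw [Prod.mk.injEq] at heq
      obtain ⟨h4, h5⟩ := heq
      by_contra h6
      have h7 : wt φ w2 = 0 := by
        obtain ⟨c, ε⟩ := x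
        obtain ⟨c', ε'⟩ := y
        dsimp at h4
        subst h4
        cases ε <;> cases ε' <;> simp at h5 h6 ⊢ <;> omega
      have h8 : w2 = [] := by
        by_contra h9
        exact wt_ne_zero_of_all b φ
          (redSub hw' ⟨[], y :: w3, by simp⟩) h2 hφ h9 h7
      subst h8
      rw [List.nil_append, FreeGroup.IsReduced, List.isChain_cons_cons] at hw
      exact h6 (hw.1 h4)

theorem rew_cr (hφ : φ b ≠ 0) {s : List (β × Bool)} (hs : CR s) (h0 : wt φ s = 0) (u : ℤ) :
    CR (rew b φ u s) := by
  have h := rew_isReduced b φ hφ u hs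
  rw [rew_append, h0, add_zero] at h
  exact h

/-- a power of `b` of given weight -/
def bpow (n : ℤ) : List (β × Bool) := List.replicate (n / φ b).natAbs (b, decide (0 ≤ n / φ b))

/-- start level of a letter of the rewritten word -/
def stl (y : (β × ℤ) × Bool) : ℤ := cond y.2 y.1.2 (y.1.2 + φ y.1.1)
/-- end level of a letter of the rewritten word -/
def enl (y : (β × ℤ) × Bool) : ℤ := cond y.2 (y.1.2 + φ y.1.1) y.1.2

/-- decoding -/
def dec : ℤ → List ((β × ℤ) × Bool) → List (β × Bool)
  | _, [] => []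
  | u, y :: w => bpow b φ (stl φ y - u) ++ (y.1.1, y.2) :: dec (enl φ y) w

/-- end level of a rewritten word -/
def endlev : ℤ → List ((β × ℤ) × Bool) → ℤ
  | u, [] => u
  | _, y :: w => endlev (enl φ y) w

omit [DecidableEq β] in
theorem dec_append (u : ℤ) (w w' : List ((β × ℤ) × Bool)) :
    dec b φ u (w ++ w') = dec b φ u w ++ dec b φ (endlev φ u w) w' := by
  induction w generalizing u with
  | nil => rfl
  | cons y w ih =>
    rw [List.cons_append, dec, ih, dec, endlev]
    simp

omit [DecidableEq β] in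
theorem endlev_append_of_ne_nil (u : ℤ) (w w' : List ((β × ℤ) × Bool)) (h : w' ≠ []) :
    endlev φ u (w ++ w') = endlev φ 0 w' := by
  induction w generalizing u with
  | nil =>
    rcases w' with _ | ⟨y, w'⟩
    · exact absurd rfl h
    · rfl
  | cons y w ih => rw [List.cons_append, endlev, ih]

omit [DecidableEq β] in
theorem dec_ne_nil (u : ℤ) {w : List ((β × ℤ) × Bool)} (h : w ≠ []) : dec b φ u w ≠ [] := by
  rcases w with _ | ⟨y, w⟩
  · exact absurd rfl h
  · simp [dec]

omit [DecidableEq β] in
theorem bpow_wt (hφ : φ b ≠ 0) {w : List (β × Bool)} (hw : FreeGroup.IsReduced w)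
    (h : ∀ x ∈ w, x.1 = b) : bpow b φ (wt φ w) = w := by
  obtain ⟨ε, h'⟩ := eq_replicate_of_isReduced b hw h
  have h1 : wt φ w / φ b = (cond ε 1 (-1)) * w.length := by
    conv_lhs => rw [h', wt_replicate]
    cases ε
    · rw [lw_false, show ((w.length : ℤ) * -φ b) = (-w.length) * φ b by ring,
        Int.mul_ediv_cancel _ hφ]
      simp
    · rw [lw_true, Int.mul_ediv_cancel _ hφ]
      simp
  rw [bpow, h1]
  conv_rhs => rw [h']
  rcases Nat.eq_zero_or_pos w.length with h2 | h2
  · rw [h2]; simp
  · cases ε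
    · have h3 : (cond false 1 (-1) * (w.length : ℤ)).natAbs = w.length := by simp
      rw [h3]
      congr 2
      simp only [cond_false, decide_eq_false_iff_not, not_le]
      omega
    · have h3 : (cond true 1 (-1) * (w.length : ℤ)).natAbs = w.length := by simp
      rw [h3]
      congr 2

/-- splitting off the first letter different from `b` -/
theorem exists_split {w : List (β × Bool)} (hne : w ≠ [])
    (hlast : ∀ x ∈ w.getLast?, x.1 ≠ b) : ∃ w2 y w3, w = w2 ++ y :: w3 ∧ (∀ z ∈ w2, z.1 = b) ∧
      y.1 ≠ b := by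
  let φ : β → ℤ := fun _ => 0
  have h1 : rew b φ 0 w ≠ [] := by
    intro h
    have h2 := all_of_rew_eq_nil b φ 0 w h
    obtain ⟨x, hx⟩ : ∃ x, x ∈ w.getLast? := ⟨w.getLast hne, List.getLast?_eq_some_getLast hne⟩
    exact hlast x hx (h2 x (List.mem_of_getLast? hx))
  obtain ⟨y', hy'⟩ : ∃ y', y' ∈ (rew b φ 0 w).head? := ⟨_, List.head?_eq_some_head h1⟩
  obtain ⟨w2, y, w3, h2, h3, h4, -⟩ := rew_head b φ 0 w hy'
  exact ⟨w2, y, w3, h2, h3, h4⟩

theorem dec_rew (hφ : φ b ≠ 0) (n : ℕ) : ∀ (u : ℤ) (w : List (β × Bool)), w.length ≤ n →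
    FreeGroup.IsReduced w → (∀ x ∈ w.getLast?, x.1 ≠ b) →
    dec b φ u (rew b φ u w) = w ∧ endlev φ u (rew b φ u w) = u + wt φ w := by
  induction n with
  | zero =>
    intro u w hn _ _
    have : w = [] := List.length_eq_zero_iff.1 (by omega)
    subst this
    simp [dec, endlev]
  | succ n ih =>
    intro u w hn hw hlast
    rcases eq_or_ne w [] with rfl | hne
    · simp [dec, endlev]
    obtain ⟨w2, y, w3, rfl, h2, h3⟩ := exists_split b hne hlast
    have hlast3 : ∀ x ∈ w3.getLast?, x.1 ≠ b := by
      intro x hx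
      apply hlast
      rw [Option.mem_def] at *
      rw [List.getLast?_append, List.getLast?_cons, hx]
      rfl
    have hred2 : FreeGroup.IsReduced w2 :=
      redSub hw ⟨[], y :: w3, by simp⟩
    have hred3 : FreeGroup.IsReduced w3 :=
      redSub hw ⟨w2 ++ [y], [], by simp⟩
    have hlen : w3.length ≤ n := by
      simp only [List.length_append, List.length_cons] at hn
      omega
    obtain ⟨ih1, ih2⟩ := ih (u + wt φ w2 + lw φ y) w3 hlen hred3 hlast3
    have hst : stl φ ((y.1, cond y.2 (u + wt φ w2) (u + wt φ w2 + lw φ y)), y.2) =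
        u + wt φ w2 := by
      obtain ⟨c, ε⟩ := y
      cases ε <;> simp [stl]
    have hen : enl φ ((y.1, cond y.2 (u + wt φ w2) (u + wt φ w2 + lw φ y)), y.2) =
        u + wt φ w2 + lw φ y := by
      obtain ⟨c, ε⟩ := y
      cases ε <;> simp [enl]
    rw [rew_append, rew_of_all b φ u w2 h2, List.nil_append, rew_cons_of_ne b φ _ y _ h3]
    constructor
    · rw [dec, hst, hen, ih1, add_sub_cancel_left, bpow_wt b φ hφ hred2 h2]
    · rw [endlev, hen, ih2, wt_append, wt_cons]
      ring

/-- primitive cyclic word -/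
def Prim {β : Type*} (s : List (β × Bool)) : Prop :=
  ∀ k, 0 < k → k < s.length → s.rotate k ≠ s

omit [DecidableEq β] in
theorem Prim.rotate {s : List (β × Bool)} (h : Prim s) (n : ℕ) : Prim (s.rotate n) := by
  intro k hk hk' heq
  rw [List.length_rotate] at hk'
  apply h k hk hk'
  rw [List.rotate_rotate, add_comm, ← List.rotate_rotate] at heq
  exact (List.rotate_injective n) heq

theorem rew_prim (hφ : φ b ≠ 0) {s : List (β × Bool)} (hs : CR s) (h0 : wt φ s = 0)
    (hp : Prim s) (hlast : ∀ x ∈ s.getLast?, x.1 ≠ b) : Prim (rew b φ 0 s) := by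
  intro k hk hk' heq
  obtain ⟨h1, h2⟩ := dec_rew b φ hφ s.length 0 s le_rfl hs.isReduced hlast
  rw [h0, add_zero] at h2
  rw [List.rotate_eq_drop_append_take hk'.le] at heq
  obtain ⟨x, y, hx, hy, hxy⟩ : ∃ x y, x = (rew b φ 0 s).take k ∧ y = (rew b φ 0 s).drop k ∧
    x ++ y = rew b φ 0 s := ⟨_, _, rfl, rfl, List.take_append_drop _ _⟩
  rw [← hx, ← hy] at heq
  have hx0 : x ≠ [] := by
    rw [hx]; intro h
    have := congrArg List.length h
    rw [List.length_take, List.length_nil] at this
    omega
  have hy0 : y ≠ [] := by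
    rw [hy]; intro h
    have := congrArg List.length h
    rw [List.length_drop, List.length_nil] at this
    omega
  have h3 : endlev φ 0 x = 0 := by
    rw [← endlev_append_of_ne_nil φ 0 y x hx0, heq, h2]
  have h4 : endlev φ 0 y = 0 := by
    rw [← endlev_append_of_ne_nil φ 0 x y hy0, hxy, h2]
  have h5 : dec b φ 0 x ++ dec b φ 0 y = s := by
    conv_rhs => rw [← h1, ← hxy, dec_append, h3]
  have h6 : dec b φ 0 y ++ dec b φ 0 x = s := by
    conv_rhs => rw [← h1, ← heq, dec_append, h4]
  refine hp (dec b φ 0 x).length (List.length_pos_iff.2 (dec_ne_nil b φ 0 hx0)) ?_ ?_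
  · rw [← h5, List.length_append]
    have := List.length_pos_iff.2 (dec_ne_nil b φ 0 hy0)
    omega
  · conv_lhs => rw [← h5]
    rw [List.rotate_append_length_eq, h6]

end Words

end OneRel
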