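import Pool.Agent.Helper23.InvMon

set_option autoImplicit false

/-!
One-relator inverse monoids.
-/

namespace OneRel

open FreeGroup (invRev)

section Vl

variable {Γ : Type*} {N : Type*} [Monoid N]

/-- value of a word -/
def vl (f : Γ × Bool → N) (w : List (Γ × Bool)) : N := (w.map f).prod

@[simp] theorem vl_nil (f : Γ × Bool → N) : vl f [] = 1 := rfl
@[simp] theorem vl_cons (f : Γ × Bool → N) (x : Γ × Bool) (w : List (Γ × Bool)) :
    vl f (x :: w) = f x * vl f w := by simp [vl]
@[simp] theorem vl_append (f : Γ × Bool → N) (w w' : List (Γ × Bool)) :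
    vl f (w ++ w') = vl f w * vl f w' := by simp [vl]

/-- mutual inverses -/
def MI (f : Γ × Bool → N) : Prop :=
  ∀ b, f (b, true) * f (b, false) * f (b, true) = f (b, true) ∧
    f (b, false) * f (b, true) * f (b, false) = f (b, false)

theorem MI.st {f : Γ × Bool → N} (hf : MI f) (hN : IsInvMon N) (x : Γ × Bool) :
    hN.st (f x) = f (il x) := by
  obtain ⟨b, ε⟩ := x
  cases ε
  · exact (hN.st_unique (hf b).2 (hf b).1).symm
  · exact (hN.st_unique (hf b).1 (hf b).2).symm

theorem invRev_cons {Γ : Type*} (x : Γ × Bool) (w : List (Γ × Bool)) :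
    invRev (x :: w) = invRev w ++ [il x] := by
  simp [invRev, il]

theorem MI.st_vl {f : Γ × Bool → N} (hf : MI f) (hN : IsInvMon N) (w : List (Γ × Bool)) :
    hN.st (vl f w) = vl f (invRev w) := by
  induction w with
  | nil => simp [invRev, hN.st_idem (one_mul 1)]
  | cons x w ih => rw [vl_cons, hN.st_mul, ih, hf.st hN, invRev_cons, vl_append]; simp

end Vl

section Pres

variable {Γ : Type}

/-- admissible maps -/
structure Adm (w : List (Γ × Bool)) (N : Type) [Monoid N] (f : Γ × Bool → N) : Prop where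
  inv : IsInvMon N
  mi : MI f
  rel : vl f w = 1

/-- the congruence -/
def relCon (w : List (Γ × Bool)) : Con (FreeMonoid (Γ × Bool)) where
  r u v := ∀ (N : Type) [Monoid N] (f : Γ × Bool → N), Adm w N f →
    FreeMonoid.lift f u = FreeMonoid.lift f v
  iseqv :=
    { refl := fun _ _ _ _ _ => rfl
      symm := fun h N _ f hf => (h N f hf).symm
      trans := fun h h' N _ f hf => (h N f hf).trans (h' N f hf) }
  mul' := by
    intro a b c d h1 h2 N _ f hf
    rw [map_mul, map_mul, h1 N f hf, h2 N f hf]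

/-- the one-relator inverse monoid -/
def PM (w : List (Γ × Bool)) : Type := (relCon w).Quotient

instance (w : List (Γ × Bool)) : Monoid (PM w) := by delta PM; infer_instance

/-- generators -/
def gen (w : List (Γ × Bool)) (x : Γ × Bool) : PM w := (relCon w).mk' (FreeMonoid.of x)

/-- the quotient map -/
def qm (w : List (Γ × Bool)) : FreeMonoid (Γ × Bool) →* PM w := (relCon w).mk'

theorem qm_surj (w : List (Γ × Bool)) (x : PM w) : ∃ u, qm w u = x :=
  Con.mk'_surjective x

theorem qm_eq {w : List (Γ × Bool)} {u v : FreeMonoid (Γ × Bool)} :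
    qm w u = qm w v ↔ ∀ (N : Type) [Monoid N] (f : Γ × Bool → N), Adm w N f →
      FreeMonoid.lift f u = FreeMonoid.lift f v :=
  (relCon w).eq

theorem lift_eq_vl {N : Type*} [Monoid N] (f : Γ × Bool → N) (u : FreeMonoid (Γ × Bool)) :
    FreeMonoid.lift f u = vl f (FreeMonoid.toList u) := by
  rw [FreeMonoid.lift_apply]; rfl

theorem qm_eq_vl (w : List (Γ × Bool)) (u : FreeMonoid (Γ × Bool)) :
    qm w u = vl (gen w) (FreeMonoid.toList u) := by
  rw [← lift_eq_vl]
  have : qm w = FreeMonoid.lift (gen w) := by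
    ext x
    rfl
  rw [this]

theorem exists_vl (w : List (Γ × Bool)) (x : PM w) : ∃ u, x = vl (gen w) u := by
  obtain ⟨u, rfl⟩ := qm_surj w x
  exact ⟨_, qm_eq_vl w u⟩

theorem vl_gen_eq {w : List (Γ × Bool)} {u v : List (Γ × Bool)} :
    vl (gen w) u = vl (gen w) v ↔ ∀ (N : Type) [Monoid N] (f : Γ × Bool → N), Adm w N f →
      vl f u = vl f v := by
  have h1 : ∀ u : List (Γ × Bool), vl (gen w) u = qm w (FreeMonoid.ofList u) := by
    intro u; rw [qm_eq_vl]; simp
  rw [h1, h1, qm_eq]
  simp only [lift_eq_vl, FreeMonoid.toList_ofList]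

theorem pm_isInvMon (w : List (Γ × Bool)) : IsInvMon (PM w) := by
  intro x
  obtain ⟨u, rfl⟩ := exists_vl w x
  refine ⟨vl (gen w) (invRev u), ?_, ?_⟩
  · constructor
    · show vl (gen w) u * vl (gen w) (invRev u) * vl (gen w) u = vl (gen w) u
      rw [← vl_append, ← vl_append, vl_gen_eq]
      intro N _ f hf
      rw [vl_append, vl_append, ← hf.mi.st_vl hf.inv, hf.inv.st1]
    · show vl (gen w) (invRev u) * vl (gen w) u * vl (gen w) (invRev u) = vl (gen w) (invRev u)
      rw [← vl_append, ← vl_append, vl_gen_eq]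
      intro N _ f hf
      rw [vl_append, vl_append, ← hf.mi.st_vl hf.inv, hf.inv.st2]
  · rintro y ⟨h1, h2⟩
    obtain ⟨v, rfl⟩ := exists_vl w y
    rw [← vl_append, ← vl_append, vl_gen_eq] at h1 h2
    rw [vl_gen_eq]
    intro N _ f hf
    have h3 := h1 N f hf
    have h4 := h2 N f hf
    rw [vl_append, vl_append] at h3 h4
    rw [hf.inv.st_unique h3 h4, hf.mi.st_vl hf.inv]

theorem pm_adm (w : List (Γ × Bool)) : Adm w (PM w) (gen w) where
  inv := pm_isInvMon w
  mi := by
    intro b
    have h1 : ∀ ε, gen w (b, ε) * gen w (b, !ε) * gen w (b, ε) = gen w (b, ε) := by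
      intro ε
      have h2 : vl (gen w) [(b, ε), (b, !ε), (b, ε)] = vl (gen w) [(b, ε)] := by
        rw [vl_gen_eq]
        intro N _ f hf
        cases ε
        · simpa [mul_assoc] using (hf.mi b).2
        · simpa [mul_assoc] using (hf.mi b).1
      simpa [mul_assoc] using h2
    exact ⟨h1 true, h1 false⟩
  rel := by
    have h2 : vl (gen w) w = vl (gen w) [] := by
      rw [vl_gen_eq]
      intro N _ f hf
      rw [hf.rel, vl_nil]
    rw [h2, vl_nil]

/-- universal property -/
theorem pm_lift (w : List (Γ × Bool)) (N : Type) [Monoid N] (f : Γ × Bool → N)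
    (hf : Adm w N f) : ∃ φ : PM w →* N, ∀ c, φ (gen w c) = f c := by
  refine ⟨Con.lift (relCon w) (FreeMonoid.lift f) (fun u v h => h N f hf), fun c => ?_⟩
  show Con.lift (relCon w) (FreeMonoid.lift f) _ ((relCon w).mk' (FreeMonoid.of c)) = _
  simp

theorem hom_vl {N N' : Type*} [Monoid N] [Monoid N'] (φ : N →* N') (f : Γ × Bool → N)
    (w : List (Γ × Bool)) : φ (vl f w) = vl (fun x => φ (f x)) w := by
  induction w with
  | nil => simp
  | cons x w ih => simp [ih]

theorem gen_closure (w : List (Γ × Bool)) : Submonoid.closure (Set.range (gen w)) = ⊤ := by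
  rw [eq_top_iff]
  intro x _
  obtain ⟨u, rfl⟩ := exists_vl w x
  induction u with
  | nil => exact Submonoid.one_mem _
  | cons y u ih =>
    rw [vl_cons]
    exact Submonoid.mul_mem _ (Submonoid.subset_closure ⟨y, rfl⟩) (ih trivial)

/-- conversion to the shape of the frozen statement -/
theorem frozen_shape {Γ : Type} {m : ℕ} (ε : Fin m ≃ Γ) (w : List (Γ × Bool)) (H : Type)
    [Group H] (hH : Nonempty (H ≃* (PM w)ˣ)) :
    ∃ (w : List (Fin m ⊕ Fin m)) (M : Type) (_ : Monoid M)
        (ι : Fin m ⊕ Fin m → M),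
        (∀ x : M, ∃! y : M, x * y * x = x ∧ y * x * y = y) ∧
        (∀ b : Fin m, ι (Sum.inl b) * ι (Sum.inr b) * ι (Sum.inl b) = ι (Sum.inl b) ∧
          ι (Sum.inr b) * ι (Sum.inl b) * ι (Sum.inr b) = ι (Sum.inr b)) ∧
        (w.map ι).prod = 1 ∧
        Submonoid.closure (Set.range ι) = ⊤ ∧
        (∀ (N : Type) [Monoid N],
          (∀ x : N, ∃! y : N, x * y * x = x ∧ y * x * y = y) →
          ∀ f : Fin m ⊕ Fin m → N,
            (∀ b : Fin m, f (Sum.inl b) * f (Sum.inr b) * f (Sum.inl b) = f (Sum.inl b) ∧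
              f (Sum.inr b) * f (Sum.inl b) * f (Sum.inr b) = f (Sum.inr b)) →
            (w.map f).prod = 1 →
            ∃ φ : M →* N, ∀ c, φ (ι c) = f c) ∧
        Nonempty (H ≃* Mˣ) := by
  let c : Γ × Bool → Fin m ⊕ Fin m := fun x => cond x.2 (Sum.inl (ε.symm x.1))
    (Sum.inr (ε.symm x.1))
  let d : Fin m ⊕ Fin m → Γ × Bool := Sum.elim (fun b => (ε b, true)) (fun b => (ε b, false))
  have hcd : ∀ x, d (c x) = x := by
    rintro ⟨x, b⟩
    cases b <;> simp [c, d]
  have hdc : ∀ x, c (d x) = x := by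
    rintro (x | x) <;> simp [c, d]
  have hmap : ∀ {N : Type} [Monoid N] (f : Fin m ⊕ Fin m → N),
      ((w.map c).map f).prod = vl (fun x => f (c x)) w := by
    intro N _ f
    rw [List.map_map]; rfl
  refine ⟨w.map c, PM w, inferInstance, fun x => gen w (d x), pm_isInvMon w, ?_, ?_, ?_, ?_, hH⟩
  · intro b
    exact (pm_adm w).mi (ε b)
  · rw [hmap]
    simp only [hcd]
    exact (pm_adm w).rel
  · rw [← gen_closure w]
    congr 1
    ext x
    constructor
    · rintro ⟨y, rfl⟩; exact ⟨_, rfl⟩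
    · rintro ⟨y, rfl⟩; exact ⟨c y, by simp only [hcd]⟩
  · intro N _ hN f hf hw
    have hA : Adm w N (fun x => f (c x)) := ⟨hN, fun b => hf (ε.symm b), by rw [← hmap]; exact hw⟩
    obtain ⟨φ, hφ⟩ := pm_lift w N (fun x => f (c x)) hA
    exact ⟨φ, fun x => by rw [hφ, hdc]⟩

end Pres

end OneRel
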