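import Pool.Agent.Helper23.Close

set_option autoImplicit false

/-!
Right units and units of one-relator inverse monoids.
-/

namespace OneRel

open FreeGroup (invRev)

section General

variable {Γ : Type} {w : List (Γ × Bool)}

/-- partial action of a letter on a set `S` of right units of an inverse monoid -/
noncomputable def act {N : Type} [Monoid N] (hN : IsInvMon N) (f : Γ × Bool → N) (hf : MI f)
    (S : Set N) (hS : ∀ x ∈ S, hN.RU x) (a : Γ × Bool) : PI S :=
  open Classical in
  { toFun := fun x => if h : (x : N) * f a ∈ S then some ⟨_, h⟩ else none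
    invFun := fun x => if h : (x : N) * f (il a) ∈ S then some ⟨_, h⟩ else none
    inv := by
      have key : ∀ (a : Γ × Bool) (x y : S), (x : N) * f a = y → (y : N) * f (il a) = x := by
        intro a x y h
        have h1 : hN.RU ((x : N) * f a) := by rw [h]; exact hS _ y.2
        have h2 := h1.absorb
        rw [hf.st hN] at h2
        rw [← h, h2]
      intro x y
      constructor
      · intro h
        by_cases h1 : (y : N) * f (il a) ∈ S
        · rw [dif_pos h1] at h
          have h2 : (y : N) * f (il a) = x := congrArg Subtype.val (Option.some.inj h)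
          have h3 := key _ _ _ h2
          rw [il_il] at h3
          have h4 : (x : N) * f a ∈ S := by rw [h3]; exact y.2
          rw [dif_pos h4]
          exact congrArg some (Subtype.ext h3)
        · rw [dif_neg h1] at h
          exact absurd h (by simp)
      · intro h
        by_cases h1 : (x : N) * f a ∈ S
        · rw [dif_pos h1] at h
          have h2 : (x : N) * f a = y := congrArg Subtype.val (Option.some.inj h)
          have h3 := key _ _ _ h2
          have h4 : (y : N) * f (il a) ∈ S := by rw [h3]; exact x.2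
          rw [dif_pos h4]
          exact congrArg some (Subtype.ext h3)
        · rw [dif_neg h1] at h
          exact absurd h (by simp) }

variable {N : Type} [Monoid N] (hN : IsInvMon N) (f : Γ × Bool → N) (hf : MI f)
    (S : Set N) (hS : ∀ x ∈ S, hN.RU x)

open Classical in
theorem act_ap_of_mem (a : Γ × Bool) (x : S) (h : (x : N) * f a ∈ S) :
    (act hN f hf S hS a).ap x = some ⟨_, h⟩ := by
  show (if h : (x : N) * f a ∈ S then some (⟨_, h⟩ : S) else none) = _
  rw [dif_pos h]

open Classical in
theorem act_ap_eq_some (a : Γ × Bool) (x y : S) (h : (act hN f hf S hS a).ap x = some y) :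
    (x : N) * f a = y := by
  have h' : (if h : (x : N) * f a ∈ S then some (⟨_, h⟩ : S) else none) = some y := h
  by_cases h1 : (x : N) * f a ∈ S
  · rw [dif_pos h1] at h'
    exact congrArg Subtype.val (Option.some.inj h')
  · rw [dif_neg h1] at h'
    exact absurd h' (by simp)

theorem act_il (c : Γ) (ε : Bool) :
    act hN f hf S hS (c, !ε) = (act hN f hf S hS (c, ε)).sy := by
  apply PI.ext'
  intro x
  have key : ∀ ε (x y : S), (act hN f hf S hS (c, ε)).ap x = some y →
      (act hN f hf S hS (c, !ε)).ap y = some x := by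
    intro ε x y h
    have h1 := act_ap_eq_some hN f hf S hS _ _ _ h
    have h2 : hN.RU ((x : N) * f (c, ε)) := by rw [h1]; exact hS _ y.2
    have h3 := h2.absorb
    rw [hf.st hN, h1] at h3
    have h4 : (y : N) * f (c, !ε) ∈ S := by
      rw [show ((c, !ε) : Γ × Bool) = il (c, ε) from rfl, h3]; exact x.2
    rw [act_ap_of_mem hN f hf S hS _ y h4]
    exact congrArg some (Subtype.ext h3)
  rcases h : (act hN f hf S hS (c, !ε)).ap x with _ | y
  · rcases h1 : (act hN f hf S hS (c, ε)).sy.ap x with _ | y
    · rfl
    · have := key _ _ _ (PI.ap_sy.1 h1)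
      rw [h] at this; exact absurd this (by simp)
  · have := key _ _ _ h
    rw [Bool.not_not] at this
    exact (PI.ap_sy.2 this).symm

theorem act_mi : MI (act hN f hf S hS) := by
  intro c
  have h := act_il hN f hf S hS c true
  rw [Bool.not_true] at h
  rw [h]
  exact ⟨PI.mul_sy_mul _, PI.sy_mul_sy _⟩

theorem act_vl_eq_some (u : List (Γ × Bool)) (x y : S)
    (h : (vl (act hN f hf S hS) u).ap x = some y) : (x : N) * vl f u = y := by
  induction u generalizing x with
  | nil =>
    rw [vl_nil, PI.ap_one, Option.some.injEq] at h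
    rw [h, vl_nil, mul_one]
  | cons a u ih =>
    rw [vl_cons, PI.ap_mul] at h
    rcases h1 : (act hN f hf S hS a).ap x with _ | y1
    · rw [h1] at h; exact absurd h (by simp)
    · rw [h1, Option.bind_some] at h
      rw [vl_cons, ← mul_assoc, act_ap_eq_some hN f hf S hS _ _ _ h1, ih _ h]

theorem act_vl_of_mem (u : List (Γ × Bool)) (x : S)
    (h : ∀ p q, u = p ++ q → (x : N) * vl f p ∈ S) :
    (vl (act hN f hf S hS) u).ap x = some ⟨_, h u [] (by simp)⟩ := by
  induction u generalizing x with
  | nil =>
    rw [vl_nil, PI.ap_one]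
    exact congrArg some (Subtype.ext (by simp))
  | cons a u ih =>
    have h1 : (x : N) * f a ∈ S := by
      have := h [a] u rfl
      simpa using this
    rw [vl_cons, PI.ap_mul, act_ap_of_mem hN f hf S hS a x h1, Option.bind_some]
    rw [ih ⟨_, h1⟩ (by
      intro p q hpq
      have := h (a :: p) q (by rw [hpq]; rfl)
      rw [vl_cons, ← mul_assoc] at this
      exact this)]
    exact congrArg some (Subtype.ext (by simp [mul_assoc]))

end General

section PMUnits

variable {Γ : Type} {w : List (Γ × Bool)}

/-- generation of the right units -/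
theorem ru_mem (S : Submonoid (PM w)) (hS : ∀ x ∈ S, (pm_isInvMon w).RU x)
    (hpre : ∀ p q, w = p ++ q → vl (gen w) p ∈ S) {u : PM w} (hu : (pm_isInvMon w).RU u) :
    u ∈ S := by
  set hN := pm_isInvMon w
  have hf := (pm_adm w).mi
  have hA : Adm w (PI (S : Set (PM w))) (act hN (gen w) hf S hS) := by
    refine ⟨PI.isInvMon, act_mi hN (gen w) hf S hS, ?_⟩
    apply PI.ext'
    intro x
    rw [act_vl_of_mem hN (gen w) hf S hS w x
      (fun p q hpq => S.mul_mem x.2 (hpre p q hpq)), PI.ap_one]
    exact congrArg some (Subtype.ext (by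
      show (x : PM w) * vl (gen w) w = x
      rw [(pm_adm w).rel, mul_one]))
  obtain ⟨φ, hφ⟩ := pm_lift w _ _ hA
  have h1 : (φ u * φ (hN.st u)).ap ⟨1, S.one_mem⟩ = some ⟨1, S.one_mem⟩ := by
    rw [← map_mul, show u * hN.st u = 1 from hu, map_one, PI.ap_one]
  rw [PI.ap_mul] at h1
  rcases h2 : (φ u).ap ⟨1, S.one_mem⟩ with _ | y
  · rw [h2] at h1; exact absurd h1 (by simp)
  · obtain ⟨v, rfl⟩ := exists_vl w u
    rw [hom_vl] at h2
    simp only [hφ] at h2
    have h3 := act_vl_eq_some hN (gen w) hf S hS v _ _ h2
    rw [one_mul] at h3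
    rw [h3]
    exact y.2

/-- generation of the units -/
theorem isUnit_mem {P : Set (PM w)} (hP : ∀ x ∈ P, (pm_isInvMon w).RU x)
    (hpre : ∀ p q, w = p ++ q → vl (gen w) p ∈ Submonoid.closure P) {u : PM w}
    (hu : IsUnit u) : u ∈ Submonoid.closure {x | x ∈ P ∧ IsUnit x} := by
  set hN := pm_isInvMon w
  have hS : ∀ x ∈ Submonoid.closure P, hN.RU x := by
    intro x hx
    induction hx using Submonoid.closure_induction with
    | mem x hx => exact hP x hx
    | one => exact hN.ru_one
    | mul x y _ _ h1 h2 => exact h1.mul hN h2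
  have hRU : hN.RU u := by
    obtain ⟨v, rfl⟩ := hu
    exact hN.ru_of_mul_eq_one v.mul_inv
  have hmem := ru_mem (Submonoid.closure P) hS hpre hRU
  clear hRU
  induction hmem using Submonoid.closure_induction with
  | mem x hx => exact Submonoid.subset_closure ⟨hx, hu⟩
  | one => exact Submonoid.one_mem _
  | mul x y hx hy h1 h2 =>
    obtain ⟨h3, h4⟩ := hN.isUnit_of_mul (hS y hy) hu
    exact Submonoid.mul_mem _ (h1 h3) (h2 h4)

end PMUnits

section Blocks

variable {Γ : Type}

/-- the relator built from the list `C` of words to be made right invertible and the word `ρ` -/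
def relw (C : List (List (Γ × Bool))) (ρ : List (Γ × Bool)) : List (Γ × Bool) :=
  C.foldr (fun c acc => c ++ (invRev c ++ acc)) ρ

theorem relw_iff {N : Type*} [Monoid N] (hN : IsInvMon N) {f : Γ × Bool → N} (hf : MI f)
    (C : List (List (Γ × Bool))) (ρ : List (Γ × Bool)) :
    vl f (relw C ρ) = 1 ↔ (∀ c ∈ C, hN.RU (vl f c)) ∧ vl f ρ = 1 := by
  induction C with
  | nil => simp [relw]
  | cons c C ih =>
    have h0 : vl f (relw (c :: C) ρ) = (vl f c * hN.st (vl f c)) * vl f (relw C ρ) := by
      rw [hf.st_vl hN, mul_assoc, ← vl_append, ← vl_append]; rfl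
    rw [h0]
    constructor
    · intro h
      have h1 : vl f c * hN.st (vl f c) = 1 := by
        calc vl f c * hN.st (vl f c) = (vl f c * hN.st (vl f c)) *
              ((vl f c * hN.st (vl f c)) * vl f (relw C ρ)) := by rw [h, mul_one]
          _ = ((vl f c * hN.st (vl f c)) * (vl f c * hN.st (vl f c))) * vl f (relw C ρ) := by
              simp only [mul_assoc]
          _ = 1 := by rw [hN.idem1, h]
      rw [h1, one_mul, ih] at h
      refine ⟨?_, h.2⟩
      intro c' hc'
      rcases List.mem_cons.1 hc' with rfl | hc'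
      · exact h1
      · exact h.1 c' hc'
    · rintro ⟨h1, h2⟩
      have h3 : vl f c * hN.st (vl f c) = 1 := h1 c (by simp)
      rw [h3, one_mul, ih]
      exact ⟨fun c' hc' => h1 c' (by simp [hc']), h2⟩

/-- prefixes of the relator -/
theorem relw_prefix {N : Type*} [Monoid N] (hN : IsInvMon N) {f : Γ × Bool → N} (hf : MI f)
    (C : List (List (Γ × Bool))) (ρ : List (Γ × Bool)) (h : vl f (relw C ρ) = 1)
    (p q : List (Γ × Bool)) (hpq : relw C ρ = p ++ q) :
    ∃ p' q', vl f p = vl f p' ∧ ((∃ c ∈ C, c = p' ++ q') ∨ ρ = p' ++ q') := by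
  induction C generalizing p q with
  | nil => exact ⟨p, q, rfl, Or.inr hpq⟩
  | cons c C ih =>
    obtain ⟨h1, h2⟩ := (relw_iff hN hf (c :: C) ρ).1 h
    have h3 : vl f c * hN.st (vl f c) = 1 := h1 c (by simp)
    have h4 : vl f (relw C ρ) = 1 :=
      (relw_iff hN hf C ρ).2 ⟨fun c' hc' => h1 c' (by simp [hc']), h2⟩
    have hpq' : c ++ (invRev c ++ relw C ρ) = p ++ q := hpq
    rw [List.append_eq_append_iff] at hpq'
    rcases hpq' with ⟨a, rfl, ha⟩ | ⟨a, rfl, ha⟩
    · -- p = c ++ a
      rw [List.append_eq_append_iff] at ha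
      rcases ha with ⟨a', rfl, ha'⟩ | ⟨a', ha', rfl⟩
      · -- a = invRev c ++ a'
        obtain ⟨p', q', h5, h6⟩ := ih h4 a' q ha'
        refine ⟨p', q', ?_, ?_⟩
        · rw [← h5, vl_append, vl_append, ← mul_assoc, ← hf.st_vl hN, h3, one_mul]
        · rcases h6 with ⟨c', hc', h7⟩ | h7
          · exact Or.inl ⟨c', by simp [hc'], h7⟩
          · exact Or.inr h7
      · -- invRev c = a ++ a'
        have hc : c = invRev a' ++ invRev a := by
          rw [← FreeGroup.invRev_append, ← ha', FreeGroup.invRev_invRev]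
        refine ⟨invRev a', invRev a, ?_, Or.inl ⟨c, by simp, hc⟩⟩
        have h5 : hN.RU (vl f (invRev a') * vl f (invRev a)) := by
          rw [← vl_append, ← hc]; exact h3
        have h6 := h5.absorb
        rw [hf.st_vl hN, FreeGroup.invRev_invRev, ← vl_append, ← hc, ← vl_append] at h6
        exact h6
    · exact ⟨p, a, rfl, Or.inl ⟨p ++ a, by simp, rfl⟩⟩

end Blocks

end OneRel
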