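import Pool.Agent.Helper23.Ext

set_option autoImplicit false

/-!
Voltage assignments on the Cayley graph of a group, and the extension lemma.
-/

namespace OneRel

open Set

section Basic

variable {β : Type*} {L : Type*} [Group L]

/-- value of a signed letter -/
def lv (e : β → L) (x : β × Bool) : L := cond x.2 (e x.1) (e x.1)⁻¹

/-- value of a word -/
def ev (e : β → L) (w : List (β × Bool)) : L := (w.map (lv e)).prod

/-- the inverse letter -/
def il (x : β × Bool) : β × Bool := (x.1, !x.2)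

@[simp] theorem il_il (x : β × Bool) : il (il x) = x := by simp [il]

@[simp] theorem lv_true (e : β → L) (c : β) : lv e (c, true) = e c := rfl
@[simp] theorem lv_false (e : β → L) (c : β) : lv e (c, false) = (e c)⁻¹ := rfl

@[simp] theorem lv_il (e : β → L) (x : β × Bool) : lv e (il x) = (lv e x)⁻¹ := by
  obtain ⟨c, b⟩ := x
  cases b <;> simp [il]

@[simp] theorem ev_nil (e : β → L) : ev e [] = 1 := rfl
@[simp] theorem ev_cons (e : β → L) (x : β × Bool) (w : List (β × Bool)) :
    ev e (x :: w) = lv e x * ev e w := by simp [ev]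
@[simp] theorem ev_append (e : β → L) (w w' : List (β × Bool)) :
    ev e (w ++ w') = ev e w * ev e w' := by simp [ev]

theorem lift_mk' (e : β → L) (w : List (β × Bool)) :
    FreeGroup.lift e (FreeGroup.mk w) = ev e w := by
  rw [FreeGroup.lift_mk]; rfl

variable {X : Type*}

/-- germ voltage -/
def gv (e : β → L) (σ : L → β → Equiv.Perm X) (g : L) (x : β × Bool) : Equiv.Perm X :=
  cond x.2 (σ g x.1) (σ (g * (e x.1)⁻¹) x.1)⁻¹

@[simp] theorem gv_true (e : β → L) (σ : L → β → Equiv.Perm X) (g : L) (c : β) :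
    gv e σ g (c, true) = σ g c := rfl
@[simp] theorem gv_false (e : β → L) (σ : L → β → Equiv.Perm X) (g : L) (c : β) :
    gv e σ g (c, false) = (σ (g * (e c)⁻¹) c)⁻¹ := rfl

/-- holonomy of the path starting at `g` and reading `w` -/
def hol (e : β → L) (σ : L → β → Equiv.Perm X) : L → List (β × Bool) → Equiv.Perm X
  | _, [] => 1
  | g, x :: w => hol e σ (g * lv e x) w * gv e σ g x

@[simp] theorem hol_nil (e : β → L) (σ : L → β → Equiv.Perm X) (g : L) : hol e σ g [] = 1 := rfl
@[simp] theorem hol_cons (e : β → L) (σ : L → β → Equiv.Perm X) (g : L) (x : β × Bool)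
    (w : List (β × Bool)) : hol e σ g (x :: w) = hol e σ (g * lv e x) w * gv e σ g x := rfl

theorem hol_append (e : β → L) (σ : L → β → Equiv.Perm X) (g : L) (w w' : List (β × Bool)) :
    hol e σ g (w ++ w') = hol e σ (g * ev e w) w' * hol e σ g w := by
  induction w generalizing g with
  | nil => simp
  | cons x w ih => simp [ih, mul_assoc]

/-- word power -/
def wpow (s : List (β × Bool)) (m : ℕ) : List (β × Bool) := (List.replicate m s).flatten

@[simp] theorem wpow_zero (s : List (β × Bool)) : wpow s 0 = [] := rfl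
theorem wpow_succ (s : List (β × Bool)) (m : ℕ) : wpow s (m + 1) = s ++ wpow s m := by
  simp [wpow, List.replicate_succ]
theorem wpow_succ' (s : List (β × Bool)) (m : ℕ) : wpow s (m + 1) = wpow s m ++ s := by
  simp [wpow, List.replicate_succ', List.flatten_append]
theorem wpow_add (s : List (β × Bool)) (m n : ℕ) : wpow s (m + n) = wpow s m ++ wpow s n := by
  induction m with
  | zero => simp
  | succ k ih => rw [Nat.succ_add, wpow_succ, wpow_succ, ih, List.append_assoc]

@[simp] theorem ev_wpow (e : β → L) (s : List (β × Bool)) (m : ℕ) :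
    ev e (wpow s m) = ev e s ^ m := by
  induction m with
  | zero => simp
  | succ k ih => rw [wpow_succ, ev_append, ih, pow_succ']

theorem hol_wpow (e : β → L) (σ : L → β → Equiv.Perm X) (g : L) (s : List (β × Bool))
    (hs : ev e s = 1) (m : ℕ) : hol e σ g (wpow s m) = hol e σ g s ^ m := by
  induction m with
  | zero => simp
  | succ k ih => rw [wpow_succ, hol_append, hs, mul_one, ih, pow_succ]

/-- the permutation of `L × X` given by a letter -/
def stepPerm (e : β → L) (σ : L → β → Equiv.Perm X) (c : β) : Equiv.Perm (L × X) where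
  toFun p := (p.1 * e c, σ p.1 c p.2)
  invFun p := (p.1 * (e c)⁻¹, (σ (p.1 * (e c)⁻¹) c)⁻¹ p.2)
  left_inv p := by simp
  right_inv p := by simp

/-- the action of the free group on `L × X` (written on the right, via the opposite) -/
def walk (e : β → L) (σ : L → β → Equiv.Perm X) :
    FreeGroup β →* (Equiv.Perm (L × X))ᵐᵒᵖ :=
  FreeGroup.lift (fun c => MulOpposite.op (stepPerm e σ c))

theorem walk_mk (e : β → L) (σ : L → β → Equiv.Perm X) (w : List (β × Bool)) (g : L) (x : X) :
    (walk e σ (FreeGroup.mk w)).unop (g, x) = (g * ev e w, hol e σ g w x) := by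
  rw [walk, lift_mk']
  induction w generalizing g x with
  | nil => simp
  | cons y w ih =>
    obtain ⟨c, b⟩ := y
    rw [ev_cons, MulOpposite.unop_mul, Equiv.Perm.mul_apply]
    cases b with
    | true =>
      have : (MulOpposite.unop (lv (fun c => MulOpposite.op (stepPerm e σ c)) (c, true))) (g, x)
          = (g * e c, σ g c x) := rfl
      rw [this, ih]
      simp [mul_assoc]
    | false =>
      have : (MulOpposite.unop (lv (fun c => MulOpposite.op (stepPerm e σ c)) (c, false))) (g, x)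
          = (g * (e c)⁻¹, (σ (g * (e c)⁻¹) c)⁻¹ x) := rfl
      rw [this, ih]
      simp [mul_assoc]

/-- Elements of the normal closure of `r` have trivial holonomy as soon as the holonomy of `r`
is trivial at finitely many places. -/
theorem exists_finset_of_mem_normalClosure (e : β → L) (X : Type*) (r : List (β × Bool))
    (hr : ev e r = 1) (u : FreeGroup β) (hu : u ∈ Subgroup.normalClosure {FreeGroup.mk r}) :
    ∀ g : L, ∃ O : Finset L, ∀ σ : L → β → Equiv.Perm X, (∀ h ∈ O, hol e σ h r = 1) →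
      ∀ x : X, (walk e σ u).unop (g, x) = (g, x) := by
  classical
  rw [Subgroup.normalClosure] at hu
  induction hu using Subgroup.closure_induction with
  | mem y hy =>
    intro g
    rw [Group.mem_conjugatesOfSet_iff] at hy
    obtain ⟨a, ha, hy⟩ := hy
    rw [Set.mem_singleton_iff] at ha
    subst ha
    rw [isConj_iff] at hy
    obtain ⟨c, rfl⟩ := hy
    obtain ⟨w, rfl⟩ : ∃ w, c = FreeGroup.mk w := ⟨_, FreeGroup.mk_toWord.symm⟩
    refine ⟨{g * ev e w}, fun σ hσ x => ?_⟩
    have h1 := hσ _ (Finset.mem_singleton_self _)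
    have h2 : (walk e σ (FreeGroup.mk r)).unop (g * ev e w, hol e σ g w x) =
        (g * ev e w, hol e σ g w x) := by
      rw [walk_mk, hr, h1]; simp
    rw [map_mul, map_mul, MulOpposite.unop_mul, MulOpposite.unop_mul, Equiv.Perm.mul_apply,
      Equiv.Perm.mul_apply, walk_mk e σ w g x, h2, map_inv, MulOpposite.unop_inv,
      Equiv.Perm.inv_eq_iff_eq, walk_mk]
  | one => exact fun g => ⟨∅, fun σ _ x => by simp⟩
  | mul y z _ _ hy hz =>
    intro g
    obtain ⟨O1, h1⟩ := hy g
    obtain ⟨O2, h2⟩ := hz g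
    refine ⟨O1 ∪ O2, fun σ hσ x => ?_⟩
    rw [map_mul, MulOpposite.unop_mul, Equiv.Perm.mul_apply,
      h1 σ (fun h hh => hσ h (Finset.mem_union_left _ hh)),
      h2 σ (fun h hh => hσ h (Finset.mem_union_right _ hh))]
  | inv y _ hy =>
    intro g
    obtain ⟨O1, h1⟩ := hy g
    refine ⟨O1, fun σ hσ x => ?_⟩
    rw [map_inv, MulOpposite.unop_inv, Equiv.Perm.inv_eq_iff_eq, h1 σ hσ]

end Basic

section Protected

variable {β : Type*} {L : Type*} [Group L] {X : Type*}

/-- protected points at a germ -/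
def gp (e : β → L) (prot : L → β → Set X) (σ : L → β → Equiv.Perm X) (g : L) (x : β × Bool) :
    Set X :=
  cond x.2 (prot g x.1) {y | (σ (g * (e x.1)⁻¹) x.1)⁻¹ y ∈ prot (g * (e x.1)⁻¹) x.1}

/-- protected path -/
def PP (e : β → L) (prot : L → β → Set X) (σ : L → β → Equiv.Perm X) :
    L → List (β × Bool) → X → Prop
  | _, [], _ => True
  | g, y :: w, x => x ∈ gp e prot σ g y ∧ PP e prot σ (g * lv e y) w (gv e σ g y x)

/-- agreement on protected points -/
def Agree (prot : L → β → Set X) (σ σ' : L → β → Equiv.Perm X) : Prop :=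
  ∀ g c, ∀ x ∈ prot g c, σ' g c x = σ g c x

theorem Agree.gp_gv {e : β → L} {prot : L → β → Set X} {σ σ' : L → β → Equiv.Perm X}
    (h : Agree prot σ σ') {g : L} {y : β × Bool} {x : X} (hx : x ∈ gp e prot σ g y) :
    x ∈ gp e prot σ' g y ∧ gv e σ' g y x = gv e σ g y x := by
  obtain ⟨c, b⟩ := y
  cases b with
  | true => exact ⟨hx, h g c x hx⟩
  | false =>
    have hx' : (σ (g * (e c)⁻¹) c)⁻¹ x ∈ prot (g * (e c)⁻¹) c := hx
    have h1 := h _ _ _ hx'
    rw [show σ (g * (e c)⁻¹) c ((σ (g * (e c)⁻¹) c)⁻¹ x) = x from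
      Equiv.apply_symm_apply _ _] at h1
    have h2 : (σ' (g * (e c)⁻¹) c)⁻¹ x = (σ (g * (e c)⁻¹) c)⁻¹ x := by
      rw [Equiv.Perm.inv_eq_iff_eq, h1]
    refine ⟨?_, h2⟩
    show (σ' (g * (e c)⁻¹) c)⁻¹ x ∈ prot (g * (e c)⁻¹) c
    rw [h2]
    exact hx'

omit [Group L] in
theorem Agree.symm' {prot : L → β → Set X} {σ σ' : L → β → Equiv.Perm X}
    (h : Agree prot σ σ') : Agree prot σ' σ := fun g c x hx => (h g c x hx).symm

omit [Group L] in
theorem Agree.trans' {prot : L → β → Set X} {σ σ' σ'' : L → β → Equiv.Perm X}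
    (h : Agree prot σ σ') (h' : Agree prot σ' σ'') : Agree prot σ σ'' :=
  fun g c x hx => by rw [h' g c x hx, h g c x hx]

theorem Agree.PP_hol {e : β → L} {prot : L → β → Set X} {σ σ' : L → β → Equiv.Perm X}
    (h : Agree prot σ σ') {w : List (β × Bool)} {g : L} {x : X} (hx : PP e prot σ g w x) :
    PP e prot σ' g w x ∧ hol e σ' g w x = hol e σ g w x := by
  induction w generalizing g x with
  | nil => exact ⟨trivial, rfl⟩
  | cons y w ih =>
    obtain ⟨h1, h2⟩ := hx
    obtain ⟨h3, h4⟩ := h.gp_gv h1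
    obtain ⟨h5, h6⟩ := ih h2
    refine ⟨⟨h3, ?_⟩, ?_⟩
    · rw [h4]; exact h5
    · simp only [hol_cons, Equiv.Perm.mul_apply, h4, h6]

theorem PP_append {e : β → L} {prot : L → β → Set X} {σ : L → β → Equiv.Perm X}
    {w w' : List (β × Bool)} {g : L} {x : X} :
    PP e prot σ g (w ++ w') x ↔
      PP e prot σ g w x ∧ PP e prot σ (g * ev e w) w' (hol e σ g w x) := by
  induction w generalizing g x with
  | nil => simp [PP]
  | cons y w ih =>
    simp only [List.cons_append, PP, ih, ev_cons, hol_cons, Equiv.Perm.mul_apply, mul_assoc,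
      and_assoc]

/-- update the voltage at a germ -/
noncomputable def upd (e : β → L) (σ : L → β → Equiv.Perm X) (γ : L) (x : β × Bool)
    (f : Equiv.Perm X) : L → β → Equiv.Perm X :=
  open Classical in
  fun g c => if c = x.1 ∧ g = cond x.2 γ (γ * (e x.1)⁻¹) then cond x.2 f f⁻¹ else σ g c

theorem gv_upd_self (e : β → L) (σ : L → β → Equiv.Perm X) (γ : L) (x : β × Bool)
    (f : Equiv.Perm X) : gv e (upd e σ γ x f) γ x = f := by
  obtain ⟨c, b⟩ := x
  cases b <;> simp [upd]

theorem gv_upd_of_ne (e : β → L) (σ : L → β → Equiv.Perm X) (γ : L) (x : β × Bool)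
    (f : Equiv.Perm X) (g : L) (y : β × Bool) (h1 : ¬ (g = γ ∧ y = x))
    (h2 : ¬ (g * lv e y = γ ∧ y = il x)) : gv e (upd e σ γ x f) g y = gv e σ g y := by
  obtain ⟨c, b⟩ := x
  obtain ⟨c', b'⟩ := y
  cases b' with
  | true =>
    simp only [gv_true]
    rw [upd, if_neg]
    rintro ⟨h3, h4⟩
    cases b with
    | true => exact h1 ⟨h4, by rw [h3]⟩
    | false =>
      apply h2
      dsimp at h3 h4
      refine ⟨by rw [h4, h3]; simp, by rw [h3]; rfl⟩
  | false =>
    simp only [gv_false]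
    rw [upd, if_neg]
    rintro ⟨h3, h4⟩
    cases b with
    | true =>
      apply h2
      dsimp at h3 h4
      exact ⟨h4, by rw [h3]; rfl⟩
    | false =>
      apply h1
      dsimp at h3 h4
      refine ⟨?_, by rw [h3]⟩
      rw [h3] at h4
      exact mul_right_cancel h4

theorem upd_of_ne (e : β → L) (σ : L → β → Equiv.Perm X) (γ : L) (x : β × Bool)
    (f : Equiv.Perm X) (g : L) (c : β) (h : c ≠ x.1) : upd e σ γ x f g c = σ g c := by
  rw [upd, if_neg]
  exact fun h' => h h'.1

theorem agree_upd (e : β → L) (prot : L → β → Set X) (σ : L → β → Equiv.Perm X) (γ : L)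
    (x : β × Bool) (f : Equiv.Perm X) (hf : ∀ y ∈ gp e prot σ γ x, f y = gv e σ γ x y) :
    Agree prot σ (upd e σ γ x f) := by
  intro g c y hy
  rw [upd]
  split_ifs with h
  · obtain ⟨h1, h2⟩ := h
    obtain ⟨c', b⟩ := x
    dsimp at h1
    subst h1
    cases b with
    | true =>
      dsimp at h2
      subst h2
      exact hf y hy
    | false =>
      dsimp at h2
      subst h2
      show f⁻¹ y = _
      rw [Equiv.Perm.inv_eq_iff_eq]
      have h3 : σ (γ * (e c)⁻¹) c y ∈ gp e prot σ γ (c, false) := by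
        show (σ (γ * (e c)⁻¹) c)⁻¹ (σ (γ * (e c)⁻¹) c y) ∈ prot (γ * (e c)⁻¹) c
        rw [show (σ (γ * (e c)⁻¹) c)⁻¹ (σ (γ * (e c)⁻¹) c y) = y from
          Equiv.symm_apply_apply _ _]
        exact hy
      rw [hf _ h3]
      simp
  · rfl

theorem hol_upd (e : β → L) (σ : L → β → Equiv.Perm X) (γ : L) (x : β × Bool)
    (f : Equiv.Perm X) (w : List (β × Bool)) (g : L)
    (h : ∀ w1 y w2, w = w1 ++ y :: w2 → ¬ (g * ev e w1 = γ ∧ y = x) ∧
      ¬ (g * ev e w1 * lv e y = γ ∧ y = il x)) :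
    hol e (upd e σ γ x f) g w = hol e σ g w := by
  induction w generalizing g with
  | nil => rfl
  | cons z w ih =>
    have h0 := h [] z w rfl
    simp only [ev_nil, mul_one] at h0
    rw [hol_cons, hol_cons, gv_upd_of_ne e σ γ x f g z h0.1 h0.2, ih]
    intro w1 y w2 hw
    have h1 := h (z :: w1) y w2 (by rw [hw]; rfl)
    simp only [ev_cons, ← mul_assoc] at h1
    exact h1

end Protected

section Extension

variable {β : Type*} {L : Type*} [Group L] {X : Type*}

/-- The set of values (in `L`) of the proper nonempty initial segments of `s` that end at an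
endpoint of an `E`-edge. -/
def posSet (e : β → L) (s : List (β × Bool)) (E : Set β) : Set L :=
  {g | ∃ w1 w2, s = w1 ++ w2 ∧ w1 ≠ [] ∧ w2 ≠ [] ∧
    ((∃ y ∈ w1.getLast?, y.1 ∈ E) ∨ (∃ y ∈ w2.head?, y.1 ∈ E)) ∧ g = ev e w1}

theorem mem_posSet_of_head {e : β → L} {s : List (β × Bool)} {E : Set β}
    {w1 w2 : List (β × Bool)} {y : β × Bool} (hs : s = w1 ++ y :: w2) (h1 : w1 ≠ [])
    (hy : y.1 ∈ E) : ev e w1 ∈ posSet e s E :=
  ⟨w1, y :: w2, hs, h1, by simp, Or.inr ⟨y, by simp, hy⟩, rfl⟩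

theorem mem_posSet_of_last {e : β → L} {s : List (β × Bool)} {E : Set β}
    {w1 w2 : List (β × Bool)} {y : β × Bool} (hs : s = w1 ++ y :: w2) (h1 : w2 ≠ [])
    (hy : y.1 ∈ E) : ev e w1 * lv e y ∈ posSet e s E :=
  ⟨w1 ++ [y], w2, by simp [hs], by simp, h1, Or.inl ⟨y, by simp, hy⟩, by simp⟩

/-- existence of a source in a finite subset -/
theorem exists_source {S : Set L} (hS : (1 : L) ∉ Subsemigroup.closure S) (O : Finset L)
    (hO : O.Nonempty) : ∃ γ ∈ O, ∀ g ∈ O, ∀ x ∈ S, g * x ≠ γ := by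
  let r : O → O → Prop := fun a b => ∃ x ∈ Subsemigroup.closure S, (a : L) * x = b
  have : IsTrans O r := ⟨fun a b c ⟨x, hx, h1⟩ ⟨y, hy, h2⟩ =>
    ⟨x * y, Subsemigroup.mul_mem _ hx hy, by rw [← mul_assoc, h1, h2]⟩⟩
  have : Std.Irrefl r := ⟨fun a ⟨x, hx, h1⟩ => hS (by
    have : x = 1 := by simpa using h1
    rwa [this] at hx)⟩
  have wf := Finite.wellFounded_of_trans_of_irrefl r
  obtain ⟨γ, hγ, hmin⟩ := wf.has_min Set.univ ⟨⟨hO.choose, hO.choose_spec⟩, trivial⟩
  refine ⟨γ, γ.2, fun g hg x hx h => hmin ⟨g, hg⟩ trivial ⟨x, Subsemigroup.subset_closure hx, h⟩⟩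

/-- The extension lemma. -/
theorem extension (e : β → L) (x0 : β × Bool) (w : List (β × Bool)) (E : Set β)
    (hs : ev e (x0 :: w) = 1) (hE : x0.1 ∈ E)
    (H1 : (1 : L) ∉ Subsemigroup.closure (posSet e (x0 :: w) E))
    (H2 : ∀ y ∈ (x0 :: w).getLast?, y ≠ il x0)
    (m : ℕ) (hm : m ≠ 0) (prot : L → β → Set X) (σ0 : L → β → Equiv.Perm X)
    (H3 : ∀ g, ∀ x ∈ gp e prot σ0 g x0, PP e prot σ0 g (wpow (x0 :: w) m) x ∧
      hol e σ0 g (wpow (x0 :: w) m) x = x) (O : Finset L) :
    ∃ σ : L → β → Equiv.Perm X, Agree prot σ0 σ ∧ (∀ g c, c ∉ E → σ g c = σ0 g c) ∧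
      ∀ g ∈ O, hol e σ g (wpow (x0 :: w) m) = 1 := by
  classical
  induction hn : O.card using Nat.strong_induction_on generalizing O with
  | _ n IH =>
  rcases O.eq_empty_or_nonempty with rfl | hO
  · exact ⟨σ0, fun _ _ _ _ => rfl, fun _ _ _ => rfl, fun g hg => absurd hg (Finset.notMem_empty _)⟩
  obtain ⟨γ, hγ, hsrc⟩ := exists_source H1 O hO
  obtain ⟨σ', hA, hB, hC⟩ := IH (O.erase γ).card
    (by rw [← hn]; exact Finset.card_erase_lt_of_mem hγ) (O.erase γ) rfl
  set τ := hol e σ' (γ * lv e x0) w with hτ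
  set f0 := gv e σ' γ x0 with hf0
  have hholγ : hol e σ' γ (x0 :: w) = τ * f0 := rfl
  have hgp : ∀ x, x ∈ gp e prot σ' γ x0 ↔ x ∈ gp e prot σ0 γ x0 :=
    fun x => ⟨fun h => (hA.symm'.gp_gv h).1, fun h => (hA.gp_gv h).1⟩
  -- protected first germs at `γ`
  have hPP : ∀ x ∈ gp e prot σ' γ x0, PP e prot σ' γ (wpow (x0 :: w) m) x ∧
      ((τ * f0) ^ m) x = x := by
    intro x hx
    obtain ⟨h1, h2⟩ := H3 γ x ((hgp x).1 hx)
    obtain ⟨h3, h4⟩ := hA.PP_hol h1
    refine ⟨h3, ?_⟩
    rw [← hholγ, ← hol_wpow e σ' γ _ hs m, h4, h2]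
  have hfw : ∀ x ∈ gp e prot σ' γ x0, (τ * f0) x ∈ gp e prot σ' γ x0 := by
    intro x hx
    obtain ⟨h1, h2⟩ := hPP x hx
    obtain ⟨k, rfl⟩ := Nat.exists_eq_succ_of_ne_zero hm
    rcases k with _ | k
    · simp only [zero_add, pow_one, Nat.succ_eq_add_one] at h2
      rw [h2]; exact hx
    · rw [Nat.succ_eq_add_one, wpow_succ, PP_append, hs, mul_one, wpow_succ] at h1
      exact h1.2.1
  have hfwk : ∀ k, ∀ x ∈ gp e prot σ' γ x0, ((τ * f0) ^ k) x ∈ gp e prot σ' γ x0 := by
    intro k
    induction k with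
    | zero => intro x hx; simpa using hx
    | succ k ih => intro x hx; rw [pow_succ', Equiv.Perm.mul_apply]; exact hfw _ (ih x hx)
  have hiff : ∀ x, (τ * f0) x ∈ gp e prot σ' γ x0 ↔ x ∈ gp e prot σ' γ x0 := by
    intro x
    refine ⟨fun h => ?_, hfw x⟩
    obtain ⟨k, rfl⟩ := Nat.exists_eq_succ_of_ne_zero hm
    have h1 := (hPP _ h).2
    have h2 := hfwk k _ h
    rw [Nat.succ_eq_add_one, pow_succ', Equiv.Perm.mul_apply] at h1
    have h3 := (τ * f0).injective h1
    rwa [h3] at h2
  set θ := Equiv.Perm.ofSubtype ((τ * f0).subtypePerm (p := (· ∈ gp e prot σ' γ x0)) hiff) with hθ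
  have hθm : θ ^ m = 1 := by
    rw [hθ, ← map_pow, show ((τ * f0).subtypePerm hiff) ^ m = 1 from ?_, map_one]
    ext x
    rw [Equiv.Perm.subtypePerm_pow]
    exact (hPP x.1 x.2).2
  have hθx : ∀ x ∈ gp e prot σ' γ x0, θ x = (τ * f0) x := fun x hx => by
    rw [hθ, Equiv.Perm.ofSubtype_apply_of_mem _ hx]; rfl
  set f := τ⁻¹ * θ with hf
  set σ := upd e σ' γ x0 f with hσ
  have hAg : Agree prot σ' σ := by
    apply agree_upd
    intro y hy
    rw [hf, Equiv.Perm.mul_apply, hθx y hy, Equiv.Perm.mul_apply]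
    exact Equiv.symm_apply_apply _ _
  refine ⟨σ, hA.trans' hAg, fun g c hc => ?_, fun g hg => ?_⟩
  · rw [hσ, upd_of_ne, hB g c hc]
    rintro rfl
    exact hc hE
  · by_cases hgγ : g = γ
    · subst hgγ
      rw [hol_wpow e σ g _ hs m, hol_cons]
      have h1 : gv e σ g x0 = f := gv_upd_self e σ' g x0 f
      have h2 : hol e σ (g * lv e x0) w = τ := by
        rw [hτ, hσ]
        apply hol_upd
        intro w1 y w2 hw
        constructor
        · rintro ⟨h3, rfl⟩
          have h4 : ev e (y :: w1) = 1 := by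
            rw [mul_assoc] at h3
            simpa using h3
          have h5 : ev e (y :: w1) ∈ posSet e (y :: w) E :=
            mem_posSet_of_head (w2 := w2) (y := y) (by rw [hw]; rfl) (by simp) hE
          rw [h4] at h5
          exact H1 (Subsemigroup.subset_closure h5)
        · rintro ⟨h3, hy⟩
          have h4 : ev e (x0 :: w1) * lv e y = 1 := by
            rw [mul_assoc, mul_assoc] at h3
            have h6 : lv e x0 * (ev e w1 * lv e y) = 1 := by simpa using h3
            rw [ev_cons, mul_assoc]; exact h6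
          by_cases hw2 : w2 = []
          · subst hw2
            refine H2 y ?_ hy
            rw [hw]
            simp [List.getLast?_cons]
          · have h5 : ev e (x0 :: w1) * lv e y ∈ posSet e (x0 :: w) E :=
              mem_posSet_of_last (w2 := w2) (by rw [hw]; rfl) hw2 (by rw [hy]; exact hE)
            rw [h4] at h5
            exact H1 (Subsemigroup.subset_closure h5)
      rw [h1, h2, hf, ← mul_assoc, mul_inv_cancel, one_mul, hθm]
    · have h0 : hol e σ g (x0 :: w) = hol e σ' g (x0 :: w) := by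
        apply hol_upd
        intro w1 y w2 hw
        constructor
        · rintro ⟨h3, rfl⟩
          by_cases hw1 : w1 = []
          · subst hw1
            exact hgγ (by simpa using h3)
          · exact hsrc g hg _ (mem_posSet_of_head hw hw1 hE) h3
        · rintro ⟨h3, hy⟩
          by_cases hw2 : w2 = []
          · subst hw2
            refine H2 y ?_ hy
            rw [hw]
            simp
          · rw [mul_assoc] at h3
            exact hsrc g hg _ (mem_posSet_of_last hw hw2 (by rw [hy]; exact hE)) h3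
      rw [hol_wpow e σ g _ hs m, h0, ← hol_wpow e σ' g _ hs m]
      exact hC g (Finset.mem_erase.2 ⟨hgγ, hg⟩)

end Extension

end OneRel
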